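import Mathlib

/-!
Definitions for the statements: inclusions of von Neumann algebras on an abstract Hilbert space,
the weak relative Dixmier property, and amenability.
-/

set_option autoImplicit false
open scoped InnerProductSpace

namespace Pool.Agent.Y671.WD

/-- bounded functions -/
def Bd {G : Type} (f : G → ℝ) : Prop := ∃ C, ∀ g, |f g| ≤ C

/-- `m` is a mean on the bounded real functions on `G`: linear, unital and positive -/
def Mean {G : Type} (m : (G → ℝ) → ℝ) : Prop :=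
  (∀ f f', Bd f → Bd f' → m (fun g => f g + f' g) = m f + m f') ∧
  (∀ (a : ℝ) f, Bd f → m (fun g => a * f g) = a * m f) ∧
  m (fun _ => 1) = 1 ∧ ∀ f, Bd f → (∀ g, 0 ≤ f g) → 0 ≤ m f

/-- amenability of a group: there is a left invariant mean on the bounded functions -/
def Amen (G : Type) [Group G] : Prop :=
  ∃ m : (G → ℝ) → ℝ, Mean m ∧ ∀ (h : G) (f : G → ℝ), Bd f → m (fun g => f (h * g)) = m f

/-- there is a mean on the bounded functions on `Γ` which takes the same value on `f` and on the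
right translates of `f`, for all `f` invariant under the right translations by `S` -/
def RMean {Γ : Type} [Group Γ] (S : Subgroup Γ) : Prop :=
  ∃ m : (Γ → ℝ) → ℝ, Mean m ∧ ∀ (h : Γ) (f : Γ → ℝ), Bd f →
    (∀ g, ∀ k ∈ S, f (g * k) = f g) → m (fun g => f (g * h)) = m f

/-- `S` is relatively icc in `Γ` -/
def RelIcc {Γ : Type} [Group Γ] (S : Subgroup Γ) : Prop :=
  ∀ g : Γ, g ≠ 1 → {h | ∃ k ∈ S, h = k * g * k⁻¹}.Infinite

/-- `S` is a Hecke subgroup (almost normal): each double coset `S h S` is a finite union of left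
cosets of `S` -/
def Hecke {Γ : Type} [Group Γ] (S : Subgroup Γ) : Prop :=
  ∀ h : Γ, ((fun k : Γ => (QuotientGroup.mk (k * h) : Γ ⧸ S)) '' (S : Set Γ)).Finite

section

variable {H : Type} [NormedAddCommGroup H] [InnerProductSpace ℂ H] [CompleteSpace H]

/-- `N ⊆ M` is an irreducible inclusion of factors -/
def IrredFactors (N M : VonNeumannAlgebra H) : Prop :=
  (∀ a ∈ N, a ∈ M) ∧
  (∀ z ∈ M, (∀ y ∈ M, z * y = y * z) → ∃ c : ℂ, z = c • (1 : H →L[ℂ] H)) ∧
  (∀ z ∈ N, (∀ y ∈ N, z * y = y * z) → ∃ c : ℂ, z = c • (1 : H →L[ℂ] H)) ∧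
  (∀ z ∈ M, (∀ y ∈ N, z * y = y * z) → ∃ c : ℂ, z = c • (1 : H →L[ℂ] H))

/-- the weak relative Dixmier property of an irreducible inclusion: for each `x ∈ M` some scalar
is in the weak operator closure of the convex hull of the unitary conjugates of `x` by `N` -/
def WRDP (N M : VonNeumannAlgebra H) : Prop :=
  ∀ x ∈ M, ∃ c : ℂ, ∀ (n : ℕ) (ξ η : Fin n → H) (ε : ℝ), 0 < ε →
    ∃ y ∈ convexHull ℝ {T : H →L[ℂ] H | ∃ u ∈ unitary (H →L[ℂ] H), u ∈ N ∧ T = u * x * star u},
      ∀ i : Fin n, ‖⟪η i, (y - c • (1 : H →L[ℂ] H)) (ξ i)⟫_ℂ‖ < ε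

/-- `A` consists of the operators whose matrix in the basis `b` is invariant under the right
translations by `S`, i.e. `A` is the commutant of these right translations -/
def IsRightComm {Γ : Type} [Group Γ] (b : HilbertBasis Γ ℂ H) (S : Subgroup Γ)
    (A : VonNeumannAlgebra H) : Prop :=
  ∀ T : H →L[ℂ] H, T ∈ A ↔ ∀ k ∈ S, ∀ g h : Γ, ⟪b (g * k), T (b (h * k))⟫_ℂ = ⟪b g, T (b h)⟫_ℂ

end

end Pool.Agent.Y671.WD
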