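import Mathlib

/-!
Means on `ℓ^∞(Γ)` and a relative form of Mitchell's theorem.
-/

set_option autoImplicit false
open Finset

namespace Pool.Agent.Y671.WD

/-- the bounded real functions on `G` -/
abbrev LI (G : Type) := lp (fun _ : G => ℝ) ⊤

variable {G K : Type}

lemma abs_le_norm (f : LI G) (g : G) : |f g| ≤ ‖f‖ := by
  have := lp.norm_apply_le_norm (by simp : (⊤ : ENNReal) ≠ 0) f g
  simpa using this

/-- a bounded function as an element of `ℓ^∞` -/
noncomputable def mkB (f : G → ℝ) (C : ℝ) (h : ∀ g, |f g| ≤ C) : LI G :=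
  ⟨f, memℓp_infty ⟨C, by
    rintro _ ⟨g, rfl⟩
    exact h g⟩⟩

@[simp] lemma mkB_apply (f : G → ℝ) (C : ℝ) (h : ∀ g, |f g| ≤ C) (g : G) : mkB f C h g = f g := rfl

/-- composition with a map -/
noncomputable def cp (φ : K → G) (f : LI G) : LI K := mkB (fun g => f (φ g)) ‖f‖ fun g => abs_le_norm f (φ g)

@[simp] lemma cp_apply (φ : K → G) (f : LI G) (g : K) : cp φ f g = f (φ g) := rfl

lemma cp_add (φ : K → G) (f f' : LI G) : cp φ (f + f') = cp φ f + cp φ f' := by
  ext g; rfl

lemma cp_smul (φ : K → G) (a : ℝ) (f : LI G) : cp φ (a • f) = a • cp φ f := by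
  ext g; rfl

/-- a mean on `ℓ^∞(G)`: a linear, unital and positive function -/
structure IsMean (m : LI G → ℝ) : Prop where
  add : ∀ f f', m (f + f') = m f + m f'
  smul : ∀ (a : ℝ) f, m (a • f) = a * m f
  one : ∀ f : LI G, (∀ g, f g = 1) → m f = 1
  nonneg : ∀ f : LI G, (∀ g, 0 ≤ f g) → 0 ≤ m f

/-- the means on `ℓ^∞(G)` -/
def MS (G : Type) : Set (LI G → ℝ) :=
  {m | (∀ f f', m (f + f') = m f + m f') ∧ (∀ (a : ℝ) f, m (a • f) = a * m f) ∧
    (∀ f : LI G, (∀ g, f g = 1) → m f = 1) ∧ ∀ f : LI G, (∀ g, 0 ≤ f g) → 0 ≤ m f}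

lemma mem_MS {m : LI G → ℝ} : m ∈ MS G ↔ IsMean m :=
  ⟨fun h => ⟨h.1, h.2.1, h.2.2.1, h.2.2.2⟩, fun h => ⟨h.add, h.smul, h.one, h.nonneg⟩⟩

/-- the constant function -/
noncomputable def oneB : LI G := mkB (fun _ => 1) 1 (fun _ => by simp)

lemma IsMean.sub {m : LI G → ℝ} (hm : IsMean m) (f f' : LI G) : m (f - f') = m f - m f' := by
  have h := hm.add (f - f') f'
  rw [sub_add_cancel] at h
  linarith

lemma IsMean.mono {m : LI G → ℝ} (hm : IsMean m) {f f' : LI G} (h : ∀ g, f g ≤ f' g) : m f ≤ m f' := by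
  have h1 := hm.nonneg (f' - f) (fun g => by
    change 0 ≤ f' g - f g
    linarith [h g])
  rw [hm.sub] at h1
  linarith

lemma IsMean.const {m : LI G → ℝ} (hm : IsMean m) {f : LI G} {a : ℝ} (h : ∀ g, f g = a) : m f = a := by
  have h1 : f = a • (oneB : LI G) := by
    ext g
    change f g = a * 1
    rw [h g, mul_one]
  rw [h1, hm.smul, hm.one _ (fun g => rfl), mul_one]

lemma IsMean.le {m : LI G → ℝ} (hm : IsMean m) {f : LI G} {a : ℝ} (h : ∀ g, f g ≤ a) : m f ≤ a := by
  have h1 : m (a • (oneB : LI G)) = a := hm.const (fun g => by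
    change a * 1 = a
    ring)
  rw [← h1]
  exact hm.mono (fun g => by
    change f g ≤ a * 1
    linarith [h g])

lemma IsMean.ge {m : LI G → ℝ} (hm : IsMean m) {f : LI G} {a : ℝ} (h : ∀ g, a ≤ f g) : a ≤ m f := by
  have h1 : m (a • (oneB : LI G)) = a := hm.const (fun g => by
    change a * 1 = a
    ring)
  rw [← h1]
  exact hm.mono (fun g => by
    change a * 1 ≤ f g
    linarith [h g])

lemma IsMean.abs_le {m : LI G → ℝ} (hm : IsMean m) (f : LI G) : |m f| ≤ ‖f‖ := by
  rw [_root_.abs_le]
  exact ⟨hm.ge fun g => (_root_.abs_le.1 (abs_le_norm f g)).1,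
    hm.le fun g => (_root_.abs_le.1 (abs_le_norm f g)).2⟩

lemma isClosed_MS : IsClosed (MS G) := by
  have h1 : IsClosed {m : LI G → ℝ | ∀ f f', m (f + f') = m f + m f'} := by
    simp only [Set.ofPred_forall]
    exact isClosed_iInter fun f => isClosed_iInter fun f' =>
      isClosed_eq (continuous_apply _)
        (Continuous.add (continuous_apply (A := fun _ : LI G => ℝ) f) (continuous_apply f'))
  have h2 : IsClosed {m : LI G → ℝ | ∀ (a : ℝ) f, m (a • f) = a * m f} := by
    simp only [Set.ofPred_forall]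
    exact isClosed_iInter fun f => isClosed_iInter fun f' =>
      isClosed_eq (continuous_apply _) (continuous_const.mul (continuous_apply _))
  have h3 : IsClosed {m : LI G → ℝ | ∀ f : LI G, (∀ g, f g = 1) → m f = 1} := by
    simp only [Set.ofPred_forall]
    exact isClosed_iInter fun f => isClosed_iInter fun _ =>
      isClosed_eq (continuous_apply _) continuous_const
  have h4 : IsClosed {m : LI G → ℝ | ∀ f : LI G, (∀ g, 0 ≤ f g) → 0 ≤ m f} := by
    simp only [Set.ofPred_forall]
    exact isClosed_iInter fun f => isClosed_iInter fun _ =>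
      isClosed_le continuous_const (continuous_apply _)
  exact h1.inter (h2.inter (h3.inter h4))

lemma isCompact_MS : IsCompact (MS G) := by
  have h1 : IsCompact (Set.pi Set.univ fun f : LI G => Set.Icc (-‖f‖) ‖f‖) :=
    isCompact_univ_pi fun f => isCompact_Icc
  refine h1.of_isClosed_subset isClosed_MS ?_
  intro m hm f _
  exact _root_.abs_le.1 ((mem_MS.1 hm).abs_le f)

lemma MS_nonempty [Nonempty G] : (∃ m : LI G → ℝ, IsMean m) := by
  obtain ⟨g⟩ := ‹Nonempty G›
  exact ⟨fun f => f g, fun _ _ => rfl, fun _ _ => rfl, fun f h => h g, fun f h => h g⟩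

section Group

variable [Group G]

/-- right translation: `(RT h f)(g) = f (g h)` -/
noncomputable def RT (h : G) (f : LI G) : LI G := cp (fun g => g * h) f

@[simp] lemma RT_apply (h : G) (f : LI G) (g : G) : RT h f g = f (g * h) := rfl

lemma RT_RT (k h : G) (f : LI G) : RT k (RT h f) = RT (k * h) f := by
  ext g
  change f (g * k * h) = f (g * (k * h))
  rw [mul_assoc]

lemma RT_one (f : LI G) : RT 1 f = f := by
  ext g
  change f (g * 1) = f g
  rw [mul_one]

/-- the operator on `ℓ^∞` given by a mean -/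
noncomputable def TT (m : LI G → ℝ) (hm : IsMean m) (f : LI G) : LI G :=
  mkB (fun h => m (RT h f)) ‖f‖ fun h => by
    refine _root_.abs_le.2 ⟨hm.ge fun g => ?_, hm.le fun g => ?_⟩
    · exact (_root_.abs_le.1 (abs_le_norm f (g * h))).1
    · exact (_root_.abs_le.1 (abs_le_norm f (g * h))).2

lemma TT_apply (m : LI G → ℝ) (hm : IsMean m) (f : LI G) (h : G) : TT m hm f h = m (RT h f) := rfl

lemma TT_RT (m : LI G → ℝ) (hm : IsMean m) (f : LI G) (h : G) :
    TT m hm (RT h f) = RT h (TT m hm f) := by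
  ext k
  rw [TT_apply, RT_RT]
  rfl

lemma comp_mem {n m : LI G → ℝ} (hn : IsMean n) (hm : IsMean m) :
    IsMean (fun f => n (TT m hm f)) := by
  refine ⟨fun f f' => ?_, fun a f => ?_, fun f h => ?_, fun f h => ?_⟩
  · have h1 : TT m hm (f + f') = TT m hm f + TT m hm f' := by
      ext h
      change m (RT h (f + f')) = m (RT h f) + m (RT h f')
      rw [← hm.add]
      congr 1
    rw [h1, hn.add]
  · have h1 : TT m hm (a • f) = a • TT m hm f := by
      ext h
      change m (RT h (a • f)) = a * m (RT h f)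
      rw [← hm.smul]
      congr 1
    rw [h1, hn.smul]
  · exact hn.one _ fun k => hm.one _ fun g => h _
  · exact hn.nonneg _ fun k => hm.nonneg _ fun g => h _

/-- from approximate to exact invariance of one function -/
lemma exact_of_approx (f : LI G) (c : ℝ)
    (H : ∀ (F : Finset G) (ε : ℝ), 0 < ε → ∃ m, IsMean m ∧ ∀ h ∈ F, |m (RT h f) - c| ≤ ε) :
    ∃ m, IsMean m ∧ ∀ h, m (RT h f) = c := by
  classical
  have h1 := isCompact_MS (G := G).inter_iInter_nonempty
    (fun i : G × ℕ => {m : LI G → ℝ | |m (RT i.1 f) - c| ≤ 1 / ((i.2 : ℝ) + 1)})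
    (fun i => isClosed_le (((continuous_apply _).sub continuous_const).abs) continuous_const)
    (fun u => by
      obtain ⟨m, hm, hm'⟩ := H (u.image Prod.fst) (1 / (((u.sup Prod.snd : ℕ) : ℝ) + 1))
        (by positivity)
      refine ⟨m, mem_MS.2 hm, ?_⟩
      simp only [Set.mem_iInter]
      intro i hi
      refine (hm' i.1 (mem_image_of_mem _ hi)).trans ?_
      apply one_div_le_one_div_of_le (by positivity)
      have : i.2 ≤ u.sup Prod.snd := Finset.le_sup (f := Prod.snd) hi
      have : (i.2 : ℝ) ≤ ((u.sup Prod.snd : ℕ) : ℝ) := by exact_mod_cast this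
      linarith)
  obtain ⟨m, hm, hm'⟩ := h1
  refine ⟨m, mem_MS.1 hm, fun h => ?_⟩
  simp only [Set.mem_iInter] at hm'
  have h2 : ∀ n : ℕ, |m (RT h f) - c| ≤ 1 / ((n : ℝ) + 1) := fun n => hm' (h, n)
  have h3 : |m (RT h f) - c| ≤ 0 :=
    ge_of_tendsto' tendsto_one_div_add_atTop_nhds_zero_nat h2
  have h4 := abs_eq_zero.1 (le_antisymm h3 (abs_nonneg _))
  linarith

/-- Mitchell's theorem for a class of functions: if every function of the class admits a mean
which is constant on its right translates, then one mean works for the whole class -/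
theorem mitchell (C : Set (LI G)) (hC : ∀ m (hm : IsMean m), ∀ f ∈ C, TT m hm f ∈ C)
    (H : ∀ f ∈ C, ∃ c : ℝ, ∀ (F : Finset G) (ε : ℝ), 0 < ε →
      ∃ m, IsMean m ∧ ∀ h ∈ F, |m (RT h f) - c| ≤ ε) :
    ∃ m, IsMean m ∧ ∀ f ∈ C, ∀ h, m (RT h f) = m f := by
  classical
  have H1 : ∀ f ∈ C, ∃ m, IsMean m ∧ ∀ h, m (RT h f) = m f := by
    intro f hf
    obtain ⟨c, hc⟩ := H f hf
    obtain ⟨m, hm, hm'⟩ := exact_of_approx f c hc
    refine ⟨m, hm, fun h => ?_⟩
    have := hm' 1
    rw [RT_one] at this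
    rw [this, hm' h]
  have H2 : ∀ s : Finset (LI G), ∃ m, IsMean m ∧ ∀ f ∈ s, f ∈ C → ∀ h, m (RT h f) = m f := by
    intro s
    induction s using Finset.induction_on with
    | empty =>
      obtain ⟨m, hm⟩ := MS_nonempty (G := G)
      exact ⟨m, hm, fun f hf => absurd hf (notMem_empty f)⟩
    | insert a s ha ih =>
      obtain ⟨m, hm, hm'⟩ := ih
      by_cases haC : a ∈ C
      swap
      · refine ⟨m, hm, fun f hf hfC h => ?_⟩
        rw [mem_insert] at hf
        rcases hf with rfl | hf
        · exact absurd hfC haC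
        · exact hm' f hf hfC h
      obtain ⟨n, hn, hn'⟩ := H1 _ (hC m hm a haC)
      refine ⟨_, comp_mem hn hm, fun f hf hfC h => ?_⟩
      rw [TT_RT]
      rw [mem_insert] at hf
      rcases hf with rfl | hf
      · exact hn' h
      · have h1 : ∀ k, TT m hm f k = m f := fun k => hm' f hf hfC k
        rw [hn.const (f := TT m hm f) h1]
        exact hn.const fun g => h1 _
  have h1 := isCompact_MS (G := G).inter_iInter_nonempty
    (fun f : C => {m : LI G → ℝ | ∀ h, m (RT h f.1) = m f.1})
    (fun f => by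
      simp only [Set.ofPred_forall]
      exact isClosed_iInter fun h => isClosed_eq (continuous_apply _) (continuous_apply _))
    (fun u => by
      obtain ⟨m, hm, hm'⟩ := H2 (u.image Subtype.val)
      refine ⟨m, mem_MS.2 hm, ?_⟩
      simp only [Set.mem_iInter]
      intro f hf
      exact hm' f.1 (mem_image_of_mem _ hf) f.2)
  obtain ⟨m, hm, hm'⟩ := h1
  simp only [Set.mem_iInter] at hm'
  exact ⟨m, mem_MS.1 hm, fun f hf h => hm' ⟨f, hf⟩ h⟩

end Group

/-- a mean takes values in the closed convex hull of the values -/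
lemma mem_closure_of_mean {ι : Type} [Fintype ι] (v : ι → LI G) {m : LI G → ℝ} (hm : IsMean m) :
    (fun i => m (v i)) ∈ closure (convexHull ℝ (Set.range fun g => fun i => v i g)) := by
  classical
  by_contra hcon
  obtain ⟨φ, u, h1, h2⟩ := geometric_hahn_banach_closed_point
    (convex_convexHull ℝ (Set.range fun g => fun i => v i g)).closure isClosed_closure hcon
  have hφ : ∀ z : ι → ℝ, φ z = ∑ i, z i * φ (Pi.single i 1) := by
    intro z
    have h0 := LinearMap.pi_apply_eq_sum_univ φ.toLinearMap z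
    have h1 : ∀ i : ι, (fun j => if i = j then (1 : ℝ) else 0) = Pi.single i 1 := by
      intro i
      funext j
      rw [Pi.single_apply]
      exact if_congr eq_comm rfl rfl
    simp only [h1] at h0
    exact h0
  set w : LI G := ∑ i, φ (Pi.single i 1) • v i with hw
  have hsum : ∀ s : Finset ι, m (∑ i ∈ s, φ (Pi.single i 1) • v i) =
      ∑ i ∈ s, m (v i) * φ (Pi.single i 1) := by
    intro s
    induction s using Finset.induction_on with
    | empty =>
      rw [sum_empty, sum_empty]
      exact hm.const fun g => rfl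
    | insert a s ha ih =>
      rw [sum_insert ha, sum_insert ha, hm.add, hm.smul, ih, mul_comm]
  have h3 : m w = φ fun i => m (v i) := by
    rw [hw, hsum, hφ]
  have h4 : ∀ g, w g = φ fun i => v i g := by
    intro g
    rw [hφ, hw, lp.coeFn_sum, Finset.sum_apply]
    refine sum_congr rfl fun i _ => ?_
    change φ _ * v i g = _
    ring
  have h5 : m w ≤ u := hm.le fun g => by
    rw [h4]
    exact (h1 _ (subset_closure (subset_convexHull ℝ _ ⟨g, rfl⟩))).le
  rw [h3] at h5
  linarith

end Pool.Agent.Y671.WD
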