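import Mathlib
import Pool.Agent.H451R3.WRD
import Pool.Agent.Y671.WD.Mean
import Pool.Agent.Y671.WD.Abs

/-!
Multiplication operators by right `Λ`-invariant functions, and the necessity of a relatively
invariant mean for the weak relative Dixmier property.
-/

set_option autoImplicit false
open scoped InnerProductSpace ENNReal
open Finset Pool.Agent.H451R3.WRD

namespace Pool.Agent.Y671.WD

variable {Γ : Type}

lemma mem_mul (F : LI Γ) (f : HH Γ) : Memℓp (fun g => (F g : ℂ) * f g) 2 := by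
  apply ((lp.memℓp f).const_smul ((‖F‖ : ℝ) : ℂ)).mono'
  intro g
  rw [norm_mul, Pi.smul_apply, norm_smul, Complex.norm_real, Complex.norm_real, norm_norm]
  exact mul_le_mul_of_nonneg_right (by simpa using abs_le_norm F g) (norm_nonneg _)

/-- multiplication by a bounded real function -/
noncomputable def MR (F : LI Γ) : HH Γ →L[ℂ] HH Γ :=
  LinearMap.mkContinuous
    { toFun := fun f => ⟨fun g => (F g : ℂ) * f g, mem_mul F f⟩
      map_add' := fun f h => by
        ext g
        change (F g : ℂ) * (f g + h g) = (F g : ℂ) * f g + (F g : ℂ) * h g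
        ring
      map_smul' := fun c f => by
        ext g
        change (F g : ℂ) * (c * f g) = c * ((F g : ℂ) * f g)
        ring } ‖F‖ (fun f => by
        apply le_of_sq_le_sq _ (by positivity)
        rw [mul_pow, norm_sq_eq, norm_sq_eq, ← tsum_mul_left]
        refine (summable_sq _).tsum_le_tsum (fun g => ?_) ((summable_sq f).mul_left _)
        change ‖(F g : ℂ) * f g‖ ^ 2 ≤ _
        rw [norm_mul, mul_pow]
        refine mul_le_mul_of_nonneg_right ?_ (by positivity)
        rw [Complex.norm_real, Real.norm_eq_abs]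
        exact pow_le_pow_left₀ (abs_nonneg _) (abs_le_norm F g) 2)

lemma MR_apply (F : LI Γ) (f : HH Γ) (g : Γ) : MR F f g = (F g : ℂ) * f g := rfl

variable [Group Γ]

/-- right `Λ`-invariant functions -/
def RI (S : Subgroup Γ) : Set (LI Γ) := {f | ∀ g, ∀ k ∈ S, f (g * k) = f g}

lemma MR_mem (S : Subgroup Γ) (F : LI Γ) (hF : F ∈ RI S) : MR F ∈ NN S := by
  rw [mem_NN]
  intro k hk
  ext f g
  change (MR F f : HH Γ) (g * k) = (MR F (UU (Equiv.mulRight k) f) : HH Γ) g
  rw [MR_apply, MR_apply, hF g k hk]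
  rfl

lemma diagR {u : HH Γ →L[ℂ] HH Γ} (hu : u ∈ NN (⊤ : Subgroup Γ)) (F : LI Γ) (h : Γ) :
    HasSum (fun g => F (g * h) * ‖(star u (dl 1) : HH Γ) g‖ ^ 2)
      (⟪dl h, (u * MR F * star u) (dl h)⟫_ℂ).re := by
  have hsu : star u ∈ NN (⊤ : Subgroup Γ) := star_mem hu
  rw [mem_NN] at hsu
  set η := star u (dl 1) with hη
  set ζ := star u (dl h) with hζ
  have h1 : ∀ g, ζ (g * h) = η g := by
    intro g
    have h2 : dl h = UU (Equiv.mulRight h⁻¹) (dl (1 : Γ)) := by
      rw [UU_dl]
      congr 1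
      simp
    have h3 := congrArg (fun T : HH Γ →L[ℂ] HH Γ => T (dl 1)) (hsu h⁻¹ (Subgroup.mem_top _))
    simp only [mul_apply_eq_comp] at h3
    rw [hζ, h2, ← h3, UU_apply]
    simp [hη]
  have h4 : ⟪dl h, (u * MR F * star u) (dl h)⟫_ℂ = ⟪ζ, MR F ζ⟫_ℂ := by
    rw [hζ, ContinuousLinearMap.star_eq_adjoint, ContinuousLinearMap.adjoint_inner_left]
    rfl
  rw [h4]
  have h5 := Complex.hasSum_re (lp.hasSum_inner ζ (MR F ζ))
  have h6 := (Equiv.hasSum_iff (Equiv.mulRight h)).2 h5
  convert h6 using 1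
  funext g
  change _ = (⟪ζ (g * h), (MR F ζ : HH Γ) (g * h)⟫_ℂ).re
  rw [MR_apply, h1]
  have h7 : ⟪η g, (F (g * h) : ℂ) * η g⟫_ℂ = (F (g * h) : ℂ) * ⟪η g, η g⟫_ℂ := by
    have := inner_smul_right (𝕜 := ℂ) (η g) (η g) (F (g * h) : ℂ)
    simpa using this
  rw [h7, inner_self_eq_norm_sq_to_K, Complex.re_ofReal_mul]
  norm_cast

/-- the conjugates of `x` by the unitaries of `N` -/
def cj {H : Type} [NormedAddCommGroup H] [InnerProductSpace ℂ H] [CompleteSpace H]
    (N : VonNeumannAlgebra H) (x : H →L[ℂ] H) : Set (H →L[ℂ] H) :=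
  {T | ∃ u ∈ unitary (H →L[ℂ] H), u ∈ N ∧ T = u * x * star u}

/-- each element of the convex hull of the conjugates of a multiplication operator yields a mean -/
lemma hull_mean (F : LI Γ) {y : HH Γ →L[ℂ] HH Γ}
    (hy : y ∈ convexHull ℝ (cj (NN (⊤ : Subgroup Γ)) (MR F))) :
    ∃ m : LI Γ → ℝ, IsMean m ∧ ∀ h, m (RT h F) = (⟪dl h, y (dl h)⟫_ℂ).re := by
  have h1 : convexHull ℝ (cj (NN (⊤ : Subgroup Γ)) (MR F)) ⊆
      {y | ∃ m : LI Γ → ℝ, IsMean m ∧ ∀ h, m (RT h F) = (⟪dl h, y (dl h)⟫_ℂ).re} := by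
    apply convexHull_min
    · rintro T ⟨u, hu, hu', rfl⟩
      have h3 := norm_sq_eq (star u (dl (1 : Γ)))
      rw [norm_eta (Unitary.mul_star_self_of_mem hu)] at h3
      have h4 := (summable_sq (star u (dl (1 : Γ))))
      have hs : ∀ f : LI Γ, Summable fun g => f g * ‖(star u (dl 1) : HH Γ) g‖ ^ 2 := by
        intro f
        refine Summable.of_norm_bounded (h4.mul_left ‖f‖) (fun g => ?_)
        rw [norm_mul, norm_pow, norm_norm]
        exact mul_le_mul_of_nonneg_right (abs_le_norm f g) (by positivity)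
      refine ⟨fun f => ∑' g, f g * ‖(star u (dl 1) : HH Γ) g‖ ^ 2, ⟨?_, ?_, ?_, ?_⟩, ?_⟩
      · intro f f'
        rw [← (hs f).tsum_add (hs f')]
        refine tsum_congr fun g => ?_
        change (f g + f' g) * _ = _
        ring
      · intro a f
        rw [← tsum_mul_left]
        refine tsum_congr fun g => ?_
        change (a * f g) * _ = _
        ring
      · intro f hf
        simp only [hf, one_mul]
        rw [← h3]
        norm_num
      · intro f hf
        exact tsum_nonneg fun g => mul_nonneg (hf g) (by positivity)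
      · intro h
        exact (diagR hu' F h).tsum_eq
    · rintro y ⟨m, hm, hm'⟩ y' ⟨m', hn, hn'⟩ a b ha hb hab
      refine ⟨fun f => a * m f + b * m' f, ⟨?_, ?_, ?_, ?_⟩, ?_⟩
      · intro f f'
        rw [hm.add, hn.add]
        ring
      · intro c f
        rw [hm.smul, hn.smul]
        ring
      · intro f hf
        rw [hm.one f hf, hn.one f hf]
        linarith
      · intro f hf
        have := hm.nonneg f hf
        have := hn.nonneg f hf
        positivity
      · intro h
        change a * m (RT h F) + b * m' (RT h F) = _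
        rw [hm', hn']
        have e1 : (a • y + b • y') (dl h) = (a : ℂ) • y (dl h) + (b : ℂ) • y' (dl h) := rfl
        rw [e1, inner_add_right, inner_smul_right, inner_smul_right, Complex.add_re,
          Complex.re_ofReal_mul, Complex.re_ofReal_mul]
  exact h1 hy

/-- there is a mean `m` on `ℓ^∞(Γ)` such that `m f' = m f` whenever `f` is invariant under the
right translations by the elements of `S` and `f'` is a right translate of `f` -/
def RelMean (S : Subgroup Γ) : Prop :=
  ∃ m : LI Γ → ℝ, IsMean m ∧ ∀ (h : Γ) (f f' : LI Γ), (∀ g, ∀ k ∈ S, f (g * k) = f g) →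
    (∀ g, f' g = f (g * h)) → m f' = m f

lemma relMean_iff (S : Subgroup Γ) :
    RelMean S ↔ ∃ m : LI Γ → ℝ, IsMean m ∧ ∀ f ∈ RI S, ∀ h, m (RT h f) = m f := by
  constructor
  · rintro ⟨m, hm, hm'⟩
    exact ⟨m, hm, fun f hf h => hm' h f (RT h f) hf fun g => rfl⟩
  · rintro ⟨m, hm, hm'⟩
    refine ⟨m, hm, fun h f f' hf hf' => ?_⟩
    rw [← hm' f hf h]
    congr 1
    ext g
    exact hf' g

theorem relMean_of_WRDP (S : Subgroup Γ) (H : WRDP (NN (⊤ : Subgroup Γ)) (NN S)) :
    RelMean S := by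
  rw [relMean_iff]
  refine mitchell (RI S) ?_ ?_
  · intro m hm f hf h k hk
    rw [TT_apply, TT_apply]
    congr 1
    ext g
    change f (g * (h * k)) = f (g * h)
    rw [← mul_assoc, hf _ k hk]
  · intro f hf
    obtain ⟨c, hc⟩ := H (MR f) (MR_mem S f hf)
    refine ⟨c.re, fun F ε hε => ?_⟩
    obtain ⟨y, hy, hy'⟩ := hc F.card (fun i => dl (F.equivFin.symm i : Γ))
      (fun i => dl (F.equivFin.symm i : Γ)) ε hε
    obtain ⟨m, hm, hm'⟩ := hull_mean f hy
    refine ⟨m, hm, fun h hh => ?_⟩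
    have h1 := hy' (F.equivFin ⟨h, hh⟩)
    simp only [Equiv.symm_apply_apply] at h1
    have h2 : ⟪dl h, (y - c • (1 : HH Γ →L[ℂ] HH Γ)) (dl h)⟫_ℂ = ⟪dl h, y (dl h)⟫_ℂ - c := by
      have h6 : (y - c • (1 : HH Γ →L[ℂ] HH Γ)) (dl h) = y (dl h) - c • dl h := rfl
      rw [h6, inner_sub_right, inner_smul_right, dl_inner h (dl h), dl_self, mul_one]
    rw [h2] at h1
    rw [hm']
    have h3 := Complex.abs_re_le_norm (⟪dl h, y (dl h)⟫_ℂ - c)
    rw [Complex.sub_re] at h3
    exact h3.trans h1.le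

end Pool.Agent.Y671.WD
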