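import Mathlib
import Pool.Agent.H451R3.WRD
import Pool.Agent.Y671.WD.Mean

/-!
Averaging an operator commuting with the right translations by `S` over conjugations by elements
of `S`: the diagonal is in the weak closure of the convex hull.
-/

set_option autoImplicit false
open scoped InnerProductSpace ENNReal
open Finset Pool.Agent.H451R3.WRD

namespace Pool.Agent.Y671.WD

variable {Γ : Type}

lemma norm_UU (σ : Equiv.Perm Γ) (f : HH Γ) : ‖UU σ f‖ = ‖f‖ := by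
  have h1 : ‖UU σ f‖ ^ 2 = ‖f‖ ^ 2 := by
    rw [norm_sq_eq, norm_sq_eq]
    exact Equiv.tsum_eq σ (fun g => ‖f g‖ ^ 2)
  exact (pow_left_inj₀ (norm_nonneg _) (norm_nonneg _) (by norm_num)).1 h1

lemma norm_dl (g : Γ) : ‖(dl g : HH Γ)‖ = 1 := by
  classical
  unfold dl
  rw [lp.norm_single (by norm_num), norm_one]

lemma norm_coord_le (f : HH Γ) (g : Γ) : ‖f g‖ ≤ ‖f‖ :=
  lp.norm_apply_le_norm (by norm_num) f g

variable [Group Γ]

/-- conjugation by a left translation -/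
noncomputable def Ad (k : Γ) (x : HH Γ →L[ℂ] HH Γ) : HH Γ →L[ℂ] HH Γ :=
  UU (Equiv.mulLeft k) * x * UU (Equiv.mulLeft k⁻¹)

lemma star_left (k : Γ) : star (UU (Equiv.mulLeft k) : HH Γ →L[ℂ] HH Γ) = UU (Equiv.mulLeft k⁻¹) := by
  rw [star_UU, Equiv.inv_mulLeft]

lemma left_mul_left (k l : Γ) :
    (UU (Equiv.mulLeft k) : HH Γ →L[ℂ] HH Γ) * UU (Equiv.mulLeft l) = UU (Equiv.mulLeft (l * k)) := by
  rw [UU_mul]
  congr 1
  ext x
  simp [mul_assoc]

lemma UU_left_one : (UU (Equiv.mulLeft (1 : Γ)) : HH Γ →L[ℂ] HH Γ) = 1 := by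
  ext f g
  simp

lemma left_unitary (k : Γ) : (UU (Equiv.mulLeft k) : HH Γ →L[ℂ] HH Γ) ∈ unitary (HH Γ →L[ℂ] HH Γ) := by
  rw [Unitary.mem_iff, star_left, left_mul_left, left_mul_left, mul_inv_cancel, inv_mul_cancel]
  exact ⟨UU_left_one, UU_left_one⟩

lemma Ad_Ad (k l : Γ) (x : HH Γ →L[ℂ] HH Γ) : Ad k (Ad l x) = Ad (l * k) x := by
  unfold Ad
  rw [mul_inv_rev, ← left_mul_left, ← left_mul_left]
  simp only [mul_assoc]

lemma Ad_add (k : Γ) (x y : HH Γ →L[ℂ] HH Γ) : Ad k (x + y) = Ad k x + Ad k y := by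
  unfold Ad
  rw [mul_add, add_mul]

lemma Ad_smul (k : Γ) (a : ℝ) (x : HH Γ →L[ℂ] HH Γ) : Ad k (a • x) = a • Ad k x := by
  unfold Ad
  rw [mul_smul_comm, smul_mul_assoc]

lemma Ad_mem (S : Subgroup Γ) (k : Γ) {x : HH Γ →L[ℂ] HH Γ} (hx : x ∈ NN S) : Ad k x ∈ NN S :=
  mul_mem (mul_mem (left_mem S k) hx) (left_mem S k⁻¹)

lemma Ad_dl (k h : Γ) (x : HH Γ →L[ℂ] HH Γ) :
    Ad k x (dl h) = UU (Equiv.mulLeft k) (x (dl (k * h))) := by
  unfold Ad
  rw [mul_apply_eq_comp, mul_apply_eq_comp, UU_dl]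
  congr 3
  simp

lemma norm_Ad_le (k : Γ) (x : HH Γ →L[ℂ] HH Γ) : ‖Ad k x‖ ≤ ‖x‖ := by
  refine ContinuousLinearMap.opNorm_le_bound _ (norm_nonneg _) fun f => ?_
  unfold Ad
  rw [mul_apply_eq_comp, mul_apply_eq_comp, norm_UU]
  refine (x.le_opNorm _).trans ?_
  rw [norm_UU]

/-- the orbit of `x` under conjugation by the elements of a set -/
def orb (T : Set Γ) (x : HH Γ →L[ℂ] HH Γ) : Set (HH Γ →L[ℂ] HH Γ) := {y | ∃ k ∈ T, y = Ad k x}

lemma Ad_hull (T : Set Γ) (x : HH Γ →L[ℂ] HH Γ) (k : Γ) (hT : ∀ l ∈ T, l * k ∈ T)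
    {y : HH Γ →L[ℂ] HH Γ} (hy : y ∈ convexHull ℝ (orb T x)) : Ad k y ∈ convexHull ℝ (orb T x) := by
  have h1 : convexHull ℝ (orb T x) ⊆ {y | Ad k y ∈ convexHull ℝ (orb T x)} := by
    apply convexHull_min
    · rintro _ ⟨l, hl, rfl⟩
      change Ad k (Ad l x) ∈ convexHull ℝ (orb T x)
      rw [Ad_Ad]
      exact subset_convexHull ℝ _ ⟨_, hT l hl, rfl⟩
    · intro y hy y' hy' a b ha hb hab
      change Ad k (a • y + b • y') ∈ convexHull ℝ (orb T x)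
      rw [Ad_add, Ad_smul, Ad_smul]
      exact convex_convexHull ℝ _ hy hy' ha hb hab
  exact h1 hy

lemma hull_mem (S : Subgroup Γ) (T : Set Γ) {x : HH Γ →L[ℂ] HH Γ} (hx : x ∈ NN S)
    {y : HH Γ →L[ℂ] HH Γ} (hy : y ∈ convexHull ℝ (orb T x)) : y ∈ NN S := by
  have h1 : convexHull ℝ (orb T x) ⊆ {y | y ∈ NN S} := by
    apply convexHull_min
    · rintro _ ⟨l, hl, rfl⟩
      exact Ad_mem S l hx
    · intro y hy y' hy' a b ha hb hab
      change a • y + b • y' ∈ NN S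
      have e1 : a • y + b • y' = (a : ℂ) • y + (b : ℂ) • y' := rfl
      rw [e1]
      exact add_mem ((NN S).toStarSubalgebra.smul_mem hy _) ((NN S).toStarSubalgebra.smul_mem hy' _)
  exact h1 hy

/-- the elements `k` of `S` with `h⁻¹kh ∈ S` for `h ∈ F` -/
def SF (S : Subgroup Γ) (F : Finset Γ) : Subgroup Γ where
  carrier := {k | k ∈ S ∧ ∀ h ∈ F, h⁻¹ * k * h ∈ S}
  one_mem' := ⟨S.one_mem, fun h _ => by simpa using S.one_mem⟩
  mul_mem' {a b} ha hb := ⟨S.mul_mem ha.1 hb.1, fun h hh => by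
    have := S.mul_mem (ha.2 h hh) (hb.2 h hh)
    convert this using 1
    group⟩
  inv_mem' {a} ha := ⟨S.inv_mem ha.1, fun h hh => by
    have := S.inv_mem (ha.2 h hh)
    convert this using 1
    group⟩

lemma icc_SF (S : Subgroup Γ) (F : Finset Γ)
    (hicc : ∀ g : Γ, g ≠ 1 → {h | ∃ k ∈ S, h = k * g * k⁻¹}.Infinite)
    (hcomm : ∀ h : Γ, ((fun k : Γ => (QuotientGroup.mk (k * h) : Γ ⧸ S)) '' (S : Set Γ)).Finite) :
    ∀ g : Γ, g ≠ 1 → {h | ∃ k ∈ SF S F, h = k * g * k⁻¹}.Infinite := by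
  classical
  intro g hg hfin
  apply hicc g hg
  set φ : Γ → (F → Γ ⧸ S) := fun k h => QuotientGroup.mk (k * h) with hφ
  have h1 : (φ '' (S : Set Γ)).Finite := by
    have h2 : (Set.pi Set.univ fun h : F =>
        ((fun k : Γ => (QuotientGroup.mk (k * (h : Γ)) : Γ ⧸ S)) '' (S : Set Γ))).Finite :=
      Set.Finite.pi fun h : F => hcomm (h : Γ)
    refine h2.subset ?_
    rintro _ ⟨k, hk, rfl⟩ h _
    exact ⟨k, hk, rfl⟩
  have h3 : (⋃ r ∈ φ '' (S : Set Γ), {h | ∃ k ∈ S, φ k = r ∧ h = k * g * k⁻¹}).Finite := by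
    refine h1.biUnion ?_
    rintro _ ⟨k₀, hk₀, rfl⟩
    refine (hfin.image fun z => k₀ * z * k₀⁻¹).subset ?_
    rintro _ ⟨k, hk, hkk, rfl⟩
    refine ⟨(k₀⁻¹ * k) * g * (k₀⁻¹ * k)⁻¹, ⟨k₀⁻¹ * k, ⟨S.mul_mem (S.inv_mem hk₀) hk, ?_⟩, rfl⟩, by
      simp only
      group⟩
    intro h hh
    have h4 := congrFun hkk ⟨h, hh⟩
    simp only [hφ] at h4
    have h5 := QuotientGroup.eq.1 h4.symm
    convert h5 using 1
    group
  refine h3.subset ?_
  rintro _ ⟨k, hk, rfl⟩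
  simp only [Set.mem_iUnion]
  exact ⟨φ k, ⟨k, hk, rfl⟩, k, hk, rfl, rfl⟩

/-- the permutation `z ↦ k z h⁻¹ k⁻¹ h` -/
def pk (k h : Γ) : Equiv.Perm Γ := Equiv.mulRight (h⁻¹ * k⁻¹ * h) * Equiv.mulLeft k

lemma pk_apply (k h z : Γ) : pk k h z = k * z * (h⁻¹ * k⁻¹ * h) := rfl

lemma Ad_dl' (S : Subgroup Γ) {y : HH Γ →L[ℂ] HH Γ} (hy : y ∈ NN S) {k h : Γ}
    (hk : h⁻¹ * k * h ∈ S) : Ad k y (dl h) = UU (pk k h) (y (dl h)) := by
  rw [Ad_dl]
  have h1 : (dl (k * h) : HH Γ) = UU (Equiv.mulRight (h⁻¹ * k⁻¹ * h)) (dl h) := by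
    rw [UU_dl]
    congr 1
    simp [mul_assoc]
  have h2 : h⁻¹ * k⁻¹ * h ∈ S := by
    have := S.inv_mem hk
    convert this using 1
    group
  have h3 := congrArg (fun T : HH Γ →L[ℂ] HH Γ => T (dl h)) ((mem_NN.1 hy) _ h2)
  simp only [mul_apply_eq_comp] at h3
  rw [h1, ← h3]
  rfl

/-- the Hilbert space `⊕_{h ∈ F} ℓ²(Γ)` -/
abbrev HF (F : Finset Γ) := PiLp 2 (fun _ : F => HH Γ)

/-- the columns of an operator -/
noncomputable def VF (F : Finset Γ) : (HH Γ →L[ℂ] HH Γ) →ₗ[ℝ] HF F where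
  toFun y := WithLp.toLp 2 fun h => y (dl (h : Γ))
  map_add' _ _ := rfl
  map_smul' _ _ := rfl

/-- the action on the columns -/
noncomputable def UF (F : Finset Γ) (k : Γ) : HF F →ₗᵢ[ℝ] HF F where
  toFun w := WithLp.toLp 2 fun h => UU (pk k h) (w h)
  map_add' v w := by
    ext h g
    rfl
  map_smul' a w := by
    ext h g
    rfl
  norm_map' w := by
    have h1 : ‖(WithLp.toLp 2 fun h => UU (pk k h) (w h) : HF F)‖ = ‖w‖ := by
      rw [PiLp.norm_eq_of_L2, PiLp.norm_eq_of_L2]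
      congr 1
      refine sum_congr rfl fun h _ => ?_
      have : ‖UU (pk k h) (w h)‖ = ‖w h‖ := norm_UU _ _
      rw [← this]
    exact h1

theorem stepA (S : Subgroup Γ)
    (hicc : ∀ g : Γ, g ≠ 1 → {h | ∃ k ∈ S, h = k * g * k⁻¹}.Infinite)
    (hcomm : ∀ h : Γ, ((fun k : Γ => (QuotientGroup.mk (k * h) : Γ ⧸ S)) '' (S : Set Γ)).Finite)
    {x : HH Γ →L[ℂ] HH Γ} (hx : x ∈ NN S) (F : Finset Γ) (ε : ℝ) (hε : 0 < ε) :
    ∃ A ∈ convexHull ℝ (orb Set.univ x), ∀ h ∈ F, ‖A (dl h) - ((x (dl h) : HH Γ) h) • dl h‖ < ε := by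
  classical
  set T : Set Γ := (SF S F : Set Γ) with hT
  have hTS : ∀ k ∈ T, ∀ h ∈ F, h⁻¹ * k * h ∈ S := fun k hk h hh => hk.2 h hh
  set co := convexHull ℝ (orb T x) with hco
  set C : Set (HF F) := closure (VF F '' co) with hC
  have hne : C.Nonempty := by
    refine ⟨VF F (Ad 1 x), subset_closure ⟨_, subset_convexHull ℝ _ ⟨1, ?_, rfl⟩, rfl⟩⟩
    exact (SF S F).one_mem
  have hconv : Convex ℝ C := ((convex_convexHull ℝ _).linear_image (VF F)).closure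
  have hcomp : IsComplete C := isClosed_closure.isComplete
  obtain ⟨w, hw, hw'⟩ := exists_norm_eq_iInf_of_complete_convex hne hcomp hconv 0
  have hmin := (norm_eq_iInf_iff_real_inner_le_zero hconv hw).1 hw'
  have hUV : ∀ k ∈ T, ∀ y ∈ co, UF F k (VF F y) = VF F (Ad k y) := by
    intro k hk y hy
    have hyS := hull_mem S T hx hy
    ext h g
    change (UU (pk k h) (y (dl (h : Γ))) : HH Γ) g = (Ad k y (dl (h : Γ)) : HH Γ) g
    rw [Ad_dl' S hyS (hTS k hk h h.2)]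
  have hmaps : ∀ k ∈ T, ∀ v ∈ C, UF F k v ∈ C := by
    intro k hk
    have h1 : Set.MapsTo (UF F k) (VF F '' co) (VF F '' co) := by
      rintro _ ⟨y, hy, rfl⟩
      rw [hUV k hk y hy]
      exact ⟨_, Ad_hull T x k (fun l hl => (SF S F).mul_mem hl hk) hy, rfl⟩
    exact fun v hv => h1.closure (UF F k).continuous hv
  have hinv : ∀ k ∈ T, UF F k w = w := by
    intro k hk
    have h1 := hmin _ (hmaps k hk w hw)
    have h2 : ‖UF F k w‖ = ‖w‖ := (UF F k).norm_map w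
    have h3 : ‖UF F k w - w‖ ^ 2 ≤ 0 := by
      have h4 : ‖UF F k w - w‖ ^ 2 = ‖UF F k w‖ ^ 2 - 2 * ⟪UF F k w, w⟫_ℝ + ‖w‖ ^ 2 :=
        norm_sub_sq_real _ _
      have h5 : ⟪(0 : HF F) - w, UF F k w - w⟫_ℝ = ‖w‖ ^ 2 - ⟪UF F k w, w⟫_ℝ := by
        rw [zero_sub, inner_neg_left, inner_sub_right, real_inner_self_eq_norm_sq,
          real_inner_comm]
        ring
      rw [h5] at h1
      rw [h4, h2]
      linarith
    have h6 : ‖UF F k w - w‖ = 0 := by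
      have := norm_nonneg (UF F k w - w)
      nlinarith
    exact sub_eq_zero.1 (norm_eq_zero.1 h6)
  have hcoord : ∀ h : F, (w h : HH Γ) (h : Γ) = (x (dl (h : Γ)) : HH Γ) (h : Γ) := by
    intro h
    have h1 : C ⊆ {v : HF F | (v h : HH Γ) (h : Γ) = (x (dl (h : Γ)) : HH Γ) (h : Γ)} := by
      apply closure_minimal
      · rintro _ ⟨y, hy, rfl⟩
        change (y (dl (h : Γ)) : HH Γ) (h : Γ) = (x (dl (h : Γ)) : HH Γ) (h : Γ)
        have h2 : co ⊆ {y | (y (dl (h : Γ)) : HH Γ) (h : Γ) = (x (dl (h : Γ)) : HH Γ) (h : Γ)} := by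
          apply convexHull_min
          · rintro _ ⟨k, hk, rfl⟩
            change (Ad k x (dl (h : Γ)) : HH Γ) (h : Γ) = _
            rw [Ad_dl' S hx (hTS k hk h h.2), UU_apply, pk_apply]
            congr 1
            group
          · intro y hy y' hy' a b ha hb hab
            simp only [Set.mem_ofPred_eq] at hy hy' ⊢
            change a • (y (dl (h : Γ)) : HH Γ) (h : Γ) + b • (y' (dl (h : Γ)) : HH Γ) (h : Γ) = _
            rw [hy, hy', ← add_smul, hab, one_smul]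
        exact h2 hy
      · refine isClosed_eq ?_ continuous_const
        have h2 : Continuous fun v : HF F => ⟪(dl (h : Γ) : HH Γ), v h⟫_ℂ :=
          continuous_const.inner (PiLp.continuous_apply 2 _ h)
        simpa only [dl_inner] using h2
    exact h1 hw
  have hzero : ∀ h : F, ∀ z : Γ, z ≠ h → (w h : HH Γ) z = 0 := by
    intro h z hz
    by_contra hne
    have h1 := (summable_sq (w h)).tendsto_cofinite_zero
    have h2 : (0 : ℝ) < ‖(w h : HH Γ) z‖ ^ 2 := by positivity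
    have h3 := h1.eventually (gt_mem_nhds h2)
    rw [Filter.eventually_cofinite] at h3
    have hz1 : z * (h : Γ)⁻¹ ≠ 1 := by
      intro h4
      exact hz (mul_inv_eq_one.1 h4)
    apply icc_SF S F hicc hcomm _ hz1
    have h5 := h3.image (fun t => t * (h : Γ)⁻¹)
    refine h5.subset ?_
    rintro _ ⟨k, hk, rfl⟩
    refine ⟨k * (z * (h : Γ)⁻¹) * k⁻¹ * h, ?_, by simp [mul_assoc]⟩
    simp only [Set.mem_ofPred_eq]
    have h6 := congrArg (fun v : HF F => (v h : HH Γ) z) (hinv k hk)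
    change (w h : HH Γ) (pk k h z) = (w h : HH Γ) z at h6
    rw [pk_apply] at h6
    have h7 : k * (z * (h : Γ)⁻¹) * k⁻¹ * h = k * z * ((h : Γ)⁻¹ * k⁻¹ * h) := by group
    rw [h7, h6]
    exact lt_irrefl _
  have hwdl : ∀ h : F, w h = ((x (dl (h : Γ)) : HH Γ) (h : Γ)) • (dl (h : Γ) : HH Γ) := by
    intro h
    ext z
    change (w h : HH Γ) z = (x (dl (h : Γ)) : HH Γ) (h : Γ) * (dl (h : Γ) : HH Γ) z
    rw [dl_apply]
    split_ifs with h1
    · rw [h1, mul_one, hcoord]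
    · rw [mul_zero, hzero h z h1]
  obtain ⟨_, ⟨A, hA, rfl⟩, hAw⟩ := Metric.mem_closure_iff.1 hw ε hε
  refine ⟨A, convexHull_mono ?_ hA, fun h hh => ?_⟩
  · rintro _ ⟨k, _, rfl⟩
    exact ⟨k, Set.mem_univ _, rfl⟩
  · have h1 : ‖(VF F A - w) ⟨h, hh⟩‖ ≤ ‖VF F A - w‖ := PiLp.norm_apply_le _ _
    rw [dist_comm, dist_eq_norm] at hAw
    have h2 : (VF F A - w) ⟨h, hh⟩ = A (dl h) - ((x (dl h) : HH Γ) h) • dl h := by
      rw [← hwdl ⟨h, hh⟩]
      rfl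
    rw [← h2]
    exact h1.trans_lt hAw

end Pool.Agent.Y671.WD
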