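import Mathlib
import Pool.Agent.Y671.WD.Diag
import Pool.Agent.Y671.WD.Erg

/-!
For a relatively icc subgroup `S` whose double cosets are finite unions of left cosets, a relatively
invariant mean yields the weak relative Dixmier property.
-/

set_option autoImplicit false
open scoped InnerProductSpace ENNReal
open Finset Pool.Agent.H451R3.WRD

namespace Pool.Agent.Y671.WD

variable {Γ : Type}

/-- on bounded sets, smallness on finitely many unit vectors gives weak smallness -/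
lemma wot_small (ξ η : HH Γ) (ε B : ℝ) (hε : 0 < ε) (hB : 0 ≤ B) :
    ∃ F : Finset Γ, ∃ δ : ℝ, 0 < δ ∧ ∀ T : HH Γ →L[ℂ] HH Γ, ‖T‖ ≤ B →
      (∀ h ∈ F, ‖T (dl h)‖ ≤ δ) → ‖⟪η, T ξ⟫_ℂ‖ < ε := by
  classical
  have h1 := (lp.hasSum_single (p := 2) (by norm_num) ξ)
  set ρ := ε / (2 * (1 + ‖η‖) * (1 + B)) with hρ
  have hρ0 : 0 < ρ := by positivity
  obtain ⟨F, hF⟩ := (Metric.tendsto_atTop.1 h1 ρ hρ0)
  have hF' := hF F le_rfl
  rw [dist_comm, dist_eq_norm] at hF'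
  have h4 : ∀ g, lp.single 2 g (ξ g) = ξ g • dl g := by
    intro g
    unfold dl
    rw [← lp.single_smul, smul_eq_mul, mul_one]
  simp only [h4] at hF'
  refine ⟨F, ε / (2 * (1 + ‖η‖) * (1 + F.card * ‖ξ‖)), by positivity, fun T hT hT' => ?_⟩
  have e1 : T ξ = T (ξ - ∑ g ∈ F, ξ g • dl g) + ∑ g ∈ F, ξ g • T (dl g) := by
    rw [map_sub, map_sum]
    simp only [map_smul]
    abel
  have h5 : ‖T ξ‖ ≤ B * ρ + (F.card * ‖ξ‖) * (ε / (2 * (1 + ‖η‖) * (1 + F.card * ‖ξ‖))) := by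
    rw [e1]
    refine (norm_add_le _ _).trans (add_le_add ?_ ?_)
    · exact (T.le_opNorm _).trans (mul_le_mul hT hF'.le (norm_nonneg _) hB)
    · refine (norm_sum_le _ _).trans ?_
      have h6 : ∀ g ∈ F, ‖ξ g • T (dl g)‖ ≤ ‖ξ‖ * (ε / (2 * (1 + ‖η‖) * (1 + F.card * ‖ξ‖))) := by
        intro g hg
        rw [norm_smul]
        exact mul_le_mul (norm_coord_le ξ g) (hT' g hg) (norm_nonneg _) (norm_nonneg _)
      refine (sum_le_sum h6).trans_eq ?_
      rw [sum_const, nsmul_eq_mul]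
      ring
  have h7 : B * ρ < ε / (2 * (1 + ‖η‖)) := by
    rw [hρ, ← div_div, mul_div_assoc', div_lt_iff₀ (by positivity)]
    have : 0 < ε / (2 * (1 + ‖η‖)) := by positivity
    nlinarith
  have h8 : (F.card * ‖ξ‖) * (ε / (2 * (1 + ‖η‖) * (1 + F.card * ‖ξ‖))) ≤ ε / (2 * (1 + ‖η‖)) := by
    rw [← div_div, mul_div_assoc', div_le_iff₀ (by positivity)]
    have : 0 < ε / (2 * (1 + ‖η‖)) := by positivity
    nlinarith
  have h9 : ‖T ξ‖ < ε / (1 + ‖η‖) := by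
    have : ε / (1 + ‖η‖) = ε / (2 * (1 + ‖η‖)) + ε / (2 * (1 + ‖η‖)) := by
      field_simp
      ring
    linarith
  calc ‖⟪η, T ξ⟫_ℂ‖ ≤ ‖η‖ * ‖T ξ‖ := norm_inner_le_norm _ _
    _ ≤ (1 + ‖η‖) * ‖T ξ‖ := mul_le_mul_of_nonneg_right (by linarith) (norm_nonneg _)
    _ < (1 + ‖η‖) * (ε / (1 + ‖η‖)) := mul_lt_mul_of_pos_left h9 (by positivity)
    _ = ε := by field_simp

lemma wot_small_fin (n : ℕ) (ξ η : Fin n → HH Γ) (ε B : ℝ) (hε : 0 < ε) (hB : 0 ≤ B) :
    ∃ F : Finset Γ, ∃ δ : ℝ, 0 < δ ∧ ∀ T : HH Γ →L[ℂ] HH Γ, ‖T‖ ≤ B →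
      (∀ h ∈ F, ‖T (dl h)‖ ≤ δ) → ∀ i, ‖⟪η i, T (ξ i)⟫_ℂ‖ < ε := by
  classical
  choose F δ hδ H using fun i => wot_small (ξ i) (η i) ε B hε hB
  refine ⟨univ.biUnion F, (1 + ∑ i, (δ i)⁻¹)⁻¹, ?_, ?_⟩
  · have : 0 ≤ ∑ i, (δ i)⁻¹ := sum_nonneg fun i _ => (inv_pos.2 (hδ i)).le
    positivity
  · intro T hT hT' i
    refine H i T hT fun h hh => (hT' h (mem_biUnion.2 ⟨i, mem_univ i, hh⟩)).trans ?_
    have h1 : (δ i)⁻¹ ≤ ∑ i, (δ i)⁻¹ :=
      single_le_sum (f := fun i => (δ i)⁻¹) (fun i _ => (inv_pos.2 (hδ i)).le) (mem_univ i)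
    have h2 : (δ i)⁻¹ ≤ 1 + ∑ i, (δ i)⁻¹ := by linarith
    have h3 := inv_anti₀ (inv_pos.2 (hδ i)) h2
    rwa [inv_inv] at h3

variable [Group Γ]

lemma norm_hull_le (T : Set Γ) (x : HH Γ →L[ℂ] HH Γ)
    {y : HH Γ →L[ℂ] HH Γ} (hy : y ∈ convexHull ℝ (orb T x)) : ‖y‖ ≤ ‖x‖ := by
  have h1 : convexHull ℝ (orb T x) ⊆ Metric.closedBall 0 ‖x‖ := by
    apply convexHull_min
    · rintro _ ⟨k, hk, rfl⟩
      rw [mem_closedBall_zero_iff]
      exact norm_Ad_le k x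
    · exact convex_closedBall _ _
  have := h1 hy
  rwa [mem_closedBall_zero_iff] at this

lemma hull_cj (x : HH Γ →L[ℂ] HH Γ) :
    convexHull ℝ (orb Set.univ x) ⊆ convexHull ℝ (cj (NN (⊤ : Subgroup Γ)) x) := by
  apply convexHull_mono
  rintro _ ⟨k, _, rfl⟩
  refine ⟨UU (Equiv.mulLeft k), left_unitary k, left_mem ⊤ k, ?_⟩
  rw [star_left]
  rfl

theorem WRDP_of_relMean (S : Subgroup Γ)
    (hicc : ∀ g : Γ, g ≠ 1 → {h | ∃ k ∈ S, h = k * g * k⁻¹}.Infinite)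
    (hcomm : ∀ h : Γ, ((fun k : Γ => (QuotientGroup.mk (k * h) : Γ ⧸ S)) '' (S : Set Γ)).Finite)
    (hS : RelMean S) : WRDP (NN (⊤ : Subgroup Γ)) (NN S) := by
  classical
  rw [relMean_iff] at hS
  obtain ⟨m, hm, hinv⟩ := hS
  intro x hx
  set d : Γ → ℂ := fun h => (x (dl h) : HH Γ) h with hd
  have hdb : ∀ h, ‖d h‖ ≤ ‖x‖ := by
    intro h
    refine (norm_coord_le _ _).trans ((x.le_opNorm _).trans ?_)
    rw [norm_dl, mul_one]
  have hdS : ∀ h, ∀ k ∈ S, d (h * k) = d h := by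
    intro h k hk
    have h1 : (dl (h * k) : HH Γ) = UU (Equiv.mulRight k⁻¹) (dl h) := by
      rw [UU_dl]
      congr 1
      simp
    have h3 := congrArg (fun T : HH Γ →L[ℂ] HH Γ => T (dl h)) ((mem_NN.1 hx) _ (S.inv_mem hk))
    simp only [mul_apply_eq_comp] at h3
    simp only [hd]
    rw [h1, ← h3, UU_apply]
    simp
  set dr : LI Γ := mkB (fun h => (d h).re) ‖x‖ fun h => (Complex.abs_re_le_norm _).trans (hdb h)
    with hdr
  set di : LI Γ := mkB (fun h => (d h).im) ‖x‖ fun h => (Complex.abs_im_le_norm _).trans (hdb h)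
    with hdi
  have hdrS : dr ∈ RI S := by
    intro g k hk
    change (d (g * k)).re = (d g).re
    rw [hdS g k hk]
  have hdiS : di ∈ RI S := by
    intro g k hk
    change (d (g * k)).im = (d g).im
    rw [hdS g k hk]
  set c : ℂ := ⟨m dr, m di⟩ with hc
  refine ⟨c, fun n ξ η ε hε => ?_⟩
  obtain ⟨F, δ, hδ, H⟩ := wot_small_fin n ξ η ε (‖x‖ + ‖c‖) hε (by positivity)
  -- the mean
  have h1 := mem_closure_of_mean (fun i : F × Fin 2 => if i.2 = 0 then RT (i.1 : Γ) dr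
    else RT (i.1 : Γ) di) hm
  obtain ⟨z, hz, hz'⟩ := Metric.mem_closure_iff.1 h1 (δ / 4) (by positivity)
  rw [_root_.convexHull_eq] at hz
  obtain ⟨κ, t, w, p, hw0, hw1, hp, hcm⟩ := hz
  rw [Finset.centerMass_eq_of_sum_1 _ _ hw1] at hcm
  have hp' : ∀ j : κ, ∃ g : Γ, j ∈ t → (fun i : F × Fin 2 => (if i.2 = 0 then RT (i.1 : Γ) dr
    else RT (i.1 : Γ) di : LI Γ) g) = p j := by
    intro j
    by_cases hj : j ∈ t
    · obtain ⟨g, hg⟩ := hp j hj
      exact ⟨g, fun _ => hg⟩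
    · exact ⟨1, fun h => absurd h hj⟩
  choose g hg using hp'
  have hre : ∀ h ∈ F, |(∑ j ∈ t, w j * (d (g j * h)).re) - m dr| < δ / 4 := by
    intro h hh
    have h2 := (dist_pi_lt_iff (by positivity)).1 hz' (⟨h, hh⟩, 0)
    rw [Real.dist_eq, abs_sub_comm] at h2
    convert h2 using 3
    · rw [← hcm, Finset.sum_apply]
      refine sum_congr rfl fun j hj => ?_
      rw [Pi.smul_apply, ← hg j hj]
      rfl
    · exact (hinv dr hdrS h).symm
  have him : ∀ h ∈ F, |(∑ j ∈ t, w j * (d (g j * h)).im) - m di| < δ / 4 := by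
    intro h hh
    have h2 := (dist_pi_lt_iff (by positivity)).1 hz' (⟨h, hh⟩, 1)
    rw [Real.dist_eq, abs_sub_comm] at h2
    convert h2 using 3
    · rw [← hcm, Finset.sum_apply]
      refine sum_congr rfl fun j hj => ?_
      rw [Pi.smul_apply, ← hg j hj]
      rfl
    · exact (hinv di hdiS h).symm
  -- the averaging
  obtain ⟨A, hA, hA'⟩ := stepA S hicc hcomm hx ((t ×ˢ F).image fun q => g q.1 * q.2) (δ / 2)
    (by positivity)
  set y := ∑ j ∈ t, w j • Ad (g j) A with hy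
  have hyco : y ∈ convexHull ℝ (orb Set.univ x) :=
    (convex_convexHull ℝ _).sum_mem hw0 hw1 fun j _ =>
      Ad_hull Set.univ x (g j) (fun _ _ => Set.mem_univ _) hA
  refine ⟨y, hull_cj x hyco, H _ ?_ ?_⟩
  · refine (norm_sub_le _ _).trans (add_le_add (norm_hull_le _ x hyco) ?_)
    refine ContinuousLinearMap.opNorm_le_bound _ (norm_nonneg _) fun f => ?_
    change ‖c • f‖ ≤ _
    rw [norm_smul]
  · intro h hh
    have e1 : (y - c • (1 : HH Γ →L[ℂ] HH Γ)) (dl h) =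
        ∑ j ∈ t, w j • UU (Equiv.mulLeft (g j)) (A (dl (g j * h)) - d (g j * h) • dl (g j * h)) +
        ((∑ j ∈ t, (w j : ℂ) * d (g j * h)) - c) • dl h := by
      have e2 : (y - c • (1 : HH Γ →L[ℂ] HH Γ)) (dl h) = y (dl h) - c • dl h := rfl
      have e3 : y (dl h) = ∑ j ∈ t, w j • Ad (g j) A (dl h) := by
        rw [hy, ContinuousLinearMap.sum_apply]
        rfl
      have e4 : ∀ j ∈ t, w j • UU (Equiv.mulLeft (g j)) (A (dl (g j * h)) -
          d (g j * h) • dl (g j * h)) = w j • Ad (g j) A (dl h) - ((w j : ℂ) * d (g j * h)) • dl h := by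
        intro j _
        rw [map_sub, map_smul, ← Ad_dl, UU_dl, smul_sub]
        congr 1
        have e5 : (Equiv.mulLeft (g j))⁻¹ (g j * h) = h := by simp
        rw [e5]
        exact (mul_smul (w j : ℂ) (d (g j * h)) (dl h)).symm
      rw [sum_congr rfl e4, sum_sub_distrib, ← sum_smul, e2, e3, sub_smul]
      abel
    rw [e1]
    have h3 : ‖∑ j ∈ t, w j • UU (Equiv.mulLeft (g j)) (A (dl (g j * h)) -
        d (g j * h) • dl (g j * h))‖ ≤ δ / 2 := by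
      refine (norm_sum_le _ _).trans ?_
      have h4 : ∀ j ∈ t, ‖w j • UU (Equiv.mulLeft (g j)) (A (dl (g j * h)) -
          d (g j * h) • dl (g j * h))‖ ≤ w j * (δ / 2) := by
        intro j hj
        rw [norm_smul, norm_UU, Real.norm_eq_abs, abs_of_nonneg (hw0 j hj)]
        refine mul_le_mul_of_nonneg_left ?_ (hw0 j hj)
        exact (hA' _ (mem_image.2 ⟨(j, h), mem_product.2 ⟨hj, hh⟩, rfl⟩)).le
      refine (sum_le_sum h4).trans_eq ?_
      rw [← sum_mul, hw1, one_mul]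
    have h5 : ‖((∑ j ∈ t, (w j : ℂ) * d (g j * h)) - c) • (dl h : HH Γ)‖ ≤ δ / 2 := by
      rw [norm_smul, norm_dl, mul_one]
      refine (Complex.norm_le_abs_re_add_abs_im _).trans ?_
      have h6 := (hre h hh).le
      have h7 := (him h hh).le
      have e6 : ((∑ j ∈ t, (w j : ℂ) * d (g j * h)) - c).re =
          (∑ j ∈ t, w j * (d (g j * h)).re) - m dr := by
        rw [Complex.sub_re, Complex.re_sum]
        congr 1
        exact sum_congr rfl fun j _ => Complex.re_ofReal_mul _ _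
      have e7 : ((∑ j ∈ t, (w j : ℂ) * d (g j * h)) - c).im =
          (∑ j ∈ t, w j * (d (g j * h)).im) - m di := by
        rw [Complex.sub_im, Complex.im_sum]
        congr 1
        exact sum_congr rfl fun j _ => Complex.im_ofReal_mul _ _
      rw [e6, e7]
      linarith
    calc _ ≤ δ / 2 + δ / 2 := (norm_add_le _ _).trans (add_le_add h3 h5)
      _ = δ := by ring

end Pool.Agent.Y671.WD
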