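import Mathlib
import Pool.Agent.Y671.WD.Conv

/-!
Relatively invariant means for normal subgroups are invariant means on the quotient.
-/

set_option autoImplicit false
open scoped InnerProductSpace ENNReal
open Finset Pool.Agent.H451R3.WRD

namespace Pool.Agent.Y671.WD

/-- amenability of a group: there is a left invariant mean on `ℓ^∞(G)` -/
def Amenable (G : Type) [Group G] : Prop :=
  ∃ m : LI G → ℝ, IsMean m ∧ ∀ (h : G) (f f' : LI G), (∀ g, f' g = f (h * g)) → m f' = m f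

lemma IsMean.push {K G : Type} (φ : K → G) {m : LI K → ℝ} (hm : IsMean m) :
    IsMean (fun f : LI G => m (cp φ f)) := by
  refine ⟨fun f f' => ?_, fun a f => ?_, fun f h => ?_, fun f h => ?_⟩
  · rw [cp_add, hm.add]
  · rw [cp_smul, hm.smul]
  · exact hm.one _ fun k => h _
  · exact hm.nonneg _ fun k => h _

variable {Γ : Type} [Group Γ]

lemma irredFactors (S : Subgroup Γ) (hicc : RelIcc S) :
    IrredFactors (NN (⊤ : Subgroup Γ)) (NN S) := by
  have hNM : ∀ a ∈ NN (⊤ : Subgroup Γ), a ∈ NN S := by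
    intro a ha
    rw [mem_NN] at ha ⊢
    exact fun k _ => ha k (Subgroup.mem_top _)
  exact ⟨hNM, fun z hz hz' => trivial_commutant S hicc hz fun g => hz' _ (left_mem S g),
    fun z hz hz' => trivial_commutant S hicc (hNM z hz) fun g => hz' _ (left_mem ⊤ g),
    fun z hz hz' => trivial_commutant S hicc hz fun g => hz' _ (left_mem ⊤ g)⟩

lemma hecke_of_normal (S : Subgroup Γ) [S.Normal] : Hecke S := by
  intro h
  refine (Set.finite_singleton (QuotientGroup.mk h : Γ ⧸ S)).subset ?_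
  rintro _ ⟨k, hk, rfl⟩
  rw [Set.mem_singleton_iff]
  symm
  change (QuotientGroup.mk h : Γ ⧸ S) = QuotientGroup.mk (k * h)
  rw [QuotientGroup.eq]
  have := ‹S.Normal›.conj_mem k hk h⁻¹
  rw [inv_inv] at this
  rwa [← mul_assoc]

lemma relMean_iff_amenable (S : Subgroup Γ) [S.Normal] : RelMean S ↔ Amenable (Γ ⧸ S) := by
  rw [relMean_iff]
  constructor
  · rintro ⟨m, hm, hm'⟩
    refine ⟨_, hm.push fun γ : Γ => (QuotientGroup.mk γ⁻¹ : Γ ⧸ S), fun h f f' hf => ?_⟩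
    obtain ⟨η, rfl⟩ := QuotientGroup.mk_surjective h
    rw [← hm' (cp (fun γ : Γ => (QuotientGroup.mk γ⁻¹ : Γ ⧸ S)) f) ?_ η⁻¹]
    · congr 1
      ext γ
      change f' (QuotientGroup.mk γ⁻¹) = f (QuotientGroup.mk (γ * η⁻¹)⁻¹)
      rw [hf, mul_inv_rev, inv_inv]
      rfl
    · intro g k hk
      have e1 : (QuotientGroup.mk (g * k)⁻¹ : Γ ⧸ S) = QuotientGroup.mk g⁻¹ := by
        symm
        rw [QuotientGroup.eq, inv_inv, mul_inv_rev, ← mul_assoc]
        exact ‹S.Normal›.conj_mem _ (S.inv_mem hk) g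
      change f (QuotientGroup.mk (g * k)⁻¹) = f (QuotientGroup.mk g⁻¹)
      rw [e1]
  · rintro ⟨m, hm, hm'⟩
    refine ⟨_, hm.push fun q : Γ ⧸ S => (q⁻¹).out, fun f hf h => ?_⟩
    have hout : ∀ γ : Γ, f ((QuotientGroup.mk γ : Γ ⧸ S).out) = f γ := by
      intro γ
      obtain ⟨s, hs⟩ := QuotientGroup.mk_out_eq_mul S γ
      rw [hs]
      exact hf γ s s.2
    refine hm' (QuotientGroup.mk h⁻¹) _ _ fun q => ?_
    obtain ⟨γ, rfl⟩ := QuotientGroup.mk_surjective q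
    change f (((QuotientGroup.mk γ : Γ ⧸ S)⁻¹).out * h) =
      f ((((QuotientGroup.mk h⁻¹ : Γ ⧸ S) * QuotientGroup.mk γ)⁻¹).out)
    have e1 : ((QuotientGroup.mk h⁻¹ : Γ ⧸ S) * QuotientGroup.mk γ)⁻¹ =
        QuotientGroup.mk (γ⁻¹ * h) := by
      rw [← QuotientGroup.mk_mul, ← QuotientGroup.mk_inv, mul_inv_rev, inv_inv]
    have e2 : (QuotientGroup.mk γ : Γ ⧸ S)⁻¹ = QuotientGroup.mk γ⁻¹ := rfl
    rw [e1, hout, e2]
    obtain ⟨s, hs⟩ := QuotientGroup.mk_out_eq_mul S γ⁻¹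
    rw [hs, mul_assoc]
    have e3 : (s : Γ) * h = h * (h⁻¹ * s * h) := by group
    rw [e3, ← mul_assoc]
    have e4 : h⁻¹ * s * h ∈ S := by
      have := ‹S.Normal›.conj_mem s s.2 h⁻¹
      rwa [inv_inv] at this
    exact hf _ _ e4

/-- the main theorem -/
theorem main [Countable Γ] (S : Subgroup Γ) (hicc : RelIcc S) :
    IrredFactors (NN (⊤ : Subgroup Γ)) (NN S) ∧
    (WRDP (NN (⊤ : Subgroup Γ)) (NN S) → RelMean S) ∧
    (Hecke S → RelMean S → WRDP (NN (⊤ : Subgroup Γ)) (NN S)) ∧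
    ∀ [S.Normal], WRDP (NN (⊤ : Subgroup Γ)) (NN S) ↔ Amenable (Γ ⧸ S) := by
  refine ⟨irredFactors S hicc, relMean_of_WRDP S, fun h => WRDP_of_relMean S hicc h, ?_⟩
  intro _
  rw [← relMean_iff_amenable]
  exact ⟨relMean_of_WRDP S, WRDP_of_relMean S hicc (hecke_of_normal S)⟩

end Pool.Agent.Y671.WD
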