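import Mathlib
import Pool.Agent.Y671.WD.Quot

/-!
Transfer of the main theorem to an abstract Hilbert space with a basis indexed by the group.
-/

set_option autoImplicit false
open scoped InnerProductSpace ENNReal
open Finset Pool.Agent.H451R3.WRD

namespace Pool.Agent.Y671.WD

section Means

variable {G : Type}

lemma bd_coe (f : LI G) : Bd (f : G → ℝ) := ⟨‖f‖, abs_le_norm f⟩

open Classical in
/-- a bounded function as an element of `ℓ^∞`, zero for unbounded functions -/
noncomputable def toLI (f : G → ℝ) : LI G := if h : Bd f then mkB f h.choose h.choose_spec else 0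

lemma toLI_apply {f : G → ℝ} (h : Bd f) (g : G) : toLI f g = f g := by
  unfold toLI
  rw [dif_pos h]
  rfl

lemma mean_of_isMean {m : LI G → ℝ} (hm : IsMean m) : Mean fun f : G → ℝ => m (toLI f) := by
  refine ⟨fun f f' hf hf' => ?_, fun a f hf => ?_, ?_, fun f hf h => ?_⟩
  · have h1 : Bd fun g => f g + f' g := by
      obtain ⟨C, hC⟩ := hf
      obtain ⟨C', hC'⟩ := hf'
      exact ⟨C + C', fun g => (abs_add_le _ _).trans (add_le_add (hC g) (hC' g))⟩
    have e1 : toLI (fun g => f g + f' g) = toLI f + toLI f' := by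
      ext g
      rw [toLI_apply h1]
      change _ = toLI f g + toLI f' g
      rw [toLI_apply hf, toLI_apply hf']
    change m (toLI _) = m (toLI f) + m (toLI f')
    rw [e1, hm.add]
  · have h1 : Bd fun g => a * f g := by
      obtain ⟨C, hC⟩ := hf
      refine ⟨|a| * C, fun g => ?_⟩
      rw [abs_mul]
      exact mul_le_mul_of_nonneg_left (hC g) (abs_nonneg _)
    have e1 : toLI (fun g => a * f g) = a • toLI f := by
      ext g
      rw [toLI_apply h1]
      change _ = a * toLI f g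
      rw [toLI_apply hf]
    change m (toLI _) = a * m (toLI f)
    rw [e1, hm.smul]
  · have h1 : Bd fun _ : G => (1 : ℝ) := ⟨1, fun g => by simp⟩
    exact hm.one _ fun g => toLI_apply h1 g
  · exact hm.nonneg _ fun g => by
      rw [toLI_apply hf]
      exact h g

lemma isMean_of_mean {m : (G → ℝ) → ℝ} (hm : Mean m) : IsMean fun f : LI G => m f := by
  refine ⟨fun f f' => ?_, fun a f => ?_, fun f h => ?_, fun f h => ?_⟩
  · exact hm.1 f f' (bd_coe f) (bd_coe f')
  · exact hm.2.1 a f (bd_coe f)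
  · have h1 : (f : G → ℝ) = fun _ => 1 := funext h
    rw [h1]
    exact hm.2.2.1
  · exact hm.2.2.2 f (bd_coe f) h

lemma bd_comp {K : Type} {f : G → ℝ} (hf : Bd f) (φ : K → G) : Bd fun g => f (φ g) := by
  obtain ⟨C, hC⟩ := hf
  exact ⟨C, fun g => hC _⟩

variable [Group G]

lemma amen_iff : Amen G ↔ Amenable G := by
  constructor
  · rintro ⟨m, hm, hm'⟩
    refine ⟨_, isMean_of_mean hm, fun h f f' hf => ?_⟩
    have h1 : (f' : G → ℝ) = fun g => f (h * g) := funext hf
    rw [h1]
    exact hm' h f (bd_coe f)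
  · rintro ⟨m, hm, hm'⟩
    refine ⟨_, mean_of_isMean hm, fun h f hf => ?_⟩
    refine hm' h _ _ fun g => ?_
    rw [toLI_apply hf, toLI_apply (bd_comp hf fun g => h * g)]

lemma rMean_iff (S : Subgroup G) : RMean S ↔ RelMean S := by
  constructor
  · rintro ⟨m, hm, hm'⟩
    refine ⟨_, isMean_of_mean hm, fun h f f' hf hf' => ?_⟩
    have h1 : (f' : G → ℝ) = fun g => f (g * h) := funext hf'
    rw [h1]
    exact hm' h f (bd_coe f) hf
  · rintro ⟨m, hm, hm'⟩
    refine ⟨_, mean_of_isMean hm, fun h f hf hS => ?_⟩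
    refine hm' h (toLI f) _ (fun g k hk => ?_) fun g => ?_
    · rw [toLI_apply hf, toLI_apply hf, hS g k hk]
    · rw [toLI_apply hf, toLI_apply (bd_comp hf fun g => g * h)]

end Means

section Pull

variable {H K : Type} [NormedAddCommGroup H] [InnerProductSpace ℂ H] [CompleteSpace H]
  [NormedAddCommGroup K] [InnerProductSpace ℂ K] [CompleteSpace K]

/-- transport of a von Neumann algebra by an isometry -/
noncomputable def pull (e : H ≃ₗᵢ[ℂ] K) (A : VonNeumannAlgebra K) : VonNeumannAlgebra H where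
  carrier := {T | e.conjStarAlgEquiv T ∈ A}
  mul_mem' {a b} ha hb := by
    simp only [Set.mem_ofPred_eq] at ha hb ⊢
    rw [map_mul]
    exact mul_mem ha hb
  one_mem' := by
    simp only [Set.mem_ofPred_eq]
    rw [map_one]
    exact one_mem A
  add_mem' {a b} ha hb := by
    simp only [Set.mem_ofPred_eq] at ha hb ⊢
    rw [map_add]
    exact add_mem ha hb
  zero_mem' := by
    simp only [Set.mem_ofPred_eq]
    rw [map_zero]
    exact zero_mem A
  algebraMap_mem' r := by
    simp only [Set.mem_ofPred_eq]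
    rw [Algebra.algebraMap_eq_smul_one, map_smul, map_one]
    exact A.toStarSubalgebra.smul_mem (one_mem A) r
  star_mem' {a} ha := by
    simp only [Set.mem_ofPred_eq] at ha ⊢
    rw [map_star]
    exact star_mem ha
  centralizer_centralizer' := by
    have h1 : ∀ X : Set (K →L[ℂ] K), Set.centralizer (e.conjStarAlgEquiv ⁻¹' X) =
        e.conjStarAlgEquiv ⁻¹' (Set.centralizer X) := by
      intro X
      ext z
      rw [Set.mem_centralizer_iff, Set.mem_preimage, Set.mem_centralizer_iff]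
      constructor
      · intro h a ha
        have h2 := h (e.conjStarAlgEquiv.symm a) (by
          rw [Set.mem_preimage, StarAlgEquiv.apply_symm_apply]
          exact ha)
        have h3 := congrArg e.conjStarAlgEquiv h2
        rwa [map_mul, map_mul, StarAlgEquiv.apply_symm_apply] at h3
      · intro h a ha
        apply e.conjStarAlgEquiv.injective
        rw [map_mul, map_mul]
        exact h _ ha
    change Set.centralizer (Set.centralizer (e.conjStarAlgEquiv ⁻¹' (A : Set (K →L[ℂ] K)))) =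
      e.conjStarAlgEquiv ⁻¹' (A : Set (K →L[ℂ] K))
    rw [h1, h1, A.centralizer_centralizer]

lemma mem_pull (e : H ≃ₗᵢ[ℂ] K) (A : VonNeumannAlgebra K) (T : H →L[ℂ] H) :
    T ∈ pull e A ↔ e.conjStarAlgEquiv T ∈ A := Iff.rfl

lemma pull_symm (e : H ≃ₗᵢ[ℂ] K) (A : VonNeumannAlgebra K) : pull e.symm (pull e A) = A := by
  ext T
  rw [mem_pull, mem_pull]
  have h1 : e.conjStarAlgEquiv (e.symm.conjStarAlgEquiv T) = T := by
    ext x
    simp
  rw [h1]

lemma conj_smul_one (e : H ≃ₗᵢ[ℂ] K) (c : ℂ) :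
    e.conjStarAlgEquiv (c • (1 : H →L[ℂ] H)) = c • (1 : K →L[ℂ] K) := by
  rw [map_smul, map_one]

lemma pull_irred (e : H ≃ₗᵢ[ℂ] K) {N M : VonNeumannAlgebra K} (h : IrredFactors N M) :
    IrredFactors (pull e N) (pull e M) := by
  have key : ∀ A B : VonNeumannAlgebra K,
      (∀ z ∈ A, (∀ y ∈ B, z * y = y * z) → ∃ c : ℂ, z = c • (1 : K →L[ℂ] K)) →
      ∀ z ∈ pull e A, (∀ y ∈ pull e B, z * y = y * z) → ∃ c : ℂ, z = c • (1 : H →L[ℂ] H) := by
    intro A B hAB z hz hz'
    obtain ⟨c, hc⟩ := hAB (e.conjStarAlgEquiv z) hz (fun y hy => by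
      have h2 := hz' (e.conjStarAlgEquiv.symm y) (by
        rw [mem_pull, StarAlgEquiv.apply_symm_apply]
        exact hy)
      have h3 := congrArg e.conjStarAlgEquiv h2
      rwa [map_mul, map_mul, StarAlgEquiv.apply_symm_apply] at h3)
    refine ⟨c, e.conjStarAlgEquiv.injective ?_⟩
    change e.conjStarAlgEquiv z = e.conjStarAlgEquiv (c • (1 : H →L[ℂ] H))
    rw [hc, conj_smul_one]
  exact ⟨fun a ha => h.1 _ ha, key M M h.2.1, key N N h.2.2.1, key M N h.2.2.2⟩

lemma pull_WRDP (e : H ≃ₗᵢ[ℂ] K) {N M : VonNeumannAlgebra K} (h : WRDP N M) :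
    WRDP (pull e N) (pull e M) := by
  intro x hx
  obtain ⟨c, hc⟩ := h (e.conjStarAlgEquiv x) hx
  refine ⟨c, fun n ξ η ε hε => ?_⟩
  obtain ⟨y, hy, hy'⟩ := hc n (fun i => e (ξ i)) (fun i => e (η i)) ε hε
  refine ⟨e.conjStarAlgEquiv.symm y, ?_, fun i => ?_⟩
  · have h1 : convexHull ℝ {T : K →L[ℂ] K | ∃ u ∈ unitary (K →L[ℂ] K), u ∈ N ∧
        T = u * e.conjStarAlgEquiv x * star u} ⊆
        {y | e.conjStarAlgEquiv.symm y ∈ convexHull ℝ {T : H →L[ℂ] H |
          ∃ u ∈ unitary (H →L[ℂ] H), u ∈ pull e N ∧ T = u * x * star u}} := by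
      apply convexHull_min
      · rintro _ ⟨u, hu, hu', rfl⟩
        apply subset_convexHull ℝ _
        refine ⟨e.conjStarAlgEquiv.symm u, ?_, ?_, ?_⟩
        · rw [Unitary.mem_iff] at hu ⊢
          rw [← map_star, ← map_mul, ← map_mul, hu.1, hu.2, map_one]
          exact ⟨rfl, rfl⟩
        · rw [mem_pull, StarAlgEquiv.apply_symm_apply]
          exact hu'
        · rw [map_mul, map_mul, map_star, StarAlgEquiv.symm_apply_apply]
      · intro y hy y' hy' a b ha hb hab
        simp only [Set.mem_ofPred_eq] at hy hy' ⊢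
        have e1 : e.conjStarAlgEquiv.symm (a • y + b • y') =
            a • e.conjStarAlgEquiv.symm y + b • e.conjStarAlgEquiv.symm y' := by
          have e2 : a • y + b • y' = (a : ℂ) • y + (b : ℂ) • y' := rfl
          rw [e2, map_add, map_smul, map_smul]
          rfl
        rw [e1]
        exact convex_convexHull ℝ _ hy hy' ha hb hab
    exact h1 hy
  · have h2 : e (((e.conjStarAlgEquiv.symm y) - c • (1 : H →L[ℂ] H)) (ξ i)) =
        (y - c • (1 : K →L[ℂ] K)) (e (ξ i)) := by
      have h3 : ((e.conjStarAlgEquiv.symm y) - c • (1 : H →L[ℂ] H)) (ξ i) =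
        e.conjStarAlgEquiv.symm y (ξ i) - c • ξ i := rfl
      have h4 : (y - c • (1 : K →L[ℂ] K)) (e (ξ i)) = y (e (ξ i)) - c • e (ξ i) := rfl
      rw [h3, h4, map_sub, map_smul, LinearIsometryEquiv.symm_conjStarAlgEquiv_apply_apply,
        e.apply_symm_apply]
    rw [← e.inner_map_map, h2]
    exact hy' i

lemma pull_WRDP_iff (e : H ≃ₗᵢ[ℂ] K) {N M : VonNeumannAlgebra K} :
    WRDP (pull e N) (pull e M) ↔ WRDP N M := by
  refine ⟨fun h => ?_, pull_WRDP e⟩
  have := pull_WRDP e.symm h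
  rwa [pull_symm, pull_symm] at this

end Pull

section Main

variable {Γ : Type} [Group Γ]

lemma mem_NN_iff_matrix (S : Subgroup Γ) (z : HH Γ →L[ℂ] HH Γ) :
    z ∈ NN S ↔ ∀ k ∈ S, ∀ g h : Γ, ⟪dl (g * k), z (dl (h * k))⟫_ℂ = ⟪dl g, z (dl h)⟫_ℂ := by
  rw [mem_NN]
  have hd : ∀ k h : Γ, (dl (h * k) : HH Γ) = UU (Equiv.mulRight k⁻¹) (dl h) := by
    intro k h
    rw [UU_dl]
    congr 1
    simp
  constructor
  · intro H k hk g h
    have h3 := congrArg (fun T : HH Γ →L[ℂ] HH Γ => T (dl h)) (H _ (S.inv_mem hk))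
    simp only [mul_apply_eq_comp] at h3
    rw [hd k h, ← h3, dl_inner, dl_inner, UU_apply]
    simp
  · intro H k hk
    refine ext_dl fun h => ?_
    ext g
    change (z (dl h) : HH Γ) (g * k) = (z (UU (Equiv.mulRight k) (dl h)) : HH Γ) g
    have h1 := H k hk g (h * k⁻¹)
    rw [inv_mul_cancel_right, dl_inner, dl_inner] at h1
    rw [h1, hd k⁻¹ h, inv_inv]

/-- the main theorem, on an abstract Hilbert space -/
theorem mainAbs [Countable Γ] (S : Subgroup Γ) (hicc : RelIcc S) (H : Type) [NormedAddCommGroup H]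
    [InnerProductSpace ℂ H] [CompleteSpace H] (b : HilbertBasis Γ ℂ H) :
    ∃ N M : VonNeumannAlgebra H, IsRightComm b ⊤ N ∧ IsRightComm b S M ∧ IrredFactors N M ∧
      (WRDP N M → RMean S) ∧ (Hecke S → RMean S → WRDP N M) ∧
      ∀ [S.Normal], WRDP N M ↔ Amen (Γ ⧸ S) := by
  classical
  obtain ⟨h1, h2, h3, h4⟩ := main S hicc
  have hb : ∀ g, b.repr (b g) = dl g := by
    intro g
    rw [b.repr_self]
    unfold dl
    congr
  have hcomm : ∀ T : Subgroup Γ, IsRightComm b T (pull b.repr (NN T)) := by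
    intro T x
    rw [mem_pull, mem_NN_iff_matrix]
    have h5 : ∀ g h : Γ, ⟪b g, x (b h)⟫_ℂ = ⟪dl g, b.repr.conjStarAlgEquiv x (dl h)⟫_ℂ := by
      intro g h
      rw [← b.repr.inner_map_map, hb, LinearIsometryEquiv.conjStarAlgEquiv_apply_apply, ← hb h,
        LinearIsometryEquiv.symm_apply_apply]
    simp only [h5]
  refine ⟨pull b.repr (NN ⊤), pull b.repr (NN S), hcomm ⊤, hcomm S, pull_irred _ h1, ?_, ?_, ?_⟩
  · rw [pull_WRDP_iff, rMean_iff]
    exact h2
  · rw [pull_WRDP_iff, rMean_iff]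
    exact h3
  · intro _
    rw [pull_WRDP_iff, amen_iff]
    exact h4

end Main

end Pool.Agent.Y671.WD
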