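import Mathlib

/-!
Von Neumann algebras with a cyclic trace vector: right multiplications, bounded limits, and the
vectors commuting with an irreducible subalgebra.
-/

set_option autoImplicit false
open scoped InnerProductSpace
open Finset Filter Topology

namespace Pool.Agent.Y671.WD

section Fixed

variable {E : Type} [NormedAddCommGroup E] [InnerProductSpace ℝ E] [CompleteSpace E]

/-- a family of isometries leaving a nonempty set invariant has a common fixed point in its closed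
convex hull -/
lemma exists_fixed (X : Set E) (hX : X.Nonempty) (I : Type) (U : I → E →ₗᵢ[ℝ] E)
    (hU : ∀ i, ∀ x ∈ X, U i x ∈ X) :
    ∃ w ∈ closure (convexHull ℝ X), ∀ i, U i w = w := by
  set C : Set E := closure (convexHull ℝ X) with hC
  have hne : C.Nonempty := by
    obtain ⟨x, hx⟩ := hX
    exact ⟨x, subset_closure (subset_convexHull ℝ _ hx)⟩
  have hconv : Convex ℝ C := (convex_convexHull ℝ _).closure
  obtain ⟨w, hw, hw'⟩ := exists_norm_eq_iInf_of_complete_convex hne isClosed_closure.isComplete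
    hconv 0
  have hmin := (norm_eq_iInf_iff_real_inner_le_zero hconv hw).1 hw'
  refine ⟨w, hw, fun i => ?_⟩
  have h0 : Set.MapsTo (U i) (convexHull ℝ X) (convexHull ℝ X) := by
    intro y hy
    have h1 : convexHull ℝ X ⊆ {y | U i y ∈ convexHull ℝ X} := by
      apply convexHull_min
      · intro x hx
        exact subset_convexHull ℝ _ (hU i x hx)
      · intro y hy y' hy' a b ha hb hab
        simp only [Set.mem_ofPred_eq] at hy hy' ⊢
        rw [map_add, map_smul, map_smul]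
        exact convex_convexHull ℝ _ hy hy' ha hb hab
    exact h1 hy
  have h1 := hmin _ (h0.closure (U i).continuous hw)
  have h2 : ‖U i w‖ = ‖w‖ := (U i).norm_map w
  have h3 : ‖U i w - w‖ ^ 2 ≤ 0 := by
    have h4 : ‖U i w - w‖ ^ 2 = ‖U i w‖ ^ 2 - 2 * ⟪U i w, w⟫_ℝ + ‖w‖ ^ 2 := norm_sub_sq_real _ _
    have h5 : ⟪(0 : E) - w, U i w - w⟫_ℝ = ‖w‖ ^ 2 - ⟪U i w, w⟫_ℝ := by
      rw [zero_sub, inner_neg_left, inner_sub_right, real_inner_self_eq_norm_sq, real_inner_comm]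
      ring
    rw [h5] at h1
    rw [h4, h2]
    linarith
  have h6 : ‖U i w - w‖ = 0 := by
    have := norm_nonneg (U i w - w)
    nlinarith
  exact sub_eq_zero.1 (norm_eq_zero.1 h6)

/-- a closed convex condition passes to the closed convex hull -/
lemma hull_subset {X Y : Set E} (h : X ⊆ Y) (hY : IsClosed Y) (hY' : Convex ℝ Y) :
    closure (convexHull ℝ X) ⊆ Y :=
  closure_minimal (convexHull_min h hY') hY

end Fixed

variable {H : Type} [NormedAddCommGroup H] [InnerProductSpace ℂ H] [CompleteSpace H]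

/-- `Ω` is a cyclic trace vector of `N` -/
def IsTraceVector (N : VonNeumannAlgebra H) (Ω : H) : Prop :=
  ‖Ω‖ = 1 ∧ (∀ a ∈ N, ∀ b ∈ N, ⟪Ω, (a * b) Ω⟫_ℂ = ⟪Ω, (b * a) Ω⟫_ℂ) ∧
    Dense {ξ : H | ∃ a ∈ N, ξ = a Ω}

variable {N Q : VonNeumannAlgebra H} {Ω : H}

lemma star_inner (a : H →L[ℂ] H) (ξ η : H) : ⟪(star a) ξ, η⟫_ℂ = ⟪ξ, a η⟫_ℂ := by
  rw [ContinuousLinearMap.star_eq_adjoint, ContinuousLinearMap.adjoint_inner_left]

lemma inner_star (a : H →L[ℂ] H) (ξ η : H) : ⟪ξ, (star a) η⟫_ℂ = ⟪a ξ, η⟫_ℂ := by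
  rw [ContinuousLinearMap.star_eq_adjoint, ContinuousLinearMap.adjoint_inner_right]

lemma smul_memN (N : VonNeumannAlgebra H) (c : ℂ) {a : H →L[ℂ] H} (ha : a ∈ N) : c • a ∈ N :=
  N.toStarSubalgebra.smul_mem ha c

lemma mul_app (a b : H →L[ℂ] H) (ξ : H) : (a * b) ξ = a (b ξ) := rfl

/-- `‖b a Ω‖ ≤ ‖a‖ ‖b Ω‖` -/
lemma norm_right_le (hΩ : IsTraceVector N Ω) {a b : H →L[ℂ] H} (ha : a ∈ N) (hb : b ∈ N) :
    ‖b (a Ω)‖ ≤ ‖a‖ * ‖b Ω‖ := by
  have h1 : ∀ c ∈ N, ‖c Ω‖ = ‖(star c) Ω‖ := by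
    intro c hc
    have h2 : (⟪c Ω, c Ω⟫_ℂ) = ⟪(star c) Ω, (star c) Ω⟫_ℂ := by
      rw [star_inner, ← inner_star, ← mul_app, ← mul_app]
      exact hΩ.2.1 _ (star_mem hc) _ hc
    rw [inner_self_eq_norm_sq_to_K, inner_self_eq_norm_sq_to_K] at h2
    have h3 : ‖c Ω‖ ^ 2 = ‖(star c) Ω‖ ^ 2 := by exact_mod_cast h2
    exact (pow_left_inj₀ (norm_nonneg _) (norm_nonneg _) (by norm_num)).1 h3
  have h2 : ‖b (a Ω)‖ = ‖(star a) ((star b) Ω)‖ := by
    have := h1 _ (mul_mem hb ha)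
    rw [star_mul] at this
    exact this
  rw [h2, h1 b hb]
  refine ((star a).le_opNorm _).trans_eq ?_
  rw [norm_star]

lemma norm_star_eq (hΩ : IsTraceVector N Ω) {c : H →L[ℂ] H} (hc : c ∈ N) :
    ‖c Ω‖ = ‖(star c) Ω‖ := by
  have h2 : (⟪c Ω, c Ω⟫_ℂ) = ⟪(star c) Ω, (star c) Ω⟫_ℂ := by
    rw [star_inner, ← inner_star, ← mul_app, ← mul_app]
    exact hΩ.2.1 _ (star_mem hc) _ hc
  rw [inner_self_eq_norm_sq_to_K, inner_self_eq_norm_sq_to_K] at h2
  have h3 : ‖c Ω‖ ^ 2 = ‖(star c) Ω‖ ^ 2 := by exact_mod_cast h2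
  exact (pow_left_inj₀ (norm_nonneg _) (norm_nonneg _) (by norm_num)).1 h3

/-- two bounded operators which agree on `N Ω` are equal -/
lemma ext_cyc (hΩ : IsTraceVector N Ω) {S T : H →L[ℂ] H} (h : ∀ a ∈ N, S (a Ω) = T (a Ω)) :
    S = T := by
  have h1 : {ξ : H | S ξ = T ξ} = Set.univ := by
    have h2 : IsClosed {ξ : H | S ξ = T ξ} := isClosed_eq S.continuous T.continuous
    rw [← h2.closure_eq]
    exact (hΩ.2.2.mono (by rintro _ ⟨a, ha, rfl⟩; exact h a ha)).closure_eq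
  ext ξ
  exact (h1 ▸ Set.mem_univ ξ : ξ ∈ {ξ : H | S ξ = T ξ})

lemma comm_app {r a : H →L[ℂ] H} (hr : r ∈ N.commutant) (ha : a ∈ N) (ξ : H) :
    r (a ξ) = a (r ξ) := by
  have h1 := VonNeumannAlgebra.mem_commutant_iff.1 hr a ha
  have h2 := congrArg (fun T : H →L[ℂ] H => T ξ) h1
  exact h2.symm

/-- an element of the commutant is determined by its value at `Ω` -/
lemma ext_comm (hΩ : IsTraceVector N Ω) {r s : H →L[ℂ] H} (hr : r ∈ N.commutant)
    (hs : s ∈ N.commutant) (h : r Ω = s Ω) : r = s := by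
  refine ext_cyc hΩ fun a ha => ?_
  rw [comm_app hr ha, comm_app hs ha, h]

/-- existence of the right multiplications -/
lemma exists_right (hΩ : IsTraceVector N Ω) (a : H →L[ℂ] H) (ha : a ∈ N) :
    ∃ r ∈ N.commutant, r Ω = a Ω := by
  set f : N.toStarSubalgebra →ₗ[ℂ] H :=
    { toFun := fun b => (b : H →L[ℂ] H) (a Ω)
      map_add' := fun _ _ => rfl
      map_smul' := fun _ _ => rfl } with hf
  set e : N.toStarSubalgebra →ₗ[ℂ] H :=
    { toFun := fun b => (b : H →L[ℂ] H) Ω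
      map_add' := fun _ _ => rfl
      map_smul' := fun _ _ => rfl } with he
  have hd : DenseRange e := by
    refine hΩ.2.2.mono ?_
    rintro _ ⟨b, hb, rfl⟩
    exact ⟨⟨b, hb⟩, rfl⟩
  have hn : ∃ C, ∀ x, ‖f x‖ ≤ C * ‖e x‖ := ⟨‖a‖, fun b => norm_right_le hΩ ha b.2⟩
  set r : H →L[ℂ] H := f.extendOfNorm e with hr
  have hrb : ∀ b ∈ N, r (b Ω) = b (a Ω) := fun b hb =>
    LinearMap.extendOfNorm_eq hd hn ⟨b, hb⟩
  refine ⟨r, ?_, ?_⟩
  · rw [VonNeumannAlgebra.mem_commutant_iff]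
    intro c hc
    refine ext_cyc hΩ fun b hb => ?_
    rw [mul_app, mul_app, hrb b hb]
    exact (hrb (c * b) (mul_mem hc hb)).symm
  · have := hrb 1 (one_mem N)
    simpa using this

/-- the right multiplications -/
noncomputable def RR (hΩ : IsTraceVector N Ω) (a : H →L[ℂ] H) : H →L[ℂ] H :=
  open Classical in if ha : a ∈ N then (exists_right hΩ a ha).choose else 0

lemma RR_mem (hΩ : IsTraceVector N Ω) {a : H →L[ℂ] H} (ha : a ∈ N) : RR hΩ a ∈ N.commutant := by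
  unfold RR
  rw [dif_pos ha]
  exact (exists_right hΩ a ha).choose_spec.1

lemma RR_Ω (hΩ : IsTraceVector N Ω) {a : H →L[ℂ] H} (ha : a ∈ N) : RR hΩ a Ω = a Ω := by
  unfold RR
  rw [dif_pos ha]
  exact (exists_right hΩ a ha).choose_spec.2

lemma RR_app (hΩ : IsTraceVector N Ω) {a b : H →L[ℂ] H} (ha : a ∈ N) (hb : b ∈ N) :
    RR hΩ a (b Ω) = b (a Ω) := by
  rw [comm_app (RR_mem hΩ ha) hb, RR_Ω hΩ ha]

lemma RR_mul (hΩ : IsTraceVector N Ω) {a b : H →L[ℂ] H} (ha : a ∈ N) (hb : b ∈ N) :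
    RR hΩ a * RR hΩ b = RR hΩ (b * a) := by
  refine ext_comm hΩ (mul_mem (RR_mem hΩ ha) (RR_mem hΩ hb)) (RR_mem hΩ (mul_mem hb ha)) ?_
  rw [mul_app, RR_Ω hΩ hb, RR_app hΩ ha hb, RR_Ω hΩ (mul_mem hb ha)]
  rfl

lemma RR_one (hΩ : IsTraceVector N Ω) : RR hΩ 1 = 1 := by
  refine ext_comm hΩ (RR_mem hΩ (one_mem N)) (one_mem _) ?_
  rw [RR_Ω hΩ (one_mem N)]

lemma RR_star (hΩ : IsTraceVector N Ω) {a : H →L[ℂ] H} (ha : a ∈ N) :
    star (RR hΩ a) = RR hΩ (star a) := by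
  refine ext_comm hΩ (star_mem (RR_mem hΩ ha)) (RR_mem hΩ (star_mem ha)) ?_
  rw [RR_Ω hΩ (star_mem ha)]
  refine hΩ.2.2.eq_of_inner_left (𝕜 := ℂ) ?_
  rintro _ ⟨b, hb, rfl⟩
  rw [star_inner, star_inner]
  change ⟪Ω, RR hΩ a (b Ω)⟫_ℂ = ⟪Ω, a (b Ω)⟫_ℂ
  rw [RR_app hΩ ha hb]
  exact hΩ.2.1 b hb a ha

/-- the vector `Ω` separates `N` -/
lemma separating (hΩ : IsTraceVector N Ω) {a b : H →L[ℂ] H} (ha : a ∈ N) (hb : b ∈ N)
    (h : a Ω = b Ω) : a = b := by
  refine ext_cyc hΩ fun c hc => ?_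
  rw [← RR_app hΩ hc ha, ← RR_app hΩ hc hb, h]

/-- bounded limits: a limit of vectors `a Ω` with `‖a‖ ≤ C` is of this form -/
lemma bounded_limit (hΩ : IsTraceVector N Ω) (C : ℝ) {w : H}
    (hw : w ∈ closure {ξ : H | ∃ a ∈ N, ‖a‖ ≤ C ∧ ξ = a Ω}) : ∃ b ∈ N, b Ω = w := by
  obtain ⟨x, hx, hxw⟩ := mem_closure_iff_seq_limit.1 hw
  choose a haN haC hax using hx
  have hC : 0 ≤ C := (norm_nonneg _).trans (haC 0)
  have hcau : ∀ κ : H, CauchySeq fun n => a n κ := by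
    intro κ
    rw [Metric.cauchySeq_iff']
    intro ε hε
    obtain ⟨_, hcκ, ⟨c, hc, rfl⟩⟩ := Metric.dense_iff.1 hΩ.2.2 κ (ε / (4 * (C + 1))) (by positivity)
    rw [Metric.mem_ball, dist_eq_norm] at hcκ
    have h1 : Tendsto (fun n => a n (c Ω)) atTop (𝓝 (RR hΩ c w)) := by
      have h2 := ((RR hΩ c).continuous.tendsto w).comp hxw
      refine h2.congr fun n => ?_
      change RR hΩ c (x n) = a n (c Ω)
      rw [hax n, RR_app hΩ hc (haN n)]
    obtain ⟨n₀, hn₀⟩ := Metric.cauchySeq_iff'.1 h1.cauchySeq (ε / 2) (by positivity)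
    refine ⟨n₀, fun n hn => ?_⟩
    have h3 := hn₀ n hn
    rw [dist_eq_norm] at h3 ⊢
    have h4 : a n κ - a n₀ κ = (a n (c Ω) - a n₀ (c Ω)) - (a n (c Ω - κ) - a n₀ (c Ω - κ)) := by
      rw [map_sub, map_sub]
      abel
    rw [h4]
    have h5 : ∀ m, ‖a m (c Ω - κ)‖ ≤ C * ‖c Ω - κ‖ := fun m =>
      ((a m).le_opNorm _).trans (mul_le_mul_of_nonneg_right (haC m) (norm_nonneg _))
    have h6 : C * ‖c Ω - κ‖ < ε / 4 := by
      have h7 : (C + 1) * ‖c Ω - κ‖ < ε / 4 := by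
        calc (C + 1) * ‖c Ω - κ‖ < (C + 1) * (ε / (4 * (C + 1))) :=
              mul_lt_mul_of_pos_left hcκ (by positivity)
          _ = ε / 4 := by field_simp
      have := norm_nonneg (c Ω - κ)
      nlinarith
    calc _ ≤ ‖a n (c Ω) - a n₀ (c Ω)‖ + (‖a n (c Ω - κ)‖ + ‖a n₀ (c Ω - κ)‖) :=
          (norm_sub_le _ _).trans (add_le_add le_rfl (norm_sub_le _ _))
      _ < ε := by linarith [h5 n, h5 n₀]
  choose f hf using fun κ => cauchySeq_tendsto_of_complete (hcau κ)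
  have hfadd : ∀ κ κ', f (κ + κ') = f κ + f κ' := fun κ κ' =>
    tendsto_nhds_unique (hf (κ + κ')) (((hf κ).add (hf κ')).congr fun n => (map_add _ _ _).symm)
  have hfsmul : ∀ (c : ℂ) κ, f (c • κ) = c • f κ := fun c κ =>
    tendsto_nhds_unique (hf (c • κ)) (((hf κ).const_smul c).congr fun n => (map_smul _ _ _).symm)
  have hfb : ∀ κ, ‖f κ‖ ≤ C * ‖κ‖ := fun κ =>
    le_of_tendsto' (hf κ).norm fun n =>
      ((a n).le_opNorm _).trans (mul_le_mul_of_nonneg_right (haC n) (norm_nonneg _))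
  set b : H →L[ℂ] H := LinearMap.mkContinuous
    { toFun := f, map_add' := hfadd, map_smul' := hfsmul } C hfb with hb
  have hbf : ∀ κ, b κ = f κ := fun κ => rfl
  refine ⟨b, ?_, ?_⟩
  · rw [← N.commutant_commutant, VonNeumannAlgebra.mem_commutant_iff]
    intro r hr
    ext κ
    rw [mul_app, mul_app, hbf, hbf]
    refine tendsto_nhds_unique ((r.continuous.tendsto _).comp (hf κ)) ?_
    refine (hf (r κ)).congr fun n => ?_
    exact (comm_app hr (haN n) κ).symm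
  · rw [hbf]
    refine tendsto_nhds_unique (hf Ω) ?_
    exact hxw.congr fun n => hax n

/-- an operator commuting with the unitaries of `Q` commutes with `Q` -/
lemma comm_of_unitary (b : H →L[ℂ] H)
    (h : ∀ u ∈ unitary (H →L[ℂ] H), u ∈ Q → b * u = u * b) : ∀ q ∈ Q, b * q = q * b := by
  intro q hq
  have hcl : IsClosed (Q.toStarSubalgebra : Set (H →L[ℂ] H)) := by
    have h1 := Q.centralizer_centralizer
    change IsClosed (Q : Set (H →L[ℂ] H))
    rw [← h1]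
    exact Set.isClosed_centralizer _
  have := hcl
  let _ : CStarAlgebra Q.toStarSubalgebra := StarSubalgebra.cstarAlgebra _
  obtain ⟨u, c, hx, -⟩ := CStarAlgebra.exists_sum_four_unitary (⟨q, hq⟩ : Q.toStarSubalgebra)
  have h2 : q = ∑ i, c i • ((u i : Q.toStarSubalgebra) : H →L[ℂ] H) := by
    have := congrArg (fun z : Q.toStarSubalgebra => (z : H →L[ℂ] H)) hx
    simp only at this
    rw [this]
    simp
  rw [h2, mul_sum, sum_mul]
  refine sum_congr rfl fun i _ => ?_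
  rw [mul_smul_comm, smul_mul_assoc]
  congr 1
  refine h _ ?_ (u i : Q.toStarSubalgebra).2
  have h3 := (u i).2
  rw [Unitary.mem_iff] at h3 ⊢
  exact ⟨congrArg (fun z : Q.toStarSubalgebra => (z : H →L[ℂ] H)) h3.1,
    congrArg (fun z : Q.toStarSubalgebra => (z : H →L[ℂ] H)) h3.2⟩

lemma isometry_of_mul {T : H →L[ℂ] H} (h : star T * T = 1) (ξ : H) : ‖T ξ‖ = ‖ξ‖ := by
  have h1 : ⟪T ξ, T ξ⟫_ℂ = ⟪ξ, ξ⟫_ℂ := by
    rw [← inner_star, ← mul_app, h]
    rfl
  rw [inner_self_eq_norm_sq_to_K, inner_self_eq_norm_sq_to_K] at h1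
  have h3 : ‖T ξ‖ ^ 2 = ‖ξ‖ ^ 2 := by exact_mod_cast h1
  exact (pow_left_inj₀ (norm_nonneg _) (norm_nonneg _) (by norm_num)).1 h3

/-- the unitary `ξ ↦ u ξ u*` -/
lemma ad_star (hΩ : IsTraceVector N Ω) {u v : H →L[ℂ] H} (hu : u ∈ unitary (H →L[ℂ] H))
    (hv : v ∈ unitary (H →L[ℂ] H)) (huN : u ∈ N) (hvN : v ∈ N) :
    star (u * RR hΩ v) * (u * RR hΩ v) = 1 := by
  rw [star_mul, RR_star hΩ hvN]
  have h1 : RR hΩ (star v) * star u * (u * RR hΩ v) = RR hΩ (star v) * (star u * u) * RR hΩ v := by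
    simp only [mul_assoc]
  rw [h1, Unitary.star_mul_self_of_mem hu, mul_one, RR_mul hΩ (star_mem hvN) hvN,
    Unitary.mul_star_self_of_mem hv, RR_one]

/-- a bounded operator as a real linear isometry -/
noncomputable def toIso (T : H →L[ℂ] H) (h : ∀ ξ, ‖T ξ‖ = ‖ξ‖) : H →ₗᵢ[ℝ] H where
  toFun := T
  map_add' := map_add T
  map_smul' c ξ := by
    change T ((c : ℂ) • ξ) = (c : ℂ) • T ξ
    rw [map_smul]
  norm_map' := h

/-- the vectors commuting with the unitaries of an irreducible subalgebra are the multiples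
of `Ω` -/
theorem ergodic (hΩ : IsTraceVector N Ω) (hQN : ∀ a ∈ Q, a ∈ N)
    (hirr : ∀ z ∈ N, (∀ q ∈ Q, z * q = q * z) → ∃ c : ℂ, z = c • (1 : H →L[ℂ] H)) {ξ : H}
    (hξ : ∀ u ∈ unitary (H →L[ℂ] H), u ∈ Q → u (RR hΩ (star u) ξ) = ξ) :
    ξ = ⟪Ω, ξ⟫_ℂ • Ω := by
  have key : ∀ a ∈ N, ⟪ξ, a Ω⟫_ℂ = ⟪Ω, a Ω⟫_ℂ * ⟪ξ, Ω⟫_ℂ := by
    intro a ha
    set X : Set H := {η | ∃ u ∈ unitary (H →L[ℂ] H), u ∈ Q ∧ η = (u * a * star u) Ω} with hX
    have hXne : X.Nonempty := ⟨_, 1, one_mem _, one_mem Q, rfl⟩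
    have happ : ∀ u ∈ unitary (H →L[ℂ] H), u ∈ Q → ∀ b ∈ N, u (RR hΩ (star u) (b Ω)) =
        (u * b * star u) Ω := by
      intro u _ huQ b hb
      rw [RR_app hΩ (star_mem (hQN u huQ)) hb]
      rfl
    have hiso : ∀ u ∈ unitary (H →L[ℂ] H), u ∈ Q → ∀ η : H, ‖(u * RR hΩ (star u)) η‖ = ‖η‖ :=
      fun u hu huQ => isometry_of_mul
        (ad_star hΩ hu (Unitary.star_mem hu) (hQN u huQ) (star_mem (hQN u huQ)))
    let _ : InnerProductSpace ℝ H := InnerProductSpace.rclikeToReal ℂ H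
    obtain ⟨w, hw, hw'⟩ := exists_fixed X hXne {u : H →L[ℂ] H // u ∈ unitary (H →L[ℂ] H) ∧ u ∈ Q}
      (fun u => toIso (u.1 * RR hΩ (star u.1)) (hiso u.1 u.2.1 u.2.2)) (by
        rintro ⟨u, hu, huQ⟩ _ ⟨v, hv, hvQ, rfl⟩
        refine ⟨u * v, mul_mem hu hv, mul_mem huQ hvQ, ?_⟩
        change u (RR hΩ (star u) ((v * a * star v) Ω)) = _
        rw [happ u hu huQ _ (mul_mem (mul_mem (hQN v hvQ) ha) (star_mem (hQN v hvQ))), star_mul]
        simp only [mul_assoc])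
    -- the limit is a bounded vector
    have hwb : w ∈ closure {ξ : H | ∃ b ∈ N, ‖b‖ ≤ ‖a‖ ∧ ξ = b Ω} := by
      refine closure_mono ?_ hw
      apply convexHull_min
      · rintro _ ⟨u, hu, huQ, rfl⟩
        refine ⟨_, mul_mem (mul_mem (hQN u huQ) ha) (star_mem (hQN u huQ)), ?_, rfl⟩
        have h1 : ‖u‖ ≤ 1 := by
          refine u.opNorm_le_bound zero_le_one fun η => ?_
          rw [one_mul, isometry_of_mul (Unitary.star_mul_self_of_mem hu)]
        calc ‖u * a * star u‖ ≤ ‖u‖ * ‖a‖ * ‖star u‖ :=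
              (norm_mul_le _ _).trans (mul_le_mul_of_nonneg_right (norm_mul_le _ _) (norm_nonneg _))
          _ ≤ 1 * ‖a‖ * 1 := by
              rw [norm_star]
              gcongr
          _ = ‖a‖ := by ring
      · rintro _ ⟨b, hb, hb', rfl⟩ _ ⟨c, hc, hc', rfl⟩ s t hs ht hst
        refine ⟨(s : ℂ) • b + (t : ℂ) • c, add_mem (smul_memN N _ hb) (smul_memN N _ hc), ?_, rfl⟩
        calc ‖(s : ℂ) • b + (t : ℂ) • c‖ ≤ s * ‖b‖ + t * ‖c‖ := by
              refine (norm_add_le _ _).trans ?_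
              rw [norm_smul, norm_smul, Complex.norm_real, Complex.norm_real, Real.norm_eq_abs,
                Real.norm_eq_abs, abs_of_nonneg hs, abs_of_nonneg ht]
          _ ≤ s * ‖a‖ + t * ‖a‖ := by gcongr
          _ = ‖a‖ := by rw [← add_mul, hst, one_mul]
    obtain ⟨b, hb, hbw⟩ := bounded_limit hΩ _ hwb
    have hbQ : ∀ u ∈ unitary (H →L[ℂ] H), u ∈ Q → b * u = u * b := by
      intro u hu huQ
      have h1 : u (RR hΩ (star u) w) = w := hw' ⟨u, hu, huQ⟩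
      rw [← hbw, happ u hu huQ b hb] at h1
      have h2 := separating hΩ (mul_mem (mul_mem (hQN u huQ) hb) (star_mem (hQN u huQ))) hb h1
      calc b * u = u * b * star u * u := by rw [h2]
        _ = u * b * (star u * u) := by simp only [mul_assoc]
        _ = u * b := by rw [Unitary.star_mul_self_of_mem hu, mul_one]
    obtain ⟨c, hc⟩ := hirr b hb (comm_of_unitary b hbQ)
    have hwc : w = c • Ω := by
      rw [← hbw, hc]
      rfl
    have h1 : ⟪Ω, w⟫_ℂ = ⟪Ω, a Ω⟫_ℂ := by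
      have h2 : closure (convexHull ℝ X) ⊆ {v | ⟪Ω, v⟫_ℂ = ⟪Ω, a Ω⟫_ℂ} := by
        apply hull_subset
        · rintro _ ⟨u, hu, huQ, rfl⟩
          change ⟪Ω, (u * a * star u) Ω⟫_ℂ = ⟪Ω, a Ω⟫_ℂ
          rw [hΩ.2.1 (u * a) (mul_mem (hQN u huQ) ha) (star u) (star_mem (hQN u huQ)),
            ← mul_assoc, Unitary.star_mul_self_of_mem hu, one_mul]
        · exact isClosed_eq (continuous_const.inner continuous_id) continuous_const
        · intro v hv v' hv' s t hs ht hst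
          simp only [Set.mem_ofPred_eq] at hv hv' ⊢
          have e1 : s • v + t • v' = (s : ℂ) • v + (t : ℂ) • v' := rfl
          rw [e1, inner_add_right, inner_smul_right, inner_smul_right, hv, hv', ← add_mul]
          have : (s : ℂ) + t = 1 := by exact_mod_cast hst
          rw [this, one_mul]
      exact h2 hw
    have h3 : ⟪ξ, w⟫_ℂ = ⟪ξ, a Ω⟫_ℂ := by
      have h2 : closure (convexHull ℝ X) ⊆ {v | ⟪ξ, v⟫_ℂ = ⟪ξ, a Ω⟫_ℂ} := by
        apply hull_subset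
        · rintro _ ⟨u, hu, huQ, rfl⟩
          change ⟪ξ, (u * a * star u) Ω⟫_ℂ = ⟪ξ, a Ω⟫_ℂ
          rw [← happ u hu huQ a ha]
          have h4 : star (u * RR hΩ (star u)) * (u * RR hΩ (star u)) = 1 :=
            ad_star hΩ hu (Unitary.star_mem hu) (hQN u huQ) (star_mem (hQN u huQ))
          conv_lhs => rw [← hξ u hu huQ]
          rw [← mul_app, ← mul_app, ← inner_star, ← mul_app, h4]
          rfl
        · exact isClosed_eq (continuous_const.inner continuous_id) continuous_const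
        · intro v hv v' hv' s t hs ht hst
          simp only [Set.mem_ofPred_eq] at hv hv' ⊢
          have e1 : s • v + t • v' = (s : ℂ) • v + (t : ℂ) • v' := rfl
          rw [e1, inner_add_right, inner_smul_right, inner_smul_right, hv, hv', ← add_mul]
          have : (s : ℂ) + t = 1 := by exact_mod_cast hst
          rw [this, one_mul]
      exact h2 hw
    have h5 : ⟪Ω, Ω⟫_ℂ = 1 := by
      rw [inner_self_eq_norm_sq_to_K, hΩ.1]
      norm_num
    rw [← h3, ← h1, hwc, inner_smul_right, inner_smul_right, h5, mul_one]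
  refine hΩ.2.2.eq_of_inner_left (𝕜 := ℂ) ?_
  rintro _ ⟨a, ha, rfl⟩
  change ⟪ξ, a Ω⟫_ℂ = ⟪⟪Ω, ξ⟫_ℂ • Ω, a Ω⟫_ℂ
  rw [key a ha, inner_smul_left, inner_conj_symm, mul_comm]

end Pool.Agent.Y671.WD
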