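import Mathlib
import Pool.Agent.Y671.WD.Abs
import Pool.Agent.Y671.WD.Trace

/-!
Regular irreducible subalgebras of a von Neumann algebra with a cyclic trace vector, the basic
construction, and the orthogonal decomposition given by the normalizer.
-/

set_option autoImplicit false
open scoped InnerProductSpace
open Finset Filter Topology

namespace Pool.Agent.Y671.WD

variable {H : Type} [NormedAddCommGroup H] [InnerProductSpace ℂ H] [CompleteSpace H]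

/-- the normalizer of `Q` in `N`: the unitaries `u` of `N` with `u Q u* = Q` -/
def Nor (N Q : VonNeumannAlgebra H) : Subgroup (unitary (H →L[ℂ] H)) where
  carrier := {u | (u : H →L[ℂ] H) ∈ N ∧
    ∀ q : H →L[ℂ] H, (u : H →L[ℂ] H) * q * star (u : H →L[ℂ] H) ∈ Q ↔ q ∈ Q}
  one_mem' := ⟨one_mem N, fun q => by simp⟩
  mul_mem' {u v} hu hv := ⟨mul_mem hu.1 hv.1, fun q => by
    rw [← hv.2 q, ← hu.2 ((v : H →L[ℂ] H) * q * star (v : H →L[ℂ] H))]
    simp only [Submonoid.coe_mul, star_mul, mul_assoc]⟩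
  inv_mem' {u} hu := ⟨by
    change star (u : H →L[ℂ] H) ∈ N
    exact star_mem hu.1, fun q => by
    change star (u : H →L[ℂ] H) * q * star (star (u : H →L[ℂ] H)) ∈ Q ↔ q ∈ Q
    rw [star_star, ← hu.2]
    have h1 : (u : H →L[ℂ] H) * (star (u : H →L[ℂ] H) * q * (u : H →L[ℂ] H)) *
        star (u : H →L[ℂ] H) = ((u : H →L[ℂ] H) * star (u : H →L[ℂ] H)) * q *
        ((u : H →L[ℂ] H) * star (u : H →L[ℂ] H)) := by simp only [mul_assoc]
    rw [h1, Unitary.mul_star_self_of_mem u.2, one_mul, mul_one]⟩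

/-- the unitary group of `Q`, as a subgroup of the normalizer -/
def UQ (N Q : VonNeumannAlgebra H) : Subgroup (Nor N Q) where
  carrier := {u | ((u : unitary (H →L[ℂ] H)) : H →L[ℂ] H) ∈ Q}
  one_mem' := one_mem Q
  mul_mem' {u v} hu hv := mul_mem (s := Q) hu hv
  inv_mem' {u} hu := star_mem (s := Q) hu

instance (N Q : VonNeumannAlgebra H) : (UQ N Q).Normal where
  conj_mem n hn g := (g.2.2 _).2 hn

/-- `Q` is regular in `N`: the normalizer generates `N` as a von Neumann algebra -/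
def IsRegular (N Q : VonNeumannAlgebra H) : Prop :=
  ∀ z : H →L[ℂ] H, (∀ u ∈ Nor N Q, z * (u : H →L[ℂ] H) = u * z) → z ∈ N.commutant

/-- the basic construction of `Q ⊆ N`: the commutant of the right multiplications by the elements
of `Q`, i.e. of the `r ∈ N'` with `r Ω ∈ Q Ω` -/
noncomputable def basic (N Q : VonNeumannAlgebra H) (Ω : H) : VonNeumannAlgebra H where
  toStarSubalgebra := StarSubalgebra.centralizer ℂ {r | r ∈ N.commutant ∧ ∃ q ∈ Q, r Ω = q Ω}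
  centralizer_centralizer' := by
    change Set.centralizer (Set.centralizer (Set.centralizer _)) = Set.centralizer _
    rw [Set.centralizer_centralizer_centralizer]

variable {N Q : VonNeumannAlgebra H} {Ω : H}

lemma coe_inv_nor (u : Nor N Q) :
    (((u⁻¹ : Nor N Q) : unitary (H →L[ℂ] H)) : H →L[ℂ] H) =
      star ((u : unitary (H →L[ℂ] H)) : H →L[ℂ] H) := rfl

lemma coe_mul_nor (u v : Nor N Q) :
    (((u * v : Nor N Q) : unitary (H →L[ℂ] H)) : H →L[ℂ] H) =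
      ((u : unitary (H →L[ℂ] H)) : H →L[ℂ] H) * ((v : unitary (H →L[ℂ] H)) : H →L[ℂ] H) := rfl

/-- coercion of an element of the normalizer -/
def nn (u : Nor N Q) : H →L[ℂ] H := ((u : unitary (H →L[ℂ] H)) : H →L[ℂ] H)

lemma nn_mem (u : Nor N Q) : nn u ∈ N := u.2.1
lemma nn_unitary (u : Nor N Q) : nn u ∈ unitary (H →L[ℂ] H) := u.1.2
lemma nn_mul (u v : Nor N Q) : nn (u * v) = nn u * nn v := rfl
lemma nn_inv (u : Nor N Q) : nn u⁻¹ = star (nn u) := rfl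
lemma nn_one : nn (1 : Nor N Q) = 1 := rfl
lemma nn_star_mul (u : Nor N Q) : star (nn u) * nn u = 1 := Unitary.star_mul_self_of_mem (nn_unitary u)
lemma nn_mul_star (u : Nor N Q) : nn u * star (nn u) = 1 := Unitary.mul_star_self_of_mem (nn_unitary u)
lemma nn_conj (u : Nor N Q) {q : H →L[ℂ] H} (hq : q ∈ Q) : nn u * q * star (nn u) ∈ Q :=
  (u.2.2 q).2 hq
lemma nn_conj' (u : Nor N Q) {q : H →L[ℂ] H} (hq : q ∈ Q) : star (nn u) * q * nn u ∈ Q := by
  have := nn_conj u⁻¹ hq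
  rwa [nn_inv, star_star] at this

lemma mem_basic (hΩ : IsTraceVector N Ω) (hQN : ∀ a ∈ Q, a ∈ N) {z : H →L[ℂ] H} :
    z ∈ basic N Q Ω ↔ ∀ q ∈ Q, RR hΩ q * z = z * RR hΩ q := by
  have h0 : z ∈ basic N Q Ω ↔
    z ∈ StarSubalgebra.centralizer ℂ {r | r ∈ N.commutant ∧ ∃ q ∈ Q, r Ω = q Ω} := Iff.rfl
  rw [h0, StarSubalgebra.mem_centralizer_iff]
  constructor
  · intro h q hq
    exact (h _ ⟨RR_mem hΩ (hQN q hq), q, hq, RR_Ω hΩ (hQN q hq)⟩).1
  · rintro h r ⟨hr, q, hq, hrq⟩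
    have h1 : r = RR hΩ q := by
      refine ext_comm hΩ hr (RR_mem hΩ (hQN q hq)) ?_
      rw [hrq, RR_Ω hΩ (hQN q hq)]
    rw [h1, RR_star hΩ (hQN q hq)]
    exact ⟨h q hq, h _ (star_mem hq)⟩

lemma N_le_basic (hΩ : IsTraceVector N Ω) (hQN : ∀ a ∈ Q, a ∈ N) : ∀ a ∈ N, a ∈ basic N Q Ω := by
  intro a ha
  rw [mem_basic hΩ hQN]
  intro q hq
  exact (VonNeumannAlgebra.mem_commutant_iff.1 (RR_mem hΩ (hQN q hq)) a ha).symm

theorem irred_basic (hΩ : IsTraceVector N Ω) (hQN : ∀ a ∈ Q, a ∈ N)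
    (hirr : ∀ z ∈ N, (∀ q ∈ Q, z * q = q * z) → ∃ c : ℂ, z = c • (1 : H →L[ℂ] H)) :
    IrredFactors N (basic N Q Ω) := by
  have key : ∀ z ∈ basic N Q Ω, (∀ y ∈ N, z * y = y * z) → ∃ c : ℂ, z = c • (1 : H →L[ℂ] H) := by
    intro z hz hz'
    have hzc : z ∈ N.commutant := by
      rw [VonNeumannAlgebra.mem_commutant_iff]
      exact fun y hy => (hz' y hy).symm
    have h1 : z Ω = ⟪Ω, z Ω⟫_ℂ • Ω := by
      apply ergodic hΩ hQN hirr
      intro u hu huQ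
      have h2 := congrArg (fun T : H →L[ℂ] H => T Ω) ((mem_basic hΩ hQN).1 hz _ (star_mem huQ))
      simp only [mul_app] at h2
      rw [h2, RR_Ω hΩ (star_mem (hQN u huQ)), comm_app hzc (star_mem (hQN u huQ)), ← mul_app,
        Unitary.mul_star_self_of_mem hu]
      rfl
    refine ⟨⟪Ω, z Ω⟫_ℂ, ext_comm hΩ hzc (smul_memN _ _ (one_mem _)) ?_⟩
    exact h1
  have hNM := N_le_basic hΩ hQN
  exact ⟨hNM, fun z hz hz' => key z hz fun y hy => hz' y (hNM y hy),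
    fun z hz hz' => key z (hNM z hz) hz', key⟩

/-- a projection commutes with an operator which, with its adjoint, leaves the range invariant -/
lemma proj_comm (K : Submodule ℂ H) [K.HasOrthogonalProjection] (T : H →L[ℂ] H)
    (h : ∀ x ∈ K, T x ∈ K) (h' : ∀ x ∈ K, (star T) x ∈ K) :
    T * K.starProjection = K.starProjection * T := by
  ext ξ
  rw [mul_app, mul_app]
  symm
  refine Submodule.eq_starProjection_of_mem_of_inner_eq_zero (h _ (K.starProjection_apply_mem ξ)) ?_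
  intro w hw
  rw [← map_sub, ← inner_star]
  exact K.starProjection_inner_eq_zero _ _ (h' w hw)

/-- the subspace `Q Ω` -/
def base (Q : VonNeumannAlgebra H) (Ω : H) : Submodule ℂ H where
  carrier := {ξ | ∃ q ∈ Q, ξ = q Ω}
  add_mem' := by
    rintro _ _ ⟨a, ha, rfl⟩ ⟨b, hb, rfl⟩
    exact ⟨a + b, add_mem ha hb, rfl⟩
  zero_mem' := ⟨0, zero_mem Q, rfl⟩
  smul_mem' := by
    rintro c _ ⟨a, ha, rfl⟩
    exact ⟨c • a, smul_memN Q c ha, rfl⟩

/-- the closure of `Q Ω` -/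
def LQ (Q : VonNeumannAlgebra H) (Ω : H) : Submodule ℂ H := (base Q Ω).topologicalClosure

instance (Q : VonNeumannAlgebra H) (Ω : H) : CompleteSpace (LQ Q Ω) :=
  (base Q Ω).isClosed_topologicalClosure.completeSpace_coe

lemma mem_LQ {q : H →L[ℂ] H} (hq : q ∈ Q) : q Ω ∈ LQ Q Ω :=
  (base Q Ω).le_topologicalClosure ⟨q, hq, rfl⟩

lemma map_LQ {T : H →L[ℂ] H} (h : ∀ q ∈ Q, T (q Ω) ∈ LQ Q Ω) : ∀ x ∈ LQ Q Ω, T x ∈ LQ Q Ω := by
  intro x hx
  have h1 : Set.MapsTo T (base Q Ω) (LQ Q Ω) := by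
    rintro _ ⟨q, hq, rfl⟩
    exact h q hq
  have h2 := h1.closure T.continuous
  have h3 : closure ((LQ Q Ω : Submodule ℂ H) : Set H) = LQ Q Ω :=
    (base Q Ω).isClosed_topologicalClosure.closure_eq
  rw [h3] at h2
  exact h2 hx

/-- the projection onto the closure of `Q Ω` -/
noncomputable def ee (Q : VonNeumannAlgebra H) (Ω : H) : H →L[ℂ] H := (LQ Q Ω).starProjection

lemma ee_comm {T : H →L[ℂ] H} (h : ∀ q ∈ Q, T (q Ω) ∈ LQ Q Ω)
    (h' : ∀ q ∈ Q, (star T) (q Ω) ∈ LQ Q Ω) : T * ee Q Ω = ee Q Ω * T :=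
  proj_comm _ T (map_LQ h) (map_LQ h')

lemma ee_left {q : H →L[ℂ] H} (hq : q ∈ Q) : q * ee Q Ω = ee Q Ω * q :=
  ee_comm (fun _ hb => mem_LQ (mul_mem hq hb)) (fun _ hb => mem_LQ (mul_mem (star_mem hq) hb))

lemma ee_right (hΩ : IsTraceVector N Ω) (hQN : ∀ a ∈ Q, a ∈ N) {q : H →L[ℂ] H} (hq : q ∈ Q) :
    RR hΩ q * ee Q Ω = ee Q Ω * RR hΩ q := by
  refine ee_comm (fun b hb => ?_) fun b hb => ?_
  · rw [RR_app hΩ (hQN q hq) (hQN b hb)]
    exact mem_LQ (mul_mem hb hq)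
  · rw [RR_star hΩ (hQN q hq), RR_app hΩ (star_mem (hQN q hq)) (hQN b hb)]
    exact mem_LQ (mul_mem hb (star_mem hq))

lemma ee_idem : ee Q Ω * ee Q Ω = ee Q Ω := (LQ Q Ω).isIdempotentElem_starProjection

lemma ee_self : star (ee Q Ω) = ee Q Ω := isSelfAdjoint_starProjection _

lemma ee_Ω : ee Q Ω Ω = Ω := Submodule.starProjection_eq_self_iff.2 (by
  have := mem_LQ (Q := Q) (Ω := Ω) (one_mem Q)
  exact this)

/-- an element of `N` whose value at `Ω` is in the closure of `Q Ω` is in `Q` -/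
lemma mem_of_LQ (hΩ : IsTraceVector N Ω) (hQN : ∀ a ∈ Q, a ∈ N) {w : H →L[ℂ] H} (hw : w ∈ N)
    (hwQ : w Ω ∈ LQ Q Ω) : w ∈ Q := by
  have h0 : w Ω ∈ closure {ξ : H | ∃ q ∈ Q, ξ = q Ω} := hwQ
  obtain ⟨x, hx, hxw⟩ := mem_closure_iff_seq_limit.1 h0
  choose q hqQ hqx using hx
  have hlim : Tendsto (fun n => q n Ω) atTop (𝓝 (w Ω)) := hxw.congr fun n => hqx n
  have hlim' : Tendsto (fun n => (star (q n)) Ω) atTop (𝓝 ((star w) Ω)) := by
    rw [tendsto_iff_norm_sub_tendsto_zero] at hlim ⊢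
    refine hlim.congr fun n => ?_
    have h1 := norm_star_eq hΩ (sub_mem (hQN _ (hqQ n)) hw)
    rw [star_sub] at h1
    exact h1
  rw [← Q.commutant_commutant, VonNeumannAlgebra.mem_commutant_iff]
  intro z hz
  have hz' : ∀ a ∈ Q, ∀ ξ : H, z (a ξ) = a (z ξ) := fun a ha ξ => comm_app hz ha ξ
  refine ext_cyc hΩ fun r hr => ?_
  refine hΩ.2.2.eq_of_inner_right (𝕜 := ℂ) ?_
  rintro _ ⟨s, hs, rfl⟩
  rw [mul_app, mul_app]
  -- both sides are limits
  have e1 : w (r Ω) = RR hΩ r (w Ω) := (RR_app hΩ hr hw).symm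
  have l1 : Tendsto (fun n => ⟪s Ω, z (RR hΩ r (q n Ω))⟫_ℂ) atTop (𝓝 ⟪s Ω, z (w (r Ω))⟫_ℂ) := by
    rw [e1]
    exact (tendsto_const_nhds.inner (((z.continuous.comp (RR hΩ r).continuous).tendsto _).comp hlim))
  have l2 : Tendsto (fun n => ⟪RR hΩ s ((star (q n)) Ω), z (r Ω)⟫_ℂ) atTop
      (𝓝 ⟪s Ω, w (z (r Ω))⟫_ℂ) := by
    have e2 : ⟪s Ω, w (z (r Ω))⟫_ℂ = ⟪RR hΩ s ((star w) Ω), z (r Ω)⟫_ℂ := by
      rw [RR_app hΩ hs (star_mem hw), star_inner]
    rw [e2]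
    exact ((((RR hΩ s).continuous.tendsto _).comp hlim').inner tendsto_const_nhds)
  refine tendsto_nhds_unique l1 (l2.congr fun n => ?_)
  rw [RR_app hΩ hs (star_mem (hQN _ (hqQ n))), RR_app hΩ hr (hQN _ (hqQ n)), star_inner,
    hz' _ (hqQ n)]

/-- a normalizing unitary outside of `Q` is orthogonal to `Q` -/
lemma ee_nor (hΩ : IsTraceVector N Ω) (hQN : ∀ a ∈ Q, a ∈ N)
    (hirr : ∀ z ∈ N, (∀ q ∈ Q, z * q = q * z) → ∃ c : ℂ, z = c • (1 : H →L[ℂ] H))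
    (w : Nor N Q) (hw : nn w ∉ Q) : ee Q Ω (nn w Ω) = 0 := by
  have hwN := nn_mem w
  set ξ := ee Q Ω (nn w Ω) with hξ
  set ξ' := RR hΩ (star (nn w)) ξ with hξ'
  have h1 : ξ' = ⟪Ω, ξ'⟫_ℂ • Ω := by
    apply ergodic hΩ hQN hirr
    intro u hu huQ
    have huN := hQN u huQ
    set θ := star (nn w) * u * nn w with hθ
    have hθQ : θ ∈ Q := nn_conj' w huQ
    have hθN := hQN θ hθQ
    have hθu : θ ∈ unitary (H →L[ℂ] H) :=
      mul_mem (mul_mem (Unitary.star_mem (nn_unitary w)) hu) (nn_unitary w)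
    -- u R(θ*) ξ = ξ
    have h2 : u (RR hΩ (star θ) ξ) = ξ := by
      have h3 : u * RR hΩ (star θ) * ee Q Ω = ee Q Ω * (u * RR hΩ (star θ)) := by
        rw [mul_assoc, ee_right hΩ hQN (star_mem hθQ), ← mul_assoc, ee_left huQ, mul_assoc]
      have h4 := congrArg (fun T : H →L[ℂ] H => T (nn w Ω)) h3
      simp only [mul_app] at h4
      rw [hξ, h4, RR_app hΩ (star_mem hθN) hwN]
      congr 1
      have h5 : u (nn w ((star θ) Ω)) = (u * nn w * star θ) Ω := rfl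
      have h6 : u * nn w = nn w * θ := by
        rw [hθ, ← mul_assoc, ← mul_assoc, nn_mul_star, one_mul]
      rw [h5, h6, mul_assoc, Unitary.mul_star_self_of_mem hθu, mul_one]
    have h7 : RR hΩ (star u) * RR hΩ (star (nn w)) = RR hΩ (star (nn w)) * RR hΩ (star θ) := by
      rw [RR_mul hΩ (star_mem huN) (star_mem hwN), RR_mul hΩ (star_mem hwN) (star_mem hθN)]
      congr 1
      rw [hθ]
      simp only [star_mul, star_star]
      rw [mul_assoc, mul_assoc, nn_mul_star, mul_one]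
    have h8 := congrArg (fun T : H →L[ℂ] H => T ξ) h7
    simp only [mul_app] at h8
    rw [hξ', h8, ← comm_app (RR_mem hΩ (star_mem hwN)) huN, h2]
  have h2 : ξ = ⟪Ω, ξ'⟫_ℂ • nn w Ω := by
    have h3 : RR hΩ (nn w) ξ' = ξ := by
      rw [hξ', ← mul_app, RR_mul hΩ hwN (star_mem hwN), nn_star_mul, RR_one]
      rfl
    rw [← h3]
    conv_lhs => rw [h1]
    rw [map_smul, RR_Ω hΩ hwN]
  by_contra hne
  have hc : ⟪Ω, ξ'⟫_ℂ ≠ 0 := by
    intro h0
    rw [h0, zero_smul] at h2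
    exact hne h2
  apply hw
  apply mem_of_LQ hΩ hQN hwN
  have h3 : ξ ∈ LQ Q Ω := (LQ Q Ω).starProjection_apply_mem _
  rw [h2] at h3
  have h4 := (LQ Q Ω).smul_mem (⟪Ω, ξ'⟫_ℂ)⁻¹ h3
  rwa [smul_smul, inv_mul_cancel₀ hc, one_smul] at h4

end Pool.Agent.Y671.WD
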