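import Mathlib
import Pool.Agent.Y671.WD.Reg
import Pool.Agent.Y671.WD.Mean

/-!
The decomposition of the Hilbert space given by the cosets of the normalizer, and the block
multiplication operators.
-/

set_option autoImplicit false
open scoped InnerProductSpace
open Finset Filter Topology

namespace Pool.Agent.Y671.WD

variable {H : Type} [NormedAddCommGroup H] [InnerProductSpace ℂ H] [CompleteSpace H]

section L2

variable {I : Type}

/-- square summable families of vectors -/
abbrev KK (I H : Type) [NormedAddCommGroup H] := lp (fun _ : I => H) 2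

lemma KK_summable (f : KK I H) : Summable fun g => ‖f g‖ ^ 2 := by
  have := (lp.memℓp f).summable (by norm_num)
  simpa using this

lemma KK_norm_sq (f : KK I H) : ‖f‖ ^ 2 = ∑' g, ‖f g‖ ^ 2 := by
  have := lp.norm_rpow_eq_tsum (p := 2) (by norm_num) f
  simpa using this

lemma KK_mem_mul (F : LI I) (f : KK I H) : Memℓp (fun g => (F g : ℂ) • f g) 2 := by
  apply ((lp.memℓp f).const_smul ((‖F‖ : ℝ) : ℂ)).mono'
  intro g
  rw [norm_smul, Pi.smul_apply, norm_smul, Complex.norm_real, Complex.norm_real, norm_norm]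
  exact mul_le_mul_of_nonneg_right (by simpa using abs_le_norm F g) (norm_nonneg _)

/-- multiplication by a bounded real function -/
noncomputable def MD (F : LI I) : KK I H →L[ℂ] KK I H :=
  LinearMap.mkContinuous
    { toFun := fun f => ⟨fun g => (F g : ℂ) • f g, KK_mem_mul F f⟩
      map_add' := fun f h => by
        ext g
        change (F g : ℂ) • (f g + h g) = (F g : ℂ) • f g + (F g : ℂ) • h g
        rw [smul_add]
      map_smul' := fun c f => by
        ext g
        change (F g : ℂ) • (c • f g) = c • ((F g : ℂ) • f g)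
        rw [smul_comm] } ‖F‖ (fun f => by
        apply le_of_sq_le_sq _ (by positivity)
        rw [mul_pow, KK_norm_sq, KK_norm_sq, ← tsum_mul_left]
        refine (KK_summable _).tsum_le_tsum (fun g => ?_) ((KK_summable f).mul_left _)
        change ‖(F g : ℂ) • f g‖ ^ 2 ≤ _
        rw [norm_smul, mul_pow]
        refine mul_le_mul_of_nonneg_right ?_ (by positivity)
        rw [Complex.norm_real, Real.norm_eq_abs]
        exact pow_le_pow_left₀ (abs_nonneg _) (abs_le_norm F g) 2)

lemma MD_apply (F : LI I) (f : KK I H) (g : I) : MD F f g = (F g : ℂ) • f g := rfl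

/-- a family of pairwise orthogonal projections -/
structure IsOrth (P : I → H →L[ℂ] H) : Prop where
  self : ∀ i, star (P i) = P i
  idem : ∀ i, P i * P i = P i
  orth : ∀ i j, i ≠ j → P i * P j = 0

variable {P : I → H →L[ℂ] H}

lemma IsOrth.inner (hP : IsOrth P) (i : I) (ξ η : H) : ⟪P i ξ, P i η⟫_ℂ = ⟪ξ, P i η⟫_ℂ := by
  rw [← inner_star, hP.self, ← mul_app, hP.idem]

lemma IsOrth.bessel (hP : IsOrth P) (s : Finset I) (ξ : H) : ∑ i ∈ s, ‖P i ξ‖ ^ 2 ≤ ‖ξ‖ ^ 2 := by
  classical
  set a : ℝ := ∑ i ∈ s, ‖P i ξ‖ ^ 2 with ha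
  set T : H := ∑ i ∈ s, P i ξ with hT
  have h1 : ⟪ξ, T⟫_ℂ = (a : ℂ) := by
    rw [hT, inner_sum, ha]
    push_cast
    refine sum_congr rfl fun i _ => ?_
    rw [← hP.inner, inner_self_eq_norm_sq_to_K]
    norm_cast
  have h2 : ⟪T, T⟫_ℂ = (a : ℂ) := by
    have h3 : ∀ i ∈ s, ⟪P i ξ, T⟫_ℂ = ((‖P i ξ‖ ^ 2 : ℝ) : ℂ) := by
      intro i hi
      rw [hT, inner_sum, sum_eq_single i]
      · rw [inner_self_eq_norm_sq_to_K]
        norm_cast
      · intro j _ hij
        rw [← inner_star, hP.self, ← mul_app, hP.orth i j (Ne.symm hij)]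
        simp
      · exact fun h => absurd hi h
    conv_lhs => rw [hT, sum_inner]
    rw [sum_congr rfl h3, ha]
    push_cast
    rfl
  have h3 : ‖T‖ ^ 2 = a := by
    rw [inner_self_eq_norm_sq_to_K] at h2
    apply Complex.ofReal_injective
    rw [← h2]
    norm_cast
  have h4 : a ≤ ‖ξ‖ * ‖T‖ := by
    have h5 := norm_inner_le_norm (𝕜 := ℂ) ξ T
    rw [h1, Complex.norm_real] at h5
    exact (le_abs_self a).trans h5
  have h5 : 0 ≤ (‖ξ‖ - ‖T‖) ^ 2 := sq_nonneg _
  have h6 := norm_nonneg ξ
  have h7 := norm_nonneg T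
  by_contra hcon
  push Not at hcon
  nlinarith [mul_nonneg h6 h7]

lemma IsOrth.summable (hP : IsOrth P) (ξ : H) : Summable fun i => ‖P i ξ‖ ^ 2 :=
  summable_of_sum_le (fun _ => by positivity) fun s => hP.bessel s ξ

lemma IsOrth.memℓp (hP : IsOrth P) (ξ : H) : Memℓp (fun i => P i ξ) 2 := by
  apply memℓp_gen
  simpa using hP.summable ξ

/-- the family of the components -/
noncomputable def VV (hP : IsOrth P) : H →L[ℂ] KK I H :=
  LinearMap.mkContinuous
    { toFun := fun ξ => ⟨fun i => P i ξ, hP.memℓp ξ⟩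
      map_add' := fun ξ η => by
        ext i
        change P i (ξ + η) = P i ξ + P i η
        rw [map_add]
      map_smul' := fun c ξ => by
        ext i
        change P i (c • ξ) = c • P i ξ
        rw [map_smul] } 1 (fun ξ => by
        rw [one_mul]
        apply le_of_sq_le_sq _ (norm_nonneg _)
        rw [KK_norm_sq]
        exact (hP.summable ξ).tsum_le_of_sum_le fun s => hP.bessel s ξ)

lemma VV_apply (hP : IsOrth P) (ξ : H) (i : I) : VV hP ξ i = P i ξ := rfl

/-- the block multiplication operator -/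
noncomputable def XX (hP : IsOrth P) (F : LI I) : H →L[ℂ] H :=
  (ContinuousLinearMap.adjoint (VV hP)) ∘L (MD F ∘L VV hP)

lemma XX_inner (hP : IsOrth P) (F : LI I) (ξ η : H) :
    HasSum (fun i => (F i : ℂ) * ⟪P i ξ, P i η⟫_ℂ) ⟪ξ, XX hP F η⟫_ℂ := by
  have h1 : ⟪ξ, XX hP F η⟫_ℂ = ⟪VV hP ξ, MD F (VV hP η)⟫_ℂ := by
    unfold XX
    rw [ContinuousLinearMap.comp_apply, ContinuousLinearMap.adjoint_inner_right]
    rfl
  rw [h1]
  have h2 := lp.hasSum_inner (𝕜 := ℂ) (VV hP ξ) (MD F (VV hP η))
  refine h2.congr_fun ?_ |> fun h => h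
  intro i
  rw [MD_apply, VV_apply, VV_apply, inner_smul_right]

lemma XX_diag (hP : IsOrth P) (F : LI I) (ζ : H) :
    HasSum (fun i => F i * ‖P i ζ‖ ^ 2) (⟪ζ, XX hP F ζ⟫_ℂ).re := by
  have h1 := Complex.hasSum_re (XX_inner hP F ζ ζ)
  refine h1.congr_fun ?_ |> fun h => h
  intro i
  rw [inner_self_eq_norm_sq_to_K, Complex.re_ofReal_mul]
  norm_cast

/-- an operator commuting with the projections commutes with the block multiplications -/
lemma XX_comm (hP : IsOrth P) (F : LI I) (T : H →L[ℂ] H) (hT : ∀ i, T * P i = P i * T)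
    (hT' : ∀ i, star T * P i = P i * star T) : T * XX hP F = XX hP F * T := by
  ext η
  refine ext_inner_left ℂ fun ξ => ?_
  rw [mul_app, mul_app, ← star_inner]
  have h1 := XX_inner hP F ((star T) ξ) η
  have h2 := XX_inner hP F ξ (T η)
  refine h1.unique (h2.congr_fun (fun i => ?_) |> fun h => h)
  have e1 := congrArg (fun S : H →L[ℂ] H => S ξ) (hT' i)
  have e2 := congrArg (fun S : H →L[ℂ] H => S η) (hT i)
  simp only [mul_app] at e1 e2
  rw [← e1, ← e2, star_inner]

end L2

end Pool.Agent.Y671.WD
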