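import Mathlib
import Pool.Agent.Y671.WD.Dec
import Pool.Agent.Y671.WD.Quot

/-!
Necessity of the amenability of the normalizer quotient.
-/

set_option autoImplicit false
open scoped InnerProductSpace
open Finset Filter Topology

namespace Pool.Agent.Y671.WD

variable {H : Type} [NormedAddCommGroup H] [InnerProductSpace ℂ H] [CompleteSpace H]
  {N Q : VonNeumannAlgebra H} {Ω : H}

/-- the projection onto the closure of `u Q Ω` -/
noncomputable def pp (Ω : H) (u : Nor N Q) : H →L[ℂ] H := nn u * ee Q Ω * star (nn u)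

lemma pp_self (u : Nor N Q) : star (pp Ω u) = pp Ω u := by
  unfold pp
  rw [star_mul, star_mul, star_star, ee_self, mul_assoc]

lemma pp_idem (u : Nor N Q) : pp Ω u * pp Ω u = pp Ω u := by
  unfold pp
  calc nn u * ee Q Ω * star (nn u) * (nn u * ee Q Ω * star (nn u)) =
      nn u * ee Q Ω * (star (nn u) * nn u) * (ee Q Ω * star (nn u)) := by simp only [mul_assoc]
    _ = nn u * (ee Q Ω * ee Q Ω) * star (nn u) := by
      rw [nn_star_mul, mul_one]
      simp only [mul_assoc]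
    _ = _ := by rw [ee_idem]

lemma pp_eq {u v : Nor N Q} (h : u⁻¹ * v ∈ UQ N Q) : pp Ω v = pp Ω u := by
  have h1 : nn (u⁻¹ * v) ∈ Q := h
  have h2 : nn v = nn u * nn (u⁻¹ * v) := by
    rw [← nn_mul]
    congr 1
    group
  unfold pp
  rw [h2, star_mul]
  have h3 : nn (u⁻¹ * v) * ee Q Ω * star (nn (u⁻¹ * v)) = ee Q Ω := by
    rw [ee_left h1, mul_assoc, nn_mul_star, mul_one]
  calc nn u * nn (u⁻¹ * v) * ee Q Ω * (star (nn (u⁻¹ * v)) * star (nn u)) =
      nn u * (nn (u⁻¹ * v) * ee Q Ω * star (nn (u⁻¹ * v))) * star (nn u) := by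
        simp only [mul_assoc]
    _ = _ := by rw [h3]

lemma ee_nn_ee (hΩ : IsTraceVector N Ω) (hQN : ∀ a ∈ Q, a ∈ N)
    (hirr : ∀ z ∈ N, (∀ q ∈ Q, z * q = q * z) → ∃ c : ℂ, z = c • (1 : H →L[ℂ] H))
    (w : Nor N Q) (hw : nn w ∉ Q) : ee Q Ω * nn w * ee Q Ω = 0 := by
  ext ξ
  rw [mul_app, mul_app]
  have h1 : ee Q Ω ξ ∈ LQ Q Ω := (LQ Q Ω).starProjection_apply_mem _
  have h2 : ∀ x ∈ LQ Q Ω, (ee Q Ω) (nn w x) = 0 := by
    intro x hx
    have h3 : IsClosed {x : H | (ee Q Ω) (nn w x) = 0} :=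
      isClosed_eq ((ee Q Ω).continuous.comp (nn w).continuous) continuous_const
    have h4 : ((base Q Ω : Submodule ℂ H) : Set H) ⊆ {x : H | (ee Q Ω) (nn w x) = 0} := by
      rintro _ ⟨q, hq, rfl⟩
      change (ee Q Ω) (nn w (q Ω)) = 0
      rw [← RR_app hΩ (hQN q hq) (nn_mem w), ← mul_app, ← ee_right hΩ hQN hq, mul_app,
        ee_nor hΩ hQN hirr w hw, map_zero]
    exact closure_minimal h4 h3 hx
  exact h2 _ h1

lemma pp_orth (hΩ : IsTraceVector N Ω) (hQN : ∀ a ∈ Q, a ∈ N)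
    (hirr : ∀ z ∈ N, (∀ q ∈ Q, z * q = q * z) → ∃ c : ℂ, z = c • (1 : H →L[ℂ] H))
    {u v : Nor N Q} (h : u⁻¹ * v ∉ UQ N Q) : pp Ω u * pp Ω v = 0 := by
  unfold pp
  have h1 := ee_nn_ee hΩ hQN hirr (u⁻¹ * v) h
  calc nn u * ee Q Ω * star (nn u) * (nn v * ee Q Ω * star (nn v)) =
      nn u * (ee Q Ω * (star (nn u) * nn v) * ee Q Ω) * star (nn v) := by simp only [mul_assoc]
    _ = nn u * (ee Q Ω * nn (u⁻¹ * v) * ee Q Ω) * star (nn v) := rfl
    _ = 0 := by rw [h1, mul_zero, zero_mul]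

/-- the projections indexed by the cosets -/
noncomputable def PG (Ω : H) (g : Nor N Q ⧸ UQ N Q) : H →L[ℂ] H := pp Ω g.out

lemma PG_mk (u : Nor N Q) : PG Ω (QuotientGroup.mk u : Nor N Q ⧸ UQ N Q) = pp Ω u := by
  unfold PG
  apply pp_eq
  exact QuotientGroup.eq.1 (QuotientGroup.out_eq' _).symm

lemma isOrth (hΩ : IsTraceVector N Ω) (hQN : ∀ a ∈ Q, a ∈ N)
    (hirr : ∀ z ∈ N, (∀ q ∈ Q, z * q = q * z) → ∃ c : ℂ, z = c • (1 : H →L[ℂ] H)) :
    IsOrth (fun g : Nor N Q ⧸ UQ N Q => PG Ω g) where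
  self g := pp_self _
  idem g := pp_idem _
  orth g g' hgg' := by
    apply pp_orth hΩ hQN hirr
    intro h
    apply hgg'
    have h1 := QuotientGroup.eq.2 h
    rwa [QuotientGroup.out_eq', QuotientGroup.out_eq'] at h1

lemma pp_Ω (u : Nor N Q) : pp Ω u (nn u Ω) = nn u Ω := by
  unfold pp
  rw [mul_app, mul_app, ← mul_app (star (nn u)), nn_star_mul]
  change nn u (ee Q Ω Ω) = nn u Ω
  rw [ee_Ω]

lemma pp_Ω_ne (hΩ : IsTraceVector N Ω) (hQN : ∀ a ∈ Q, a ∈ N)
    (hirr : ∀ z ∈ N, (∀ q ∈ Q, z * q = q * z) → ∃ c : ℂ, z = c • (1 : H →L[ℂ] H))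
    {u v : Nor N Q} (h : u⁻¹ * v ∉ UQ N Q) : pp Ω u (nn v Ω) = 0 := by
  rw [← pp_Ω v, ← mul_app, pp_orth hΩ hQN hirr h]
  rfl

lemma RR_pp (hΩ : IsTraceVector N Ω) (hQN : ∀ a ∈ Q, a ∈ N) (u h : Nor N Q) :
    RR hΩ (nn h) * pp Ω u = pp Ω (u * h) * RR hΩ (nn h) := by
  have hhN := nn_mem h
  set T := star (nn h) * RR hΩ (nn h) with hT
  have hTe : T * ee Q Ω = ee Q Ω * T := by
    refine ee_comm (fun q hq => ?_) fun q hq => ?_
    · rw [hT, mul_app, RR_app hΩ hhN (hQN q hq)]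
      exact mem_LQ (nn_conj' h hq)
    · rw [hT, star_mul, star_star, RR_star hΩ hhN, mul_app]
      have e1 : nn h (q Ω) = (nn h * q) Ω := rfl
      rw [e1, RR_app hΩ (star_mem hhN) (mul_mem hhN (hQN q hq))]
      exact mem_LQ (nn_conj h hq)
  have h1 : RR hΩ (nn h) * ee Q Ω = nn h * ee Q Ω * star (nn h) * RR hΩ (nn h) := by
    have h2 : nn h * (T * ee Q Ω) = nn h * (ee Q Ω * T) := by rw [hTe]
    rw [hT] at h2
    calc RR hΩ (nn h) * ee Q Ω = (nn h * star (nn h)) * RR hΩ (nn h) * ee Q Ω := by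
          rw [nn_mul_star, one_mul]
      _ = nn h * (star (nn h) * RR hΩ (nn h) * ee Q Ω) := by simp only [mul_assoc]
      _ = nn h * (ee Q Ω * (star (nn h) * RR hΩ (nn h))) := h2
      _ = _ := by simp only [mul_assoc]
  have h3 := VonNeumannAlgebra.mem_commutant_iff.1 (RR_mem hΩ hhN)
  unfold pp
  rw [nn_mul, star_mul]
  calc RR hΩ (nn h) * (nn u * ee Q Ω * star (nn u)) =
      (RR hΩ (nn h) * nn u) * ee Q Ω * star (nn u) := by simp only [mul_assoc]
    _ = (nn u * RR hΩ (nn h)) * ee Q Ω * star (nn u) := by rw [h3 _ (nn_mem u)]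
    _ = nn u * (RR hΩ (nn h) * ee Q Ω) * star (nn u) := by simp only [mul_assoc]
    _ = nn u * (nn h * ee Q Ω * star (nn h) * RR hΩ (nn h)) * star (nn u) := by rw [h1]
    _ = nn u * nn h * ee Q Ω * star (nn h) * (RR hΩ (nn h) * star (nn u)) := by
      simp only [mul_assoc]
    _ = nn u * nn h * ee Q Ω * star (nn h) * (star (nn u) * RR hΩ (nn h)) := by
      rw [h3 _ (star_mem (nn_mem u))]
    _ = _ := by simp only [mul_assoc]

lemma RR_comm_pp (hΩ : IsTraceVector N Ω) (hQN : ∀ a ∈ Q, a ∈ N) (u : Nor N Q) {q : H →L[ℂ] H}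
    (hq : q ∈ Q) : RR hΩ q * pp Ω u = pp Ω u * RR hΩ q := by
  have h3 := VonNeumannAlgebra.mem_commutant_iff.1 (RR_mem hΩ (hQN q hq))
  unfold pp
  calc RR hΩ q * (nn u * ee Q Ω * star (nn u)) =
      (RR hΩ q * nn u) * ee Q Ω * star (nn u) := by simp only [mul_assoc]
    _ = nn u * (RR hΩ q * ee Q Ω) * star (nn u) := by
      rw [← h3 _ (nn_mem u)]
      simp only [mul_assoc]
    _ = nn u * ee Q Ω * (RR hΩ q * star (nn u)) := by
      rw [ee_right hΩ hQN hq]
      simp only [mul_assoc]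
    _ = _ := by
      rw [← h3 _ (star_mem (nn_mem u))]
      simp only [mul_assoc]

/-- the vectors `u Ω`, `u` in the normalizer, span a dense subspace -/
lemma nor_dense (hΩ : IsTraceVector N Ω) (hreg : IsRegular N Q) :
    (Submodule.span ℂ (Set.range fun u : Nor N Q => nn u Ω)).topologicalClosure = ⊤ := by
  set K₀ := Submodule.span ℂ (Set.range fun u : Nor N Q => nn u Ω) with hK₀
  set K := K₀.topologicalClosure with hK
  have hKc : IsClosed (K : Set H) := K₀.isClosed_topologicalClosure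
  have : CompleteSpace K := hKc.completeSpace_coe
  have hmap : ∀ v : Nor N Q, ∀ x ∈ K, nn v x ∈ K := by
    intro v
    have h1 : Set.MapsTo (nn v) K₀ K₀ := by
      intro x hx
      have h2 : K₀ ≤ K₀.comap (nn v).toLinearMap := by
        rw [hK₀, Submodule.span_le]
        rintro _ ⟨u, rfl⟩
        exact Submodule.subset_span ⟨v * u, rfl⟩
      exact h2 hx
    intro x hx
    exact h1.closure (nn v).continuous hx
  have hp : K.starProjection ∈ N.commutant := by
    apply hreg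
    intro u hu
    have h1 := proj_comm K (nn (⟨u, hu⟩ : Nor N Q)) (hmap ⟨u, hu⟩) (hmap (⟨u, hu⟩)⁻¹)
    exact h1.symm
  have hΩK : Ω ∈ K := K₀.le_topologicalClosure (Submodule.subset_span ⟨1, rfl⟩)
  have h1 : K.starProjection = 1 := by
    refine ext_comm hΩ hp (one_mem _) ?_
    rw [Submodule.starProjection_eq_self_iff.2 hΩK]
    rfl
  rw [eq_top_iff]
  intro x _
  have h2 := K.starProjection_apply_mem x
  rw [h1] at h2
  exact h2

lemma ext_nor (hΩ : IsTraceVector N Ω) (hreg : IsRegular N Q) {S T : H →L[ℂ] H}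
    (h : ∀ u : Nor N Q, S (nn u Ω) = T (nn u Ω)) : S = T := by
  have h1 : Set.EqOn S T (Submodule.span ℂ (Set.range fun u : Nor N Q => nn u Ω)) := by
    intro x hx
    have h2 : Submodule.span ℂ (Set.range fun u : Nor N Q => nn u Ω) ≤
        LinearMap.eqLocus S.toLinearMap T.toLinearMap := by
      rw [Submodule.span_le]
      rintro _ ⟨u, rfl⟩
      exact h u
    exact h2 hx
  have h2 := h1.closure S.continuous T.continuous
  ext x
  apply h2
  have h3 := nor_dense hΩ hreg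
  have h4 : x ∈ (Submodule.span ℂ (Set.range fun u : Nor N Q => nn u Ω)).topologicalClosure := by
    rw [h3]
    trivial
  exact h4

section

variable (hΩ : IsTraceVector N Ω) (hQN : ∀ a ∈ Q, a ∈ N)
    (hirr : ∀ z ∈ N, (∀ q ∈ Q, z * q = q * z) → ∃ c : ℂ, z = c • (1 : H →L[ℂ] H))
    (hreg : IsRegular N Q)
include hΩ hQN hirr hreg

lemma XX_one : XX (isOrth hΩ hQN hirr) oneB = 1 := by
  refine ext_nor hΩ hreg fun u => ?_
  refine ext_inner_left ℂ fun ξ => ?_
  have h1 := XX_inner (isOrth hΩ hQN hirr) oneB ξ (nn u Ω)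
  have h2 := hasSum_single (f := fun g : Nor N Q ⧸ UQ N Q =>
    (((oneB : LI (Nor N Q ⧸ UQ N Q)) g : ℝ) : ℂ) * ⟪PG Ω g ξ, PG Ω g (nn u Ω)⟫_ℂ)
    (QuotientGroup.mk u : Nor N Q ⧸ UQ N Q) (by
      intro g hg
      have h3 : PG Ω g (nn u Ω) = 0 := by
        apply pp_Ω_ne hΩ hQN hirr
        intro h
        apply hg
        have h4 := QuotientGroup.eq.2 h
        rw [QuotientGroup.out_eq'] at h4
        exact h4
      rw [h3, inner_zero_right, mul_zero])
  rw [h1.unique h2, (isOrth hΩ hQN hirr).inner, PG_mk, pp_Ω]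
  change ((1 : ℝ) : ℂ) * _ = _
  rw [Complex.ofReal_one, one_mul]
  rfl

lemma sum_PG (η : H) : HasSum (fun g : Nor N Q ⧸ UQ N Q => ‖PG Ω g η‖ ^ 2) (‖η‖ ^ 2) := by
  have h1 := XX_diag (isOrth hΩ hQN hirr) oneB η
  rw [XX_one hΩ hQN hirr hreg] at h1
  have h2 : (⟪η, (1 : H →L[ℂ] H) η⟫_ℂ).re = ‖η‖ ^ 2 := by
    change (⟪η, η⟫_ℂ).re = _
    rw [inner_self_eq_norm_sq_to_K]
    norm_cast
  rw [h2] at h1
  refine h1.congr_fun (fun g => ?_) |> fun h => h
  change _ = (1 : ℝ) * _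
  rw [one_mul]

/-- the operator given by a function on the normalizer which is right `U(Q)`-invariant -/
noncomputable def xf (f : LI (Nor N Q)) : H →L[ℂ] H :=
  XX (isOrth hΩ hQN hirr) (cp (fun g : Nor N Q ⧸ UQ N Q => g.out) f)

omit hreg in
lemma xf_mem (f : LI (Nor N Q)) :
    XX (isOrth hΩ hQN hirr) (cp (fun g : Nor N Q ⧸ UQ N Q => g.out) f) ∈ basic N Q Ω := by
  rw [mem_basic hΩ hQN]
  intro q hq
  refine XX_comm _ _ _ (fun g => RR_comm_pp hΩ hQN _ hq) fun g => ?_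
  rw [RR_star hΩ (hQN q hq)]
  exact RR_comm_pp hΩ hQN _ (star_mem hq)

lemma hull_meanC (f : LI (Nor N Q)) (hf : f ∈ RI (UQ N Q)) {y : H →L[ℂ] H}
    (hy : y ∈ convexHull ℝ {T : H →L[ℂ] H | ∃ u ∈ unitary (H →L[ℂ] H), u ∈ N ∧
      T = u * XX (isOrth hΩ hQN hirr) (cp (fun g : Nor N Q ⧸ UQ N Q => g.out) f) * star u}) :
    ∃ m : LI (Nor N Q) → ℝ, IsMean m ∧ ∀ h, m (RT h f) = (⟪nn h Ω, y (nn h Ω)⟫_ℂ).re := by
  set x := XX (isOrth hΩ hQN hirr) (cp (fun g : Nor N Q ⧸ UQ N Q => g.out) f) with hx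
  have h1 : convexHull ℝ {T : H →L[ℂ] H | ∃ u ∈ unitary (H →L[ℂ] H), u ∈ N ∧
      T = u * x * star u} ⊆
      {y | ∃ m : LI (Nor N Q) → ℝ, IsMean m ∧ ∀ h, m (RT h f) =
        (⟪nn h Ω, y (nn h Ω)⟫_ℂ).re} := by
    apply convexHull_min
    · rintro T ⟨w, hw, hwN, rfl⟩
      set η := (star w) Ω with hη
      have hη1 : ‖η‖ = 1 := by
        rw [hη, isometry_of_mul (T := star w), hΩ.1]
        rw [star_star]
        exact Unitary.mul_star_self_of_mem hw
      have h4 := sum_PG hΩ hQN hirr hreg η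
      rw [hη1, one_pow] at h4
      have hs : ∀ F : LI (Nor N Q),
          Summable fun g : Nor N Q ⧸ UQ N Q => F g.out * ‖PG Ω g η‖ ^ 2 := by
        intro F
        refine Summable.of_norm_bounded (h4.summable.mul_left ‖F‖) (fun g => ?_)
        rw [norm_mul, norm_pow, norm_norm]
        exact mul_le_mul_of_nonneg_right (abs_le_norm F _) (by positivity)
      refine ⟨fun F => ∑' g : Nor N Q ⧸ UQ N Q, F g.out * ‖PG Ω g η‖ ^ 2, ⟨?_, ?_, ?_, ?_⟩, ?_⟩
      · intro F F'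
        rw [← (hs F).tsum_add (hs F')]
        refine tsum_congr fun g => ?_
        change (F g.out + F' g.out) * _ = _
        ring
      · intro a F
        rw [← tsum_mul_left]
        refine tsum_congr fun g => ?_
        change (a * F g.out) * _ = _
        ring
      · intro F hF
        simp only [hF, one_mul]
        exact h4.tsum_eq
      · intro F hF
        exact tsum_nonneg fun g => mul_nonneg (hF _) (by positivity)
      · intro h
        have h5 : ⟪nn h Ω, (w * x * star w) (nn h Ω)⟫_ℂ =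
            ⟪(star w) (nn h Ω), x ((star w) (nn h Ω))⟫_ℂ := by
          rw [star_inner]
          rfl
        have h6 : (star w) (nn h Ω) = RR hΩ (nn h) η := by
          rw [hη, RR_app hΩ (nn_mem h) (star_mem hwN)]
        rw [h5, h6]
        have h7 := XX_diag (isOrth hΩ hQN hirr) (cp (fun g : Nor N Q ⧸ UQ N Q => g.out) f)
          (RR hΩ (nn h) η)
        have h8 := (Equiv.hasSum_iff (Equiv.mulRight (QuotientGroup.mk h : Nor N Q ⧸ UQ N Q))).2 h7
        refine HasSum.tsum_eq ?_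
        refine h8.congr_fun (fun g => ?_) |> fun h => h
        obtain ⟨v, rfl⟩ := QuotientGroup.mk_surjective g
        change f ((QuotientGroup.mk v : Nor N Q ⧸ UQ N Q).out * h) *
            ‖PG Ω (QuotientGroup.mk v : Nor N Q ⧸ UQ N Q) η‖ ^ 2 =
          f (((QuotientGroup.mk v : Nor N Q ⧸ UQ N Q) * QuotientGroup.mk h).out) *
            ‖PG Ω ((QuotientGroup.mk v : Nor N Q ⧸ UQ N Q) * QuotientGroup.mk h)
              (RR hΩ (nn h) η)‖ ^ 2
        have e1 : (QuotientGroup.mk v : Nor N Q ⧸ UQ N Q) * QuotientGroup.mk h =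
            QuotientGroup.mk (v * h) := rfl
        rw [e1, PG_mk, PG_mk]
        have e2 : ‖pp Ω (v * h) (RR hΩ (nn h) η)‖ = ‖pp Ω v η‖ := by
          rw [← mul_app, ← RR_pp hΩ hQN, mul_app]
          apply isometry_of_mul
          rw [RR_star hΩ (nn_mem h), RR_mul hΩ (star_mem (nn_mem h)) (nn_mem h), nn_mul_star,
            RR_one]
        have hinv : ∀ a b : Nor N Q, (QuotientGroup.mk a : Nor N Q ⧸ UQ N Q) =
            QuotientGroup.mk b → f a = f b := by
          intro a b hab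
          have h9 := QuotientGroup.eq.1 hab
          have h10 := hf a _ h9
          rw [mul_inv_cancel_left] at h10
          exact h10.symm
        rw [e2]
        congr 1
        apply hinv
        rw [QuotientGroup.out_eq', QuotientGroup.mk_mul, QuotientGroup.out_eq',
          QuotientGroup.mk_mul]
    · rintro y ⟨m, hm, hm'⟩ y' ⟨m', hn, hn'⟩ a b ha hb hab
      refine ⟨fun F => a * m F + b * m' F, ⟨?_, ?_, ?_, ?_⟩, ?_⟩
      · intro F F'
        rw [hm.add, hn.add]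
        ring
      · intro c F
        rw [hm.smul, hn.smul]
        ring
      · intro F hF
        rw [hm.one F hF, hn.one F hF]
        linarith
      · intro F hF
        have := hm.nonneg F hF
        have := hn.nonneg F hF
        positivity
      · intro h
        change a * m (RT h f) + b * m' (RT h f) = _
        rw [hm', hn']
        have e1 : (a • y + b • y') (nn h Ω) =
          (a : ℂ) • y (nn h Ω) + (b : ℂ) • y' (nn h Ω) := rfl
        rw [e1, inner_add_right, inner_smul_right, inner_smul_right, Complex.add_re,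
          Complex.re_ofReal_mul, Complex.re_ofReal_mul]
  exact h1 hy

theorem relMean_of_WRDP_basic (HW : WRDP N (basic N Q Ω)) : RelMean (UQ N Q) := by
  rw [relMean_iff]
  refine mitchell (RI (UQ N Q)) ?_ ?_
  · intro m hm f hf h k hk
    rw [TT_apply, TT_apply]
    congr 1
    ext g
    change f (g * (h * k)) = f (g * h)
    rw [← mul_assoc, hf _ k hk]
  · intro f hf
    obtain ⟨c, hc⟩ := HW _ (xf_mem hΩ hQN hirr f)
    refine ⟨c.re, fun F ε hε => ?_⟩
    obtain ⟨y, hy, hy'⟩ := hc F.card (fun i => nn (F.equivFin.symm i : Nor N Q) Ω)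
      (fun i => nn (F.equivFin.symm i : Nor N Q) Ω) ε hε
    obtain ⟨m, hm, hm'⟩ := hull_meanC hΩ hQN hirr hreg f hf hy
    refine ⟨m, hm, fun h hh => ?_⟩
    have h1 := hy' (F.equivFin ⟨h, hh⟩)
    simp only [Equiv.symm_apply_apply] at h1
    have h2 : ⟪nn h Ω, (y - c • (1 : H →L[ℂ] H)) (nn h Ω)⟫_ℂ = ⟪nn h Ω, y (nn h Ω)⟫_ℂ - c := by
      have h6 : (y - c • (1 : H →L[ℂ] H)) (nn h Ω) = y (nn h Ω) - c • nn h Ω := rfl
      have h7 : ‖nn h Ω‖ = 1 := by
        rw [isometry_of_mul (nn_star_mul h), hΩ.1]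
      rw [h6, inner_sub_right, inner_smul_right, inner_self_eq_norm_sq_to_K, h7]
      norm_num
    rw [h2] at h1
    rw [hm']
    have h3 := Complex.abs_re_le_norm (⟪nn h Ω, y (nn h Ω)⟫_ℂ - c)
    rw [Complex.sub_re] at h3
    exact h3.trans h1.le

end

end Pool.Agent.Y671.WD
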