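import Mathlib
import Pool.Agent.Y671.WD.Reg2

/-!
Sufficiency of the amenability of the normalizer quotient.
-/

set_option autoImplicit false
open scoped InnerProductSpace
open Finset Filter Topology

namespace Pool.Agent.Y671.WD

variable {H : Type} [NormedAddCommGroup H] [InnerProductSpace ℂ H] [CompleteSpace H]
  {N Q : VonNeumannAlgebra H} {Ω : H}

/-- the columns of an operator at the vectors `h Ω` -/
noncomputable def VC (Ω : H) (F : Finset (Nor N Q)) :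
    (H →L[ℂ] H) →ₗ[ℝ] PiLp 2 (fun _ : F => H) where
  toFun y := WithLp.toLp 2 fun h => y (nn (h : Nor N Q) Ω)
  map_add' _ _ := rfl
  map_smul' _ _ := rfl

/-- a diagonal isometry of a finite sum -/
noncomputable def diagIso (F : Finset (Nor N Q)) (T : F → H →L[ℂ] H) (hT : ∀ h ξ, ‖T h ξ‖ = ‖ξ‖) :
    PiLp 2 (fun _ : F => H) →ₗᵢ[ℝ] PiLp 2 (fun _ : F => H) where
  toFun w := WithLp.toLp 2 fun h => T h (w h)
  map_add' v w := by
    ext h
    change T h (v h + w h) = T h (v h) + T h (w h)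
    rw [map_add]
  map_smul' a w := by
    ext h
    change T h ((a : ℂ) • w h) = (a : ℂ) • T h (w h)
    rw [map_smul]
  norm_map' w := by
    have h1 : ‖(WithLp.toLp 2 fun h => T h (w h) : PiLp 2 (fun _ : F => H))‖ = ‖w‖ := by
      rw [PiLp.norm_eq_of_L2, PiLp.norm_eq_of_L2]
      congr 1
      refine sum_congr rfl fun h _ => ?_
      have : ‖T h (w h)‖ = ‖w h‖ := hT _ _
      rw [← this]
    exact h1

section

variable (hΩ : IsTraceVector N Ω) (hQN : ∀ a ∈ Q, a ∈ N)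
    (hirr : ∀ z ∈ N, (∀ q ∈ Q, z * q = q * z) → ∃ c : ℂ, z = c • (1 : H →L[ℂ] H))
include hΩ hQN hirr

theorem stepC {x : H →L[ℂ] H} (hx : x ∈ basic N Q Ω) (F : Finset (Nor N Q)) (ε : ℝ) (hε : 0 < ε) :
    ∃ A ∈ convexHull ℝ {T : H →L[ℂ] H | ∃ u ∈ unitary (H →L[ℂ] H), u ∈ Q ∧ T = u * x * star u},
      ∀ h ∈ F, ‖A (nn h Ω) - ⟪nn h Ω, x (nn h Ω)⟫_ℂ • nn h Ω‖ < ε := by
  classical
  set O : Set (H →L[ℂ] H) := {T | ∃ u ∈ unitary (H →L[ℂ] H), u ∈ Q ∧ T = u * x * star u} with hO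
  have hxc := (mem_basic hΩ hQN).1 hx
  -- conjugates are in the basic construction
  have hOc : ∀ T ∈ O, ∀ q ∈ Q, ∀ ξ, T (RR hΩ q ξ) = RR hΩ q (T ξ) := by
    rintro _ ⟨u, hu, huQ, rfl⟩ q hq ξ
    have h1 : u * x * star u ∈ basic N Q Ω :=
      mul_mem (mul_mem (N_le_basic hΩ hQN u (hQN u huQ)) hx)
        (N_le_basic hΩ hQN _ (star_mem (hQN u huQ)))
    have h2 := congrArg (fun S : H →L[ℂ] H => S ξ) ((mem_basic hΩ hQN).1 h1 q hq)
    exact h2.symm
  -- the twisting elements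
  have hq : ∀ u : H →L[ℂ] H, u ∈ Q → ∀ h : Nor N Q, star (nn h) * star u * nn h ∈ Q :=
    fun u hu h => nn_conj' h (star_mem hu)
  have hqu : ∀ u : H →L[ℂ] H, u ∈ unitary (H →L[ℂ] H) → ∀ h : Nor N Q,
      star (nn h) * star u * nn h ∈ unitary (H →L[ℂ] H) := fun u hu h =>
    mul_mem (mul_mem (Unitary.star_mem (nn_unitary h)) (Unitary.star_mem hu)) (nn_unitary h)
  have hst : ∀ u : H →L[ℂ] H, u ∈ Q → ∀ h : Nor N Q,
      (star u) (nn h Ω) = RR hΩ (star (nn h) * star u * nn h) (nn h Ω) := by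
    intro u hu h
    rw [RR_app hΩ (hQN _ (hq u hu h)) (nn_mem h)]
    have e1 : nn h ((star (nn h) * star u * nn h) Ω) =
      (nn h * star (nn h) * (star u * nn h)) Ω := rfl
    rw [e1, nn_mul_star, one_mul]
    rfl
  let _ : InnerProductSpace ℝ H := InnerProductSpace.rclikeToReal ℂ H
  set X : Set (PiLp 2 (fun _ : F => H)) := VC Ω F '' O with hX
  have hXne : X.Nonempty := ⟨_, _, ⟨1, one_mem _, one_mem Q, rfl⟩, rfl⟩
  obtain ⟨w, hw, hinv⟩ := exists_fixed X hXne {u : H →L[ℂ] H // u ∈ unitary (H →L[ℂ] H) ∧ u ∈ Q}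
    (fun u => diagIso F (fun h => u.1 * RR hΩ (star (nn (h : Nor N Q)) * star u.1 * nn (h : Nor N Q)))
      (fun h => isometry_of_mul (ad_star hΩ u.2.1 (hqu u.1 u.2.1 h) (hQN _ u.2.2)
        (hQN _ (hq u.1 u.2.2 h))))) (by
      rintro ⟨v, hv, hvQ⟩ _ ⟨_, ⟨u, hu, huQ, rfl⟩, rfl⟩
      refine ⟨v * u * x * star (v * u), ⟨v * u, mul_mem hv hu, mul_mem hvQ huQ, rfl⟩, ?_⟩
      ext h
      change (v * u * x * star (v * u)) (nn (h : Nor N Q) Ω) =
        v (RR hΩ (star (nn (h : Nor N Q)) * star v * nn (h : Nor N Q))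
          ((u * x * star u) (nn (h : Nor N Q) Ω)))
      rw [← hOc _ ⟨u, hu, huQ, rfl⟩ _ (hq v hvQ h), ← hst v hvQ h, star_mul]
      rfl)
  have hcoord : ∀ h : F, ⟪nn (h : Nor N Q) Ω, w h⟫_ℂ =
      ⟪nn (h : Nor N Q) Ω, x (nn (h : Nor N Q) Ω)⟫_ℂ := by
    intro h
    have h1 : closure (convexHull ℝ X) ⊆ {v : PiLp 2 (fun _ : F => H) |
        ⟪nn (h : Nor N Q) Ω, v h⟫_ℂ = ⟪nn (h : Nor N Q) Ω, x (nn (h : Nor N Q) Ω)⟫_ℂ} := by
      apply hull_subset
      · rintro _ ⟨_, ⟨u, hu, huQ, rfl⟩, rfl⟩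
        change ⟪nn (h : Nor N Q) Ω, u (x ((star u) (nn (h : Nor N Q) Ω)))⟫_ℂ = _
        rw [← star_inner, hst u huQ h]
        set r := RR hΩ (star (nn (h : Nor N Q)) * star u * nn (h : Nor N Q)) with hr
        have h2 := congrArg (fun S : H →L[ℂ] H => S (nn (h : Nor N Q) Ω)) (hxc _ (hq u huQ h))
        simp only [mul_app] at h2
        rw [← h2, ← inner_star, ← mul_app, RR_star hΩ (hQN _ (hq u huQ h)),
          RR_mul hΩ (star_mem (hQN _ (hq u huQ h))) (hQN _ (hq u huQ h)),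
          Unitary.mul_star_self_of_mem (hqu u hu h), RR_one]
        rfl
      · exact isClosed_eq (continuous_const.inner (PiLp.continuous_apply 2 _ h)) continuous_const
      · intro v hv v' hv' s t hs ht hst
        simp only [Set.mem_ofPred_eq] at hv hv' ⊢
        have e1 : (s • v + t • v') h = (s : ℂ) • v h + (t : ℂ) • v' h := rfl
        rw [e1, inner_add_right, inner_smul_right, inner_smul_right, hv, hv', ← add_mul]
        have : (s : ℂ) + t = 1 := by exact_mod_cast hst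
        rw [this, one_mul]
    exact h1 hw
  have hval : ∀ h : F, w h = ⟪nn (h : Nor N Q) Ω, x (nn (h : Nor N Q) Ω)⟫_ℂ • nn (h : Nor N Q) Ω := by
    intro h
    have hhN := nn_mem (h : Nor N Q)
    set ξ := RR hΩ (star (nn (h : Nor N Q))) (w h) with hξ
    have h1 : ξ = ⟪Ω, ξ⟫_ℂ • Ω := by
      apply ergodic hΩ hQN hirr
      intro u hu huQ
      have h2 := congrArg (fun v : PiLp 2 (fun _ : F => H) => v h) (hinv ⟨u, hu, huQ⟩)
      change u (RR hΩ (star (nn (h : Nor N Q)) * star u * nn (h : Nor N Q)) (w h)) = w h at h2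
      have h3 : RR hΩ (star u) * RR hΩ (star (nn (h : Nor N Q))) = RR hΩ (star (nn (h : Nor N Q))) *
          RR hΩ (star (nn (h : Nor N Q)) * star u * nn (h : Nor N Q)) := by
        rw [RR_mul hΩ (star_mem (hQN u huQ)) (star_mem hhN), RR_mul hΩ (star_mem hhN)
          (hQN _ (hq u huQ h)), mul_assoc, nn_mul_star, mul_one]
      have h4 := congrArg (fun S : H →L[ℂ] H => S (w h)) h3
      simp only [mul_app] at h4
      rw [hξ, h4, ← comm_app (RR_mem hΩ (star_mem hhN)) (hQN u huQ), h2]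
    have h2 : w h = ⟪Ω, ξ⟫_ℂ • nn (h : Nor N Q) Ω := by
      have h3 : RR hΩ (nn (h : Nor N Q)) ξ = w h := by
        rw [hξ, ← mul_app, RR_mul hΩ hhN (star_mem hhN), nn_star_mul, RR_one]
        rfl
      rw [← h3]
      conv_lhs => rw [h1]
      rw [map_smul, RR_Ω hΩ hhN]
    have h3 : ⟪Ω, ξ⟫_ℂ = ⟪nn (h : Nor N Q) Ω, w h⟫_ℂ := by
      rw [hξ, ← RR_star hΩ hhN, inner_star, RR_Ω hΩ hhN]
    rw [h2, h3, hcoord h]
  rw [← LinearMap.image_convexHull] at hw
  obtain ⟨_, ⟨A, hA, rfl⟩, hAw⟩ := Metric.mem_closure_iff.1 hw ε hε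
  refine ⟨A, hA, fun h hh => ?_⟩
  have h1 : ‖(VC Ω F A - w) ⟨h, hh⟩‖ ≤ ‖VC Ω F A - w‖ := PiLp.norm_apply_le _ _
  rw [dist_comm, dist_eq_norm] at hAw
  have h2 : (VC Ω F A - w) ⟨h, hh⟩ = A (nn h Ω) - ⟪nn h Ω, x (nn h Ω)⟫_ℂ • nn h Ω := by
    rw [← hval ⟨h, hh⟩]
    rfl
  rw [← h2]
  exact h1.trans_lt hAw

end

/-- on bounded sets, smallness on finitely many vectors `h Ω` gives weak smallness -/
lemma wotC (hΩ : IsTraceVector N Ω) (hreg : IsRegular N Q) (ξ η : H) (ε B : ℝ) (hε : 0 < ε)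
    (hB : 0 ≤ B) :
    ∃ F : Finset (Nor N Q), ∃ δ : ℝ, 0 < δ ∧ ∀ T : H →L[ℂ] H, ‖T‖ ≤ B →
      (∀ h ∈ F, ‖T (nn h Ω)‖ ≤ δ) → ‖⟪η, T ξ⟫_ℂ‖ < ε := by
  classical
  set ρ := ε / (2 * (1 + ‖η‖) * (1 + B)) with hρ
  have hρ0 : 0 < ρ := by positivity
  have h0 : ξ ∈ closure ((Submodule.span ℂ (Set.range fun u : Nor N Q => nn u Ω) :
      Submodule ℂ H) : Set H) := by
    have h4 : ξ ∈ (Submodule.span ℂ (Set.range fun u : Nor N Q => nn u Ω)).topologicalClosure := by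
      rw [nor_dense hΩ hreg]
      trivial
    exact h4
  obtain ⟨s, hs, hsξ⟩ := Metric.mem_closure_iff.1 h0 ρ hρ0
  rw [dist_eq_norm] at hsξ
  obtain ⟨c, hc⟩ := (Finsupp.mem_span_range_iff_exists_finsupp).1 hs
  set D : ℝ := ∑ u ∈ c.support, ‖c u‖ with hD
  have hD0 : 0 ≤ D := sum_nonneg fun _ _ => norm_nonneg _
  refine ⟨c.support, ε / (2 * (1 + ‖η‖) * (1 + D)), by positivity, fun T hT hT' => ?_⟩
  have hs' : s = ∑ u ∈ c.support, c u • nn u Ω := by
    rw [← hc]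
    rfl
  have e1 : T ξ = T (ξ - s) + ∑ u ∈ c.support, c u • T (nn u Ω) := by
    have e2 : ∑ u ∈ c.support, c u • T (nn u Ω) = T s := by
      rw [hs', map_sum]
      simp only [map_smul]
    rw [e2, map_sub]
    abel
  have h5 : ‖T ξ‖ ≤ B * ρ + D * (ε / (2 * (1 + ‖η‖) * (1 + D))) := by
    rw [e1]
    refine (norm_add_le _ _).trans (add_le_add ?_ ?_)
    · exact (T.le_opNorm _).trans (mul_le_mul hT hsξ.le (norm_nonneg _) hB)
    · refine (norm_sum_le _ _).trans ?_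
      rw [hD, sum_mul]
      refine sum_le_sum fun u hu => ?_
      rw [norm_smul]
      exact mul_le_mul_of_nonneg_left (hT' u hu) (norm_nonneg _)
  have h7 : B * ρ < ε / (2 * (1 + ‖η‖)) := by
    rw [hρ, ← div_div, mul_div_assoc', div_lt_iff₀ (by positivity)]
    have : 0 < ε / (2 * (1 + ‖η‖)) := by positivity
    nlinarith
  have h8 : D * (ε / (2 * (1 + ‖η‖) * (1 + D))) ≤ ε / (2 * (1 + ‖η‖)) := by
    rw [← div_div, mul_div_assoc', div_le_iff₀ (by positivity)]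
    have : 0 < ε / (2 * (1 + ‖η‖)) := by positivity
    nlinarith
  have h9 : ‖T ξ‖ < ε / (1 + ‖η‖) := by
    have : ε / (1 + ‖η‖) = ε / (2 * (1 + ‖η‖)) + ε / (2 * (1 + ‖η‖)) := by
      field_simp
      ring
    linarith
  calc ‖⟪η, T ξ⟫_ℂ‖ ≤ ‖η‖ * ‖T ξ‖ := norm_inner_le_norm _ _
    _ ≤ (1 + ‖η‖) * ‖T ξ‖ := mul_le_mul_of_nonneg_right (by linarith) (norm_nonneg _)
    _ < (1 + ‖η‖) * (ε / (1 + ‖η‖)) := mul_lt_mul_of_pos_left h9 (by positivity)
    _ = ε := by field_simp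

lemma wotC_fin (hΩ : IsTraceVector N Ω) (hreg : IsRegular N Q) (n : ℕ) (ξ η : Fin n → H)
    (ε B : ℝ) (hε : 0 < ε) (hB : 0 ≤ B) :
    ∃ F : Finset (Nor N Q), ∃ δ : ℝ, 0 < δ ∧ ∀ T : H →L[ℂ] H, ‖T‖ ≤ B →
      (∀ h ∈ F, ‖T (nn h Ω)‖ ≤ δ) → ∀ i, ‖⟪η i, T (ξ i)⟫_ℂ‖ < ε := by
  classical
  choose F δ hδ H using fun i => wotC (Q := Q) hΩ hreg (ξ i) (η i) ε B hε hB
  refine ⟨univ.biUnion F, (1 + ∑ i, (δ i)⁻¹)⁻¹, ?_, ?_⟩
  · have : 0 ≤ ∑ i, (δ i)⁻¹ := sum_nonneg fun i _ => (inv_pos.2 (hδ i)).le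
    positivity
  · intro T hT hT' i
    refine H i T hT fun h hh => (hT' h (mem_biUnion.2 ⟨i, mem_univ i, hh⟩)).trans ?_
    have h1 : (δ i)⁻¹ ≤ ∑ i, (δ i)⁻¹ :=
      single_le_sum (f := fun i => (δ i)⁻¹) (fun i _ => (inv_pos.2 (hδ i)).le) (mem_univ i)
    have h2 : (δ i)⁻¹ ≤ 1 + ∑ i, (δ i)⁻¹ := by linarith
    have h3 := inv_anti₀ (inv_pos.2 (hδ i)) h2
    rwa [inv_inv] at h3

/-- conjugation by a unitary does not increase the norm -/
lemma norm_conj_le {u : H →L[ℂ] H} (hu : u ∈ unitary (H →L[ℂ] H)) (x : H →L[ℂ] H) :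
    ‖u * x * star u‖ ≤ ‖x‖ := by
  refine ContinuousLinearMap.opNorm_le_bound _ (norm_nonneg _) fun f => ?_
  rw [mul_app, mul_app, isometry_of_mul (Unitary.star_mul_self_of_mem hu)]
  refine (x.le_opNorm _).trans ?_
  rw [isometry_of_mul (T := star u)]
  rw [star_star]
  exact Unitary.mul_star_self_of_mem hu

theorem WRDP_basic_of_relMean (hΩ : IsTraceVector N Ω) (hQN : ∀ a ∈ Q, a ∈ N)
    (hirr : ∀ z ∈ N, (∀ q ∈ Q, z * q = q * z) → ∃ c : ℂ, z = c • (1 : H →L[ℂ] H))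
    (hreg : IsRegular N Q) (hS : RelMean (UQ N Q)) : WRDP N (basic N Q Ω) := by
  classical
  rw [relMean_iff] at hS
  obtain ⟨m, hm, hinv⟩ := hS
  intro x hx
  have hxc := (mem_basic hΩ hQN).1 hx
  set O : Set (H →L[ℂ] H) := {T | ∃ u ∈ unitary (H →L[ℂ] H), u ∈ N ∧ T = u * x * star u} with hO
  set d : Nor N Q → ℂ := fun h => ⟪nn h Ω, x (nn h Ω)⟫_ℂ with hd
  have hn1 : ∀ h : Nor N Q, ‖nn h Ω‖ = 1 := by
    intro h
    rw [isometry_of_mul (nn_star_mul h), hΩ.1]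
  have hdb : ∀ h, ‖d h‖ ≤ ‖x‖ := by
    intro h
    refine (norm_inner_le_norm _ _).trans ?_
    rw [hn1, one_mul]
    refine (x.le_opNorm _).trans ?_
    rw [hn1, mul_one]
  have hdS : ∀ h, ∀ k ∈ UQ N Q, d (h * k) = d h := by
    intro h k hk
    have hkQ : nn k ∈ Q := hk
    have h1 : nn (h * k) Ω = RR hΩ (nn k) (nn h Ω) := by
      rw [RR_app hΩ (nn_mem k) (nn_mem h)]
      rfl
    simp only [hd]
    have h2 := congrArg (fun S : H →L[ℂ] H => S (nn h Ω)) (hxc _ hkQ)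
    simp only [mul_app] at h2
    rw [h1, ← h2, ← inner_star, ← mul_app, RR_star hΩ (nn_mem k),
      RR_mul hΩ (star_mem (nn_mem k)) (nn_mem k), nn_mul_star, RR_one]
    rfl
  set dr : LI (Nor N Q) := mkB (fun h => (d h).re) ‖x‖ fun h =>
    (Complex.abs_re_le_norm _).trans (hdb h) with hdr
  set di : LI (Nor N Q) := mkB (fun h => (d h).im) ‖x‖ fun h =>
    (Complex.abs_im_le_norm _).trans (hdb h) with hdi
  have hdrS : dr ∈ RI (UQ N Q) := by
    intro g k hk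
    change (d (g * k)).re = (d g).re
    rw [hdS g k hk]
  have hdiS : di ∈ RI (UQ N Q) := by
    intro g k hk
    change (d (g * k)).im = (d g).im
    rw [hdS g k hk]
  set c : ℂ := ⟨m dr, m di⟩ with hc
  refine ⟨c, fun n ξ η ε hε => ?_⟩
  obtain ⟨F, δ, hδ, HF⟩ := wotC_fin (Q := Q) hΩ hreg n ξ η ε (‖x‖ + ‖c‖) hε (by positivity)
  have h1 := mem_closure_of_mean (fun i : F × Fin 2 => if i.2 = 0 then RT (i.1 : Nor N Q) dr
    else RT (i.1 : Nor N Q) di) hm
  obtain ⟨z, hz, hz'⟩ := Metric.mem_closure_iff.1 h1 (δ / 4) (by positivity)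
  rw [_root_.convexHull_eq] at hz
  obtain ⟨κ, t, w, p, hw0, hw1, hp, hcm⟩ := hz
  rw [Finset.centerMass_eq_of_sum_1 _ _ hw1] at hcm
  have hp' : ∀ j : κ, ∃ g : Nor N Q, j ∈ t → (fun i : F × Fin 2 =>
      (if i.2 = 0 then RT (i.1 : Nor N Q) dr else RT (i.1 : Nor N Q) di : LI (Nor N Q)) g) = p j := by
    intro j
    by_cases hj : j ∈ t
    · obtain ⟨g, hg⟩ := hp j hj
      exact ⟨g, fun _ => hg⟩
    · exact ⟨1, fun h => absurd h hj⟩
  choose g hg using hp'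
  have hre : ∀ h ∈ F, |(∑ j ∈ t, w j * (d (g j * h)).re) - m dr| < δ / 4 := by
    intro h hh
    have h2 := (dist_pi_lt_iff (by positivity)).1 hz' (⟨h, hh⟩, 0)
    rw [Real.dist_eq, abs_sub_comm] at h2
    convert h2 using 3
    · rw [← hcm, Finset.sum_apply]
      refine sum_congr rfl fun j hj => ?_
      rw [Pi.smul_apply, ← hg j hj]
      rfl
    · exact (hinv dr hdrS h).symm
  have him : ∀ h ∈ F, |(∑ j ∈ t, w j * (d (g j * h)).im) - m di| < δ / 4 := by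
    intro h hh
    have h2 := (dist_pi_lt_iff (by positivity)).1 hz' (⟨h, hh⟩, 1)
    rw [Real.dist_eq, abs_sub_comm] at h2
    convert h2 using 3
    · rw [← hcm, Finset.sum_apply]
      refine sum_congr rfl fun j hj => ?_
      rw [Pi.smul_apply, ← hg j hj]
      rfl
    · exact (hinv di hdiS h).symm
  obtain ⟨A, hA, hA'⟩ := stepC hΩ hQN hirr hx ((t ×ˢ F).image fun q => g q.1 * q.2) (δ / 2)
    (by positivity)
  have hAO : A ∈ convexHull ℝ O := by
    refine convexHull_mono ?_ hA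
    rintro _ ⟨u, hu, huQ, rfl⟩
    exact ⟨u, hu, hQN u huQ, rfl⟩
  -- conjugation leaves the hull invariant
  have hconj : ∀ v : Nor N Q, ∀ y ∈ convexHull ℝ O, star (nn v) * y * nn v ∈ convexHull ℝ O := by
    intro v y hy
    have h2 : convexHull ℝ O ⊆ {y | star (nn v) * y * nn v ∈ convexHull ℝ O} := by
      apply convexHull_min
      · rintro _ ⟨u, hu, huN, rfl⟩
        apply subset_convexHull ℝ _
        refine ⟨star (nn v) * u, mul_mem (Unitary.star_mem (nn_unitary v)) hu,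
          mul_mem (star_mem (nn_mem v)) huN, ?_⟩
        rw [star_mul, star_star]
        simp only [mul_assoc]
      · intro y hy y' hy' a b ha hb hab
        simp only [Set.mem_ofPred_eq] at hy hy' ⊢
        rw [mul_add, add_mul, mul_smul_comm, mul_smul_comm, smul_mul_assoc, smul_mul_assoc]
        exact convex_convexHull ℝ _ hy hy' ha hb hab
    exact h2 hy
  set y := ∑ j ∈ t, w j • (star (nn (g j)) * A * nn (g j)) with hy
  have hyco : y ∈ convexHull ℝ O :=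
    (convex_convexHull ℝ _).sum_mem hw0 hw1 fun j _ => hconj (g j) A hAO
  refine ⟨y, hyco, HF _ ?_ ?_⟩
  · refine (norm_sub_le _ _).trans (add_le_add ?_ ?_)
    · have h2 : convexHull ℝ O ⊆ Metric.closedBall 0 ‖x‖ := by
        apply convexHull_min
        · rintro _ ⟨u, hu, huN, rfl⟩
          rw [mem_closedBall_zero_iff]
          exact norm_conj_le hu x
        · exact convex_closedBall _ _
      have := h2 hyco
      rwa [mem_closedBall_zero_iff] at this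
    · refine ContinuousLinearMap.opNorm_le_bound _ (norm_nonneg _) fun f => ?_
      change ‖c • f‖ ≤ _
      rw [norm_smul]
  · intro h hh
    have hback : ∀ j, (star (nn (g j))) (nn (g j * h) Ω) = nn h Ω := by
      intro j
      rw [nn_mul, ← mul_app, ← mul_assoc, nn_star_mul, one_mul]
    have e1 : (y - c • (1 : H →L[ℂ] H)) (nn h Ω) =
        ∑ j ∈ t, w j • (star (nn (g j))) (A (nn (g j * h) Ω) - d (g j * h) • nn (g j * h) Ω) +
        ((∑ j ∈ t, (w j : ℂ) * d (g j * h)) - c) • nn h Ω := by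
      have e2 : (y - c • (1 : H →L[ℂ] H)) (nn h Ω) = y (nn h Ω) - c • nn h Ω := rfl
      have e3 : y (nn h Ω) = ∑ j ∈ t, w j • (star (nn (g j))) (A (nn (g j * h) Ω)) := by
        rw [hy, _root_.sum_apply]
        rfl
      have e4 : ∀ j ∈ t, w j • (star (nn (g j))) (A (nn (g j * h) Ω) -
          d (g j * h) • nn (g j * h) Ω) = w j • (star (nn (g j))) (A (nn (g j * h) Ω)) -
            ((w j : ℂ) * d (g j * h)) • nn h Ω := by
        intro j _
        rw [map_sub, map_smul, hback, smul_sub]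
        congr 1
        exact (mul_smul (w j : ℂ) (d (g j * h)) (nn h Ω)).symm
      rw [sum_congr rfl e4, sum_sub_distrib, ← sum_smul, e2, e3, sub_smul]
      abel
    rw [e1]
    have h3 : ‖∑ j ∈ t, w j • (star (nn (g j))) (A (nn (g j * h) Ω) -
        d (g j * h) • nn (g j * h) Ω)‖ ≤ δ / 2 := by
      refine (norm_sum_le _ _).trans ?_
      have h4 : ∀ j ∈ t, ‖w j • (star (nn (g j))) (A (nn (g j * h) Ω) -
          d (g j * h) • nn (g j * h) Ω)‖ ≤ w j * (δ / 2) := by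
        intro j hj
        have h5 : star (star (nn (g j))) * star (nn (g j)) = 1 := by
          rw [star_star]
          exact nn_mul_star _
        rw [norm_smul, isometry_of_mul h5, Real.norm_eq_abs, abs_of_nonneg (hw0 j hj)]
        refine mul_le_mul_of_nonneg_left ?_ (hw0 j hj)
        exact (hA' _ (mem_image.2 ⟨(j, h), mem_product.2 ⟨hj, hh⟩, rfl⟩)).le
      refine (sum_le_sum h4).trans_eq ?_
      rw [← sum_mul, hw1, one_mul]
    have h5 : ‖((∑ j ∈ t, (w j : ℂ) * d (g j * h)) - c) • nn h Ω‖ ≤ δ / 2 := by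
      rw [norm_smul, hn1, mul_one]
      refine (Complex.norm_le_abs_re_add_abs_im _).trans ?_
      have h6 := (hre h hh).le
      have h7 := (him h hh).le
      have e6 : ((∑ j ∈ t, (w j : ℂ) * d (g j * h)) - c).re =
          (∑ j ∈ t, w j * (d (g j * h)).re) - m dr := by
        rw [Complex.sub_re, Complex.re_sum]
        congr 1
        exact sum_congr rfl fun j _ => Complex.re_ofReal_mul _ _
      have e7 : ((∑ j ∈ t, (w j : ℂ) * d (g j * h)) - c).im =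
          (∑ j ∈ t, w j * (d (g j * h)).im) - m di := by
        rw [Complex.sub_im, Complex.im_sum]
        congr 1
        exact sum_congr rfl fun j _ => Complex.im_ofReal_mul _ _
      rw [e6, e7]
      linarith
    calc _ ≤ δ / 2 + δ / 2 := (norm_add_le _ _).trans (add_le_add h3 h5)
      _ = δ := by ring

end Pool.Agent.Y671.WD
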