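import Mathlib
import Pool.Agent.Y671.WD.Reg3
import Pool.Agent.Y671.WD.Transfer

/-!
The criterion in terms of a family of normalizing unitaries indexed by a group.
-/

set_option autoImplicit false
open scoped InnerProductSpace
open Finset Filter Topology

namespace Pool.Agent.Y671.WD

variable {H : Type} [NormedAddCommGroup H] [InnerProductSpace ℂ H] [CompleteSpace H]

/-- `Q` is an irreducible subalgebra of `N` -/
def IsIrredSub (N Q : VonNeumannAlgebra H) : Prop :=
  (∀ a ∈ Q, a ∈ N) ∧ ∀ z ∈ N, (∀ q ∈ Q, z * q = q * z) → ∃ c : ℂ, z = c • (1 : H →L[ℂ] H)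

/-- `N` is generated by `Q` and unitaries `U g`, `g ∈ G`, which normalize `Q`, multiply as the
elements of `G` up to elements of `Q`, and are not in `Q` for `g ≠ 1` -/
def IsCrossed {G : Type} [Group G] (N Q : VonNeumannAlgebra H) (U : G → H →L[ℂ] H) : Prop :=
  (∀ g, U g ∈ unitary (H →L[ℂ] H) ∧ U g ∈ N) ∧
  (∀ g, ∀ q ∈ Q, U g * q * star (U g) ∈ Q ∧ star (U g) * q * U g ∈ Q) ∧
  (∀ g h, star (U (g * h)) * (U g * U h) ∈ Q) ∧ (∀ g, g ≠ 1 → U g ∉ Q) ∧
  ∀ z : H →L[ℂ] H, (∀ q ∈ Q, z * q = q * z) → (∀ g, z * U g = U g * z) → z ∈ N.commutant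

variable {N Q : VonNeumannAlgebra H} {Ω : H} {G : Type} [Group G] {U : G → H →L[ℂ] H}

lemma amen_congr {G G' : Type} [Group G] [Group G'] (φ : G ≃* G') : Amen G ↔ Amen G' := by
  have key : ∀ {G G' : Type} [Group G] [Group G'] (_ : G ≃* G'), Amen G → Amen G' := by
    intro G G' _ _ φ ⟨m, hm, hm'⟩
    refine ⟨fun f => m fun g => f (φ g), ⟨?_, ?_, hm.2.2.1, ?_⟩, ?_⟩
    · exact fun f f' hf hf' => hm.1 _ _ (bd_comp hf φ) (bd_comp hf' φ)
    · exact fun a f hf => hm.2.1 a _ (bd_comp hf φ)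
    · exact fun f hf h => hm.2.2.2 _ (bd_comp hf φ) fun g => h _
    · intro h f hf
      have h1 := hm' (φ.symm h) (fun g => f (φ g)) (bd_comp hf φ)
      simp only [map_mul, MulEquiv.apply_symm_apply] at h1
      exact h1
  exact ⟨key φ, key φ.symm⟩

/-- the unitaries as elements of the normalizer -/
def toNor (hU : IsCrossed N Q U) (g : G) : Nor N Q :=
  ⟨⟨U g, (hU.1 g).1⟩, (hU.1 g).2, fun q => ⟨fun h => by
    have h1 := (hU.2.1 g _ h).2
    have h2 := Unitary.star_mul_self_of_mem (hU.1 g).1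
    have h3 : star (U g) * (U g * q * star (U g)) * U g = (star (U g) * U g) * q *
      (star (U g) * U g) := by simp only [mul_assoc]
    change star (U g) * (U g * q * star (U g)) * U g ∈ Q at h1
    rw [h3, h2, one_mul, mul_one] at h1
    exact h1, fun h => (hU.2.1 g q h).1⟩⟩

lemma nn_toNor (hU : IsCrossed N Q U) (g : G) : nn (toNor hU g) = U g := rfl

lemma toNor_mul (hU : IsCrossed N Q U) (g h : G) :
    (QuotientGroup.mk (toNor hU (g * h)) : Nor N Q ⧸ UQ N Q) =
      QuotientGroup.mk (toNor hU g * toNor hU h) := by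
  rw [QuotientGroup.eq]
  exact hU.2.2.1 g h

lemma isRegular_of (hU : IsCrossed N Q U) (hQN : ∀ a ∈ Q, a ∈ N) : IsRegular N Q := by
  intro z hz
  apply hU.2.2.2.2 z
  · apply comm_of_unitary
    intro u hu huQ
    exact hz ⟨u, hu⟩ ⟨hQN u huQ, fun q => ⟨fun h => by
      have h2 := Unitary.star_mul_self_of_mem hu
      have h3 : star u * (u * q * star u) * u = (star u * u) * q * (star u * u) := by
        simp only [mul_assoc]
      have h1 : star u * (u * q * star u) * u ∈ Q := mul_mem (mul_mem (star_mem huQ) h) huQ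
      rwa [h3, h2, one_mul, mul_one] at h1, fun h => mul_mem (mul_mem huQ h) (star_mem huQ)⟩⟩
  · intro g
    exact hz _ (toNor hU g).2

lemma crossed_dense (hΩ : IsTraceVector N Ω) (hU : IsCrossed N Q U) :
    (Submodule.span ℂ {ξ : H | ∃ g, ∃ q ∈ Q, ξ = U g (q Ω)}).topologicalClosure = ⊤ := by
  set K₀ := Submodule.span ℂ {ξ : H | ∃ g, ∃ q ∈ Q, ξ = U g (q Ω)} with hK₀
  set K := K₀.topologicalClosure with hK
  have hKc : IsClosed (K : Set H) := K₀.isClosed_topologicalClosure
  have : CompleteSpace K := hKc.completeSpace_coe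
  have hst : ∀ g, star (U g) * U g = 1 := fun g => Unitary.star_mul_self_of_mem (hU.1 g).1
  have hst' : ∀ g, U g * star (U g) = 1 := fun g => Unitary.mul_star_self_of_mem (hU.1 g).1
  have hmap : ∀ T : H →L[ℂ] H, (∀ g, ∀ q ∈ Q, T (U g (q Ω)) ∈ K₀) → ∀ x ∈ K, T x ∈ K := by
    intro T hT
    have h1 : Set.MapsTo T K₀ K₀ := by
      intro x hx
      have h2 : K₀ ≤ K₀.comap T.toLinearMap := by
        rw [hK₀, Submodule.span_le]
        rintro _ ⟨g, q, hq, rfl⟩
        exact hT g q hq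
      exact h2 hx
    intro x hx
    exact h1.closure T.continuous hx
  have hQK : ∀ q' ∈ Q, ∀ g, ∀ q ∈ Q, q' (U g (q Ω)) ∈ K₀ := by
    intro q' hq' g q hq
    refine Submodule.subset_span ⟨g, star (U g) * q' * U g * q,
      mul_mem (hU.2.1 g q' hq').2 hq, ?_⟩
    have h3 : q' * (U g * q) = U g * (star (U g) * q' * U g * q) := by
      calc q' * (U g * q) = (U g * star (U g)) * (q' * (U g * q)) := by rw [hst', one_mul]
        _ = _ := by simp only [mul_assoc]
    exact congrArg (fun T : H →L[ℂ] H => T Ω) h3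
  have hUK : ∀ h g, ∀ q ∈ Q, U h (U g (q Ω)) ∈ K₀ := by
    intro h g q hq
    refine Submodule.subset_span ⟨h * g, star (U (h * g)) * (U h * U g) * q,
      mul_mem (hU.2.2.1 h g) hq, ?_⟩
    have h3 : U h * (U g * q) = U (h * g) * (star (U (h * g)) * (U h * U g) * q) := by
      calc U h * (U g * q) = (U (h * g) * star (U (h * g))) * (U h * (U g * q)) := by
            rw [hst', one_mul]
        _ = _ := by simp only [mul_assoc]
    exact congrArg (fun T : H →L[ℂ] H => T Ω) h3
  have hUK' : ∀ h g, ∀ q ∈ Q, (star (U h)) (U g (q Ω)) ∈ K₀ := by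
    intro h g q hq
    have h4 := hU.2.2.1 h (h⁻¹ * g)
    rw [mul_inv_cancel_left] at h4
    set q' := star (U g) * (U h * U (h⁻¹ * g)) with hq'
    refine Submodule.subset_span ⟨h⁻¹ * g, star q' * q, mul_mem (star_mem h4) hq, ?_⟩
    have h3 : star (U h) * (U g * q) = U (h⁻¹ * g) * (star q' * q) := by
      rw [hq', star_mul, star_mul, star_star]
      calc star (U h) * (U g * q) =
          (U (h⁻¹ * g) * star (U (h⁻¹ * g))) * (star (U h) * (U g * q)) := by
            rw [hst', one_mul]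
        _ = _ := by simp only [mul_assoc]
    exact congrArg (fun T : H →L[ℂ] H => T Ω) h3
  have hp : K.starProjection ∈ N.commutant := by
    apply hU.2.2.2.2
    · intro q hq
      exact (proj_comm K q (hmap q (hQK q hq)) (hmap _ (hQK _ (star_mem hq)))).symm
    · intro g
      exact (proj_comm K (U g) (hmap _ (hUK g)) (hmap _ (hUK' g))).symm
  have hU1 : U 1 ∈ Q := by
    have h1 := hU.2.2.1 1 1
    rw [mul_one, ← mul_assoc, hst, one_mul] at h1
    exact h1
  have hΩK : Ω ∈ K := by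
    refine K₀.le_topologicalClosure (Submodule.subset_span ⟨1, star (U 1), star_mem hU1, ?_⟩)
    have h1 := congrArg (fun T : H →L[ℂ] H => T Ω) (hst' 1)
    exact h1.symm
  have h1 : K.starProjection = 1 := by
    refine ext_comm hΩ hp (one_mem _) ?_
    rw [Submodule.starProjection_eq_self_iff.2 hΩK]
    rfl
  rw [eq_top_iff]
  intro x _
  have h2 := K.starProjection_apply_mem x
  rw [h1] at h2
  exact h2

/-- the group is the quotient of the normalizer -/
lemma crossed_equiv (hΩ : IsTraceVector N Ω) (hQ : IsIrredSub N Q) (hU : IsCrossed N Q U) :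
    Nonempty (G ≃* Nor N Q ⧸ UQ N Q) := by
  set φ : G →* Nor N Q ⧸ UQ N Q := MonoidHom.mk'
    (fun g => (QuotientGroup.mk (toNor hU g) : Nor N Q ⧸ UQ N Q)) (fun g h => toNor_mul hU g h)
    with hφ
  have hφa : ∀ g, φ g = QuotientGroup.mk (toNor hU g) := fun g => rfl
  have hinj : Function.Injective φ := by
    rw [injective_iff_map_eq_one]
    intro g hg
    by_contra hne
    rw [hφa, QuotientGroup.eq_one_iff] at hg
    exact hU.2.2.2.1 g hne hg
  have hsurj : Function.Surjective φ := by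
    intro x
    obtain ⟨w, rfl⟩ := QuotientGroup.mk_surjective x
    by_contra hcon
    push Not at hcon
    have h1 : ∀ g, ∀ q ∈ Q, ⟪U g (q Ω), nn w Ω⟫_ℂ = 0 := by
      intro g q hq
      have h2 : (toNor hU g)⁻¹ * w ∉ UQ N Q := by
        intro h
        exact hcon g (QuotientGroup.eq.2 h)
      have h3 := ee_nor hΩ hQ.1 hQ.2 ((toNor hU g)⁻¹ * w) h2
      have h4 : nn ((toNor hU g)⁻¹ * w) = star (U g) * nn w := rfl
      rw [h4] at h3
      have h5 : ⟪U g (q Ω), nn w Ω⟫_ℂ = ⟪q Ω, (star (U g) * nn w) Ω⟫_ℂ := by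
        rw [mul_app, inner_star]
      have h6 : ⟪q Ω, (star (U g) * nn w) Ω⟫_ℂ =
          ⟪q Ω, ee Q Ω ((star (U g) * nn w) Ω)⟫_ℂ := by
        have h7 : ee Q Ω (q Ω) = q Ω := Submodule.starProjection_eq_self_iff.2 (mem_LQ hq)
        conv_lhs => rw [← h7]
        rw [← inner_star, ee_self]
      rw [h5, h6, h3, inner_zero_right]
    have h2 : nn w Ω = 0 := by
      have h3 : nn w Ω ∈ (Submodule.span ℂ {ξ : H | ∃ g, ∃ q ∈ Q, ξ = U g (q Ω)})ᗮ := by
        rw [Submodule.mem_orthogonal]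
        intro u hu
        refine Submodule.span_induction (p := fun u _ => ⟪u, nn w Ω⟫_ℂ = 0) ?_ ?_ ?_ ?_ hu
        · rintro _ ⟨g, q, hq, rfl⟩
          exact h1 g q hq
        · exact inner_zero_left _
        · intro a b _ _ ha hb
          rw [inner_add_left, ha, hb, add_zero]
        · intro c a _ ha
          rw [inner_smul_left, ha, mul_zero]
      have h4 := (Submodule.topologicalClosure_eq_top_iff).1 (crossed_dense hΩ hU)
      rw [h4] at h3
      simpa using h3
    have h3 : ‖nn w Ω‖ = 1 := by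
      rw [isometry_of_mul (nn_star_mul w), hΩ.1]
    rw [h2, norm_zero] at h3
    exact zero_ne_one h3
  exact ⟨MulEquiv.ofBijective φ ⟨hinj, hsurj⟩⟩

theorem mainC (hΩ : IsTraceVector N Ω) (hQ : IsIrredSub N Q) (hU : IsCrossed N Q U) :
    IrredFactors N (basic N Q Ω) ∧ (WRDP N (basic N Q Ω) ↔ Amen G) := by
  obtain ⟨φ⟩ := crossed_equiv hΩ hQ hU
  have hreg := isRegular_of hU hQ.1
  refine ⟨irred_basic hΩ hQ.1 hQ.2, ?_⟩
  rw [amen_congr φ, amen_iff, ← relMean_iff_amenable]
  exact ⟨relMean_of_WRDP_basic hΩ hQ.1 hQ.2 hreg, WRDP_basic_of_relMean hΩ hQ.1 hQ.2 hreg⟩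

end Pool.Agent.Y671.WD
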