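import Mathlib
import Pool.Agent.Y671.WD.Abs
import Pool.Agent.Y671.WD.Mean
import Pool.Agent.Y671.WD.Dec
import Pool.Agent.Y671.WD.Quot

/-!
The inclusion of the crossed product `Q ⋊ G` into `Q ⊗ B(ℓ²(G))` for an outer action of a group on
an arbitrary factor `Q`.
-/

set_option autoImplicit false
open scoped InnerProductSpace
open Finset Filter Topology

namespace Pool.Agent.Y671.WD

variable {K : Type} [NormedAddCommGroup K] [InnerProductSpace ℂ K] [CompleteSpace K] {G : Type}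

/-- evaluation at a point -/
noncomputable def Ev (K : Type) [NormedAddCommGroup K] [InnerProductSpace ℂ K] [CompleteSpace K]
    (g : G) : KK G K →L[ℂ] K :=
  LinearMap.mkContinuous
    { toFun := fun ξ => ξ g
      map_add' := fun _ _ => rfl
      map_smul' := fun _ _ => rfl } 1 (fun ξ => by
        rw [one_mul]
        exact lp.norm_apply_le_norm (by norm_num) ξ g)

lemma Ev_apply (g : G) (ξ : KK G K) : Ev K g ξ = ξ g := rfl

open Classical in
/-- the embedding of `K` at a point -/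
noncomputable def Sg (K : Type) [NormedAddCommGroup K] [InnerProductSpace ℂ K] [CompleteSpace K]
    (g : G) : K →L[ℂ] KK G K :=
  LinearMap.mkContinuous
    { toFun := fun κ => lp.single 2 g κ
      map_add' := fun a b => by
        ext h
        rw [lp.single_apply]
        change _ = (lp.single 2 g a : KK G K) h + (lp.single 2 g b : KK G K) h
        rw [lp.single_apply, lp.single_apply]
        by_cases hh : h = g
        · subst hh
          simp
        · simp [Pi.single_eq_of_ne hh]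
      map_smul' := fun c a => by
        ext h
        rw [lp.single_apply]
        change _ = c • (lp.single 2 g a : KK G K) h
        rw [lp.single_apply]
        by_cases hh : h = g
        · subst hh
          simp
        · simp [Pi.single_eq_of_ne hh] } 1 (fun κ => by
        rw [one_mul]
        change ‖(lp.single 2 g κ : KK G K)‖ ≤ ‖κ‖
        rw [lp.norm_single (by norm_num)])

open Classical in
lemma Sg_apply (g : G) (κ : K) : Sg K g κ = lp.single 2 g κ := rfl

lemma Sg_self (g : G) (κ : K) : (Sg K g κ) g = κ := by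
  classical
  rw [Sg_apply, lp.single_apply]
  simp

lemma Sg_ne {g h : G} (hh : h ≠ g) (κ : K) : (Sg K g κ) h = 0 := by
  classical
  rw [Sg_apply, lp.single_apply]
  simp [Pi.single_eq_of_ne hh]

lemma Sg_inner (g : G) (κ : K) (ξ : KK G K) : ⟪Sg K g κ, ξ⟫_ℂ = ⟪κ, ξ g⟫_ℂ := by
  classical
  rw [Sg_apply]
  exact lp.inner_single_left (𝕜 := ℂ) (G := fun _ : G => K) g κ ξ

lemma norm_Sg (g : G) (κ : K) : ‖Sg K g κ‖ = ‖κ‖ := by
  classical
  rw [Sg_apply, lp.norm_single (by norm_num)]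

/-- operators which agree on the vectors `Sg h κ` are equal -/
lemma ext_Sg {S T : KK G K →L[ℂ] KK G K} (h : ∀ g κ, S (Sg K g κ) = T (Sg K g κ)) : S = T := by
  classical
  ext1 f
  have h1 := (lp.hasSum_single (p := 2) (by norm_num) f)
  have h2 := h1.mapL S
  have h3 := h1.mapL T
  refine h2.unique ?_
  convert h3 using 1
  funext g
  exact h g _

/-- matrix entries -/
noncomputable def En (T : KK G K →L[ℂ] KK G K) (g h : G) : K →L[ℂ] K := Ev K g ∘L T ∘L Sg K h

lemma En_apply (T : KK G K →L[ℂ] KK G K) (g h : G) (κ : K) : En T g h κ = (T (Sg K h κ)) g := rfl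

lemma ext_En {S T : KK G K →L[ℂ] KK G K} (h : ∀ g h, En S g h = En T g h) : S = T := by
  refine ext_Sg fun g κ => ?_
  ext x
  have := congrArg (fun A : K →L[ℂ] K => A κ) (h x g)
  exact this

lemma mem_WO (σ : Equiv.Perm G) (a : G → K →L[ℂ] K) (C : ℝ) (ha : ∀ g, ‖a g‖ ≤ C) (ξ : KK G K) :
    Memℓp (fun g => a g (ξ (σ g))) 2 := by
  have h1 : Memℓp (fun g => ξ (σ g)) 2 := by
    apply memℓp_gen
    have := (KK_summable ξ).comp_injective σ.injective
    simpa [Function.comp_def] using this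
  apply (h1.const_smul ((|C| : ℝ) : ℂ)).mono'
  intro g
  rw [Pi.smul_apply, norm_smul, Complex.norm_real, Real.norm_eq_abs, abs_abs]
  exact ((a g).le_opNorm _).trans (mul_le_mul_of_nonneg_right ((ha g).trans (le_abs_self C))
    (norm_nonneg _))

/-- a weighted permutation operator -/
noncomputable def WO (σ : Equiv.Perm G) (a : G → K →L[ℂ] K) (C : ℝ) (ha : ∀ g, ‖a g‖ ≤ C) :
    KK G K →L[ℂ] KK G K :=
  LinearMap.mkContinuous
    { toFun := fun ξ => ⟨fun g => a g (ξ (σ g)), mem_WO σ a C ha ξ⟩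
      map_add' := fun ξ η => by
        ext g
        change a g (ξ (σ g) + η (σ g)) = a g (ξ (σ g)) + a g (η (σ g))
        rw [map_add]
      map_smul' := fun c ξ => by
        ext g
        change a g (c • ξ (σ g)) = c • a g (ξ (σ g))
        rw [map_smul] } |C| (fun ξ => by
        apply le_of_sq_le_sq _ (by positivity)
        rw [mul_pow, KK_norm_sq, KK_norm_sq, ← tsum_mul_left,
          ← Equiv.tsum_eq σ (fun g => |C| ^ 2 * ‖ξ g‖ ^ 2)]
        refine (KK_summable _).tsum_le_tsum (fun g => ?_)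
          (((KK_summable ξ).mul_left (|C| ^ 2)).comp_injective σ.injective)
        change ‖a g (ξ (σ g))‖ ^ 2 ≤ _
        rw [← mul_pow]
        refine pow_le_pow_left₀ (norm_nonneg _) ?_ 2
        exact ((a g).le_opNorm _).trans (mul_le_mul_of_nonneg_right ((ha g).trans (le_abs_self C))
          (norm_nonneg _)))

lemma WO_apply (σ : Equiv.Perm G) (a : G → K →L[ℂ] K) (C : ℝ) (ha : ∀ g, ‖a g‖ ≤ C) (ξ : KK G K)
    (g : G) : WO σ a C ha ξ g = a g (ξ (σ g)) := rfl

/-- `1 ⊗ q` -/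
noncomputable def One (G : Type) (q : K →L[ℂ] K) : KK G K →L[ℂ] KK G K :=
  WO 1 (fun _ => q) ‖q‖ fun _ => le_rfl

lemma One_apply (q : K →L[ℂ] K) (ξ : KK G K) (g : G) : One G q ξ g = q (ξ g) := rfl

lemma norm_unitary_le {u : K →L[ℂ] K} (hu : u ∈ unitary (K →L[ℂ] K)) : ‖u‖ ≤ 1 := by
  refine u.opNorm_le_bound zero_le_one fun η => ?_
  rw [one_mul, isometry_of_mul (Unitary.star_mul_self_of_mem hu)]

variable [Group G]

/-- `ρ_k ⊗ v` -/
noncomputable def Rho (k : G) (v : unitary (K →L[ℂ] K)) : KK G K →L[ℂ] KK G K :=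
  WO (Equiv.mulRight k) (fun _ => v) 1 fun _ => norm_unitary_le v.2

lemma Rho_apply (k : G) (v : unitary (K →L[ℂ] K)) (ξ : KK G K) (g : G) :
    Rho k v ξ g = (v : K →L[ℂ] K) (ξ (g * k)) := rfl

/-- `λ_k` -/
noncomputable def Lam (K : Type) [NormedAddCommGroup K] [InnerProductSpace ℂ K] [CompleteSpace K]
    (k : G) : KK G K →L[ℂ] KK G K :=
  WO (Equiv.mulLeft k⁻¹) (fun _ => 1) 1 fun _ => ContinuousLinearMap.opNorm_le_bound _ zero_le_one
    fun ξ => by rw [one_mul]; exact le_rfl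

lemma Lam_apply (k : G) (ξ : KK G K) (g : G) : Lam K k ξ g = ξ (k⁻¹ * g) := rfl

/-- `π(q)`, for `v` a unitary representation -/
noncomputable def Pi_ (v : G →* unitary (K →L[ℂ] K)) (q : K →L[ℂ] K) : KK G K →L[ℂ] KK G K :=
  WO 1 (fun g => star (v g : K →L[ℂ] K) * q * (v g : K →L[ℂ] K)) ‖q‖ fun g => by
    have h1 := norm_conj_le' (v g) q
    exact h1
where
  norm_conj_le' (u : unitary (K →L[ℂ] K)) (x : K →L[ℂ] K) :
      ‖star (u : K →L[ℂ] K) * x * (u : K →L[ℂ] K)‖ ≤ ‖x‖ := by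
    calc _ ≤ ‖star (u : K →L[ℂ] K)‖ * ‖x‖ * ‖(u : K →L[ℂ] K)‖ :=
          (norm_mul_le _ _).trans (mul_le_mul_of_nonneg_right (norm_mul_le _ _) (norm_nonneg _))
      _ ≤ 1 * ‖x‖ * 1 := by
          rw [norm_star]
          have := norm_unitary_le u.2
          gcongr
      _ = ‖x‖ := by ring

lemma Pi_apply (v : G →* unitary (K →L[ℂ] K)) (q : K →L[ℂ] K) (ξ : KK G K) (g : G) :
    Pi_ v q ξ g = (star (v g : K →L[ℂ] K)) (q ((v g : K →L[ℂ] K) (ξ g))) := rfl

/-- the commutant of a set of operators, as a von Neumann algebra -/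
noncomputable def CM {H : Type} [NormedAddCommGroup H] [InnerProductSpace ℂ H] [CompleteSpace H]
    (X : Set (H →L[ℂ] H)) : VonNeumannAlgebra H where
  toStarSubalgebra := StarSubalgebra.centralizer ℂ X
  centralizer_centralizer' := by
    change Set.centralizer (Set.centralizer (Set.centralizer _)) = Set.centralizer _
    rw [Set.centralizer_centralizer_centralizer]

lemma mem_CM {H : Type} [NormedAddCommGroup H] [InnerProductSpace ℂ H] [CompleteSpace H]
    {X : Set (H →L[ℂ] H)} (hX : ∀ x ∈ X, star x ∈ X) {z : H →L[ℂ] H} :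
    z ∈ CM X ↔ ∀ x ∈ X, x * z = z * x := by
  have h0 : z ∈ CM X ↔ z ∈ StarSubalgebra.centralizer ℂ X := Iff.rfl
  rw [h0, StarSubalgebra.mem_centralizer_iff]
  exact ⟨fun h x hx => (h x hx).1, fun h x hx => ⟨h x hx, h _ (hX x hx)⟩⟩

lemma KK_inner (ξ η : KK G K) : HasSum (fun g => ⟪ξ g, η g⟫_ℂ) ⟪ξ, η⟫_ℂ :=
  lp.hasSum_inner (𝕜 := ℂ) ξ η

omit [Group G] in
lemma star_One (q : K →L[ℂ] K) : star (One G q) = One G (star q) := by
  rw [ContinuousLinearMap.star_eq_adjoint]
  symm
  rw [ContinuousLinearMap.eq_adjoint_iff]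
  intro ξ η
  refine (lp.hasSum_inner (𝕜 := ℂ) (One G (star q) ξ) η).unique ?_
  refine (lp.hasSum_inner (𝕜 := ℂ) ξ (One G q η)).congr_fun (fun g => ?_) |> fun h => h
  rw [One_apply, One_apply, star_inner]

lemma star_Rho (k : G) (v : unitary (K →L[ℂ] K)) : star (Rho k v) = Rho k⁻¹ v⁻¹ := by
  rw [ContinuousLinearMap.star_eq_adjoint]
  symm
  rw [ContinuousLinearMap.eq_adjoint_iff]
  intro ξ η
  refine (lp.hasSum_inner (𝕜 := ℂ) (Rho k⁻¹ v⁻¹ ξ) η).unique ?_
  have h1 := lp.hasSum_inner (𝕜 := ℂ) ξ (Rho k v η)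
  have h2 := (Equiv.hasSum_iff (Equiv.mulRight k⁻¹)).2 h1
  refine h2.congr_fun (fun g => ?_) |> fun h => h
  change ⟪(Rho k⁻¹ v⁻¹ ξ) g, η g⟫_ℂ = ⟪ξ (g * k⁻¹), (Rho k v η) (g * k⁻¹)⟫_ℂ
  rw [Rho_apply, Rho_apply, inv_mul_cancel_right]
  exact star_inner _ _ _

/-- the algebra `Q ⊗ B(ℓ²(G))` -/
noncomputable def MM (G : Type) (Q : VonNeumannAlgebra K) : VonNeumannAlgebra (KK G K) :=
  CM {x | ∃ q ∈ Q.commutant, x = One G q}

/-- the crossed product -/
noncomputable def NC (v : G →* unitary (K →L[ℂ] K)) (Q : VonNeumannAlgebra K) :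
    VonNeumannAlgebra (KK G K) :=
  CM ({x | ∃ q ∈ Q.commutant, x = One G q} ∪ {x | ∃ k, x = Rho k (v k)})

variable {Q : VonNeumannAlgebra K} {v : G →* unitary (K →L[ℂ] K)}

omit [Group G] in
lemma mem_MM' {z : KK G K →L[ℂ] KK G K} :
    z ∈ MM G Q ↔ ∀ q ∈ Q.commutant, One G q * z = z * One G q := by
  unfold MM
  rw [mem_CM]
  · exact ⟨fun h q hq => h _ ⟨q, hq, rfl⟩, by rintro h _ ⟨q, hq, rfl⟩; exact h q hq⟩
  · rintro _ ⟨q, hq, rfl⟩
    exact ⟨star q, star_mem hq, star_One q⟩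

lemma mem_NC' {z : KK G K →L[ℂ] KK G K} :
    z ∈ NC v Q ↔ (∀ q ∈ Q.commutant, One G q * z = z * One G q) ∧
      ∀ k, Rho k (v k) * z = z * Rho k (v k) := by
  unfold NC
  rw [mem_CM]
  · constructor
    · intro h
      exact ⟨fun q hq => h _ (Or.inl ⟨q, hq, rfl⟩), fun k => h _ (Or.inr ⟨k, rfl⟩)⟩
    · rintro ⟨h, h'⟩ _ (⟨q, hq, rfl⟩ | ⟨k, rfl⟩)
      · exact h q hq
      · exact h' k
  · rintro _ (⟨q, hq, rfl⟩ | ⟨k, rfl⟩)
    · exact Or.inl ⟨star q, star_mem hq, star_One q⟩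
    · refine Or.inr ⟨k⁻¹, ?_⟩
      rw [star_Rho, map_inv]

omit [Group G] in
lemma One_Sg (q : K →L[ℂ] K) (g : G) (κ : K) : One G q (Sg K g κ) = Sg K g (q κ) := by
  ext x
  rw [One_apply]
  by_cases h : x = g
  · subst h
    rw [Sg_self, Sg_self]
  · rw [Sg_ne h, Sg_ne h, map_zero]

lemma Rho_Sg (k : G) (w : unitary (K →L[ℂ] K)) (g : G) (κ : K) :
    Rho k w (Sg K g κ) = Sg K (g * k⁻¹) ((w : K →L[ℂ] K) κ) := by
  ext x
  rw [Rho_apply]
  by_cases h : x = g * k⁻¹
  · subst h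
    rw [inv_mul_cancel_right, Sg_self, Sg_self]
  · rw [Sg_ne h, Sg_ne (fun h' => h (by rw [← h', mul_inv_cancel_right])), map_zero]

lemma Lam_Sg (k g : G) (κ : K) : Lam K k (Sg K g κ) = Sg K (k * g) κ := by
  ext x
  rw [Lam_apply]
  by_cases h : x = k * g
  · subst h
    rw [inv_mul_cancel_left, Sg_self, Sg_self]
  · rw [Sg_ne h, Sg_ne (fun h' => h (by rw [← h', mul_inv_cancel_left]))]

lemma Pi_Sg (q : K →L[ℂ] K) (g : G) (κ : K) :
    Pi_ v q (Sg K g κ) = Sg K g ((star (v g : K →L[ℂ] K) * q * (v g : K →L[ℂ] K)) κ) := by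
  ext x
  rw [Pi_apply]
  by_cases h : x = g
  · subst h
    rw [Sg_self, Sg_self]
    rfl
  · rw [Sg_ne h, Sg_ne h, map_zero, map_zero, map_zero]

omit [Group G] in
/-- an operator is in `Q ⊗ B(ℓ²)` if and only if its entries are in `Q` -/
lemma mem_MM {z : KK G K →L[ℂ] KK G K} : z ∈ MM G Q ↔ ∀ g h, En z g h ∈ Q := by
  rw [mem_MM']
  constructor
  · intro H g h
    rw [← Q.commutant_commutant, VonNeumannAlgebra.mem_commutant_iff]
    intro q hq
    ext κ
    have h1 := congrArg (fun T : KK G K →L[ℂ] KK G K => (T (Sg K h κ)) g) (H q hq)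
    simp only [mul_app] at h1
    rw [One_apply, One_Sg] at h1
    exact h1
  · intro H q hq
    refine ext_En fun g h => ?_
    ext κ
    rw [En_apply, En_apply, mul_app, mul_app, One_apply, One_Sg]
    have h1 := comm_app hq (H g h) κ
    exact h1

lemma mem_NC {z : KK G K →L[ℂ] KK G K} : z ∈ NC v Q ↔ (∀ g h, En z g h ∈ Q) ∧
    ∀ k g h, En z (g * k) (h * k) = star (v k : K →L[ℂ] K) * En z g h * (v k : K →L[ℂ] K) := by
  rw [mem_NC', ← mem_MM', mem_MM]
  refine and_congr_right fun _ => ?_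
  have hv : ∀ k, star (v k : K →L[ℂ] K) * (v k : K →L[ℂ] K) = 1 := fun k =>
    Unitary.star_mul_self_of_mem (v k).2
  have hv' : ∀ k, (v k : K →L[ℂ] K) * star (v k : K →L[ℂ] K) = 1 := fun k =>
    Unitary.mul_star_self_of_mem (v k).2
  have key : ∀ k g h, En (Rho k (v k) * z) g (h * k) = (v k : K →L[ℂ] K) * En z (g * k) (h * k) ∧
      En (z * Rho k (v k)) g (h * k) = En z g h * (v k : K →L[ℂ] K) := by
    intro k g h
    constructor
    · ext κ
      rfl
    · ext κ
      rw [En_apply, mul_app, Rho_Sg, mul_inv_cancel_right]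
      rfl
  constructor
  · intro H k g h
    have h1 := (key k g h).1
    rw [H k, (key k g h).2] at h1
    rw [mul_assoc, h1, ← mul_assoc, hv, one_mul]
  · intro H k
    refine ext_En fun g h => ?_
    have h1 := (key k g (h * k⁻¹)).1
    have h2 := (key k g (h * k⁻¹)).2
    rw [inv_mul_cancel_right] at h1 h2
    have h3 := H k g (h * k⁻¹)
    rw [inv_mul_cancel_right] at h3
    rw [h1, h2, h3, ← mul_assoc, ← mul_assoc, hv', one_mul]

/-- outerness: an intertwiner of an outer automorphism of a factor is zero -/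
lemma outer_zero (hfac : ∀ z ∈ Q, (∀ y ∈ Q, z * y = y * z) → ∃ c : ℂ, z = c • (1 : K →L[ℂ] K))
    {w : K →L[ℂ] K} (hw : w ∈ unitary (K →L[ℂ] K)) (hwQ : ∀ q ∈ Q, w * q * star w ∈ Q)
    (hwQ' : ∀ q ∈ Q, star w * q * w ∈ Q)
    (hout : ¬ ∃ u ∈ unitary (K →L[ℂ] K), u ∈ Q ∧ ∀ q ∈ Q, w * q * star w = u * q * star u)
    {b : K →L[ℂ] K} (hb : b ∈ Q) (h : ∀ q ∈ Q, b * q = w * q * star w * b) : b = 0 := by
  by_contra hne
  have hww := Unitary.star_mul_self_of_mem hw
  have hww' := Unitary.mul_star_self_of_mem hw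
  have h0 : ∀ q ∈ Q, q * star b = star b * (w * q * star w) := by
    intro q hq
    have h2 := congrArg star (h (star q) (star_mem hq))
    rw [star_mul, star_mul, star_mul, star_mul, star_star, star_star] at h2
    rw [h2]
    simp only [mul_assoc]
  have h1 : ∀ q ∈ Q, star b * b * q = q * (star b * b) := by
    intro q hq
    calc star b * b * q = star b * (b * q) := by rw [mul_assoc]
      _ = star b * (w * q * star w * b) := by rw [h q hq]
      _ = (star b * (w * q * star w)) * b := by simp only [mul_assoc]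
      _ = q * star b * b := by rw [← h0 q hq]
      _ = _ := by rw [mul_assoc]
  have h3 : ∀ q ∈ Q, b * star b * q = q * (b * star b) := by
    intro q' hq'
    have hq : star w * q' * w ∈ Q := hwQ' q' hq'
    have hq'' : w * (star w * q' * w) * star w = q' := by
      calc w * (star w * q' * w) * star w = (w * star w) * q' * (w * star w) := by
            simp only [mul_assoc]
        _ = q' := by rw [hww', one_mul, mul_one]
    have h4 := h0 _ hq
    rw [hq''] at h4
    have h5 := h _ hq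
    rw [hq''] at h5
    calc b * star b * q' = b * (star b * q') := by rw [mul_assoc]
      _ = b * (star w * q' * w) * star b := by
        rw [← h4]
        simp only [mul_assoc]
      _ = q' * (b * star b) := by rw [h5, mul_assoc]
  obtain ⟨c, hc⟩ := hfac _ (mul_mem (star_mem hb) hb) (fun y hy => h1 y hy)
  obtain ⟨c', hc'⟩ := hfac _ (mul_mem hb (star_mem hb)) (fun y hy => h3 y hy)
  -- `c = c'`
  have h5 : c • b = c' • b := by
    have h6 : b * (star b * b) = (b * star b) * b := by rw [mul_assoc]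
    rw [hc, hc', mul_smul_comm, mul_one, smul_mul_assoc, one_mul] at h6
    exact h6
  have hcc : c = c' := by
    have h6 : (c - c') • b = 0 := by rw [sub_smul, h5, sub_self]
    rcases smul_eq_zero.1 h6 with h7 | h7
    · exact sub_eq_zero.1 h7
    · exact absurd h7 hne
  obtain ⟨κ, hκ⟩ : ∃ κ, b κ ≠ 0 := by
    by_contra hcon
    push Not at hcon
    exact hne (by ext κ; exact hcon κ)
  have hκ0 : κ ≠ 0 := by
    rintro rfl
    exact hκ (map_zero b)
  have h6 : ((‖b κ‖ ^ 2 : ℝ) : ℂ) = c * ((‖κ‖ ^ 2 : ℝ) : ℂ) := by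
    have h7 : ⟪κ, (star b * b) κ⟫_ℂ = ⟪b κ, b κ⟫_ℂ := by
      rw [mul_app, inner_star]
    have h8 : (c • (1 : K →L[ℂ] K)) κ = c • κ := rfl
    rw [hc, h8, inner_smul_right, inner_self_eq_norm_sq_to_K, inner_self_eq_norm_sq_to_K] at h7
    push_cast
    exact h7.symm
  set s : ℝ := ‖b κ‖ ^ 2 / ‖κ‖ ^ 2 with hs
  have hs0 : 0 < s := by
    have := norm_pos_iff.2 hκ
    have := norm_pos_iff.2 hκ0
    positivity
  have hcs : c = (s : ℂ) := by
    have h7 : ((‖κ‖ ^ 2 : ℝ) : ℂ) ≠ 0 := by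
      have := norm_pos_iff.2 hκ0
      have h8 : (‖κ‖ ^ 2 : ℝ) ≠ 0 := by positivity
      exact_mod_cast h8
    rw [hs]
    push_cast at h6 h7 ⊢
    rw [eq_div_iff h7, ← h6]
  set t : ℂ := (((Real.sqrt s)⁻¹ : ℝ) : ℂ) with ht
  have htt : star t * t * s = 1 := by
    have h7 : (Real.sqrt s)⁻¹ * (Real.sqrt s)⁻¹ * s = 1 := by
      have h8 := Real.mul_self_sqrt hs0.le
      have h9 : Real.sqrt s ≠ 0 := (Real.sqrt_pos.2 hs0).ne'
      field_simp
      nlinarith
    have h10 : star t = t := Complex.conj_ofReal _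
    rw [h10, ht]
    exact_mod_cast h7
  apply hout
  have hu1 : star (t • b) * (t • b) = 1 := by
    rw [star_smul, smul_mul_smul_comm, hc, smul_smul, hcs, htt, one_smul]
  have hu2 : (t • b) * star (t • b) = 1 := by
    rw [star_smul, smul_mul_smul_comm, hc', smul_smul, ← hcc, hcs, mul_comm t (star t), htt,
      one_smul]
  refine ⟨t • b, Unitary.mem_iff.2 ⟨hu1, hu2⟩, smul_memN Q t hb, fun q hq => ?_⟩
  have h7 : (t • b) * q = w * q * star w * (t • b) := by
    rw [smul_mul_assoc, h q hq, mul_smul_comm]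
  calc w * q * star w = w * q * star w * ((t • b) * star (t • b)) := by rw [hu2, mul_one]
    _ = (w * q * star w * (t • b)) * star (t • b) := (mul_assoc _ _ _).symm
    _ = (t • b) * q * star (t • b) := by rw [h7]

end Pool.Agent.Y671.WD
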